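import Pool.Agent.X282.KRB.KBlk
import Pool.Agent.Y63.NV.Kalt
import Pool.Agent.Y171.NV.Kfin

/-!
# The blockwise alternating sum conjecture and extensions by `p`-groups
-/

open scoped Classical

noncomputable section

namespace Pool.Agent.X282.KRB

open Pool.Agent.Y63.NV
open Pool.Agent.Y63.KR (IsPChain chainStabilizer)

theorem kfin_main : S_KFIN := Pool.Agent.Y171.NV.kfin kblk

variable {p : ℕ} [Fact p.Prime] {F : Type} [Field F] [IsAlgClosed F] [CharP F p]

/-- the alternating sum form passes to extensions by `p`-groups -/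
theorem krb_ext (red : integralClosure ℤ ℂ →+* F) (X : ∀ (H : Type) [Group H], Prop)
    (hX : Closed p X) :
    (∀ (H : Type) [Group H] [Finite H], X H → Reduced p H → KRB p red H) ↔
    ∀ (Γ : Type) [Group Γ] [Finite Γ] (G : Subgroup Γ) [G.Normal], X G → IsPGroup p (Γ ⧸ G) →
      KRB p red Γ :=
  krb_strong kdimh kfilt_main kfin_main red X hX

/-- the alternating sum form for the reduced groups and the weight conjecture for the extensions by
`p`-groups -/
theorem krb_bawc (red : integralClosure ℤ ℂ →+* F) (X : ∀ (H : Type) [Group H], Prop)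
    (hX : Closed p X) :
    (∀ (H : Type) [Group H] [Finite H], X H → Reduced p H → KRB p red H) ↔
    ∀ (Γ : Type) [Group Γ] [Finite Γ] (G : Subgroup Γ) [G.Normal], X G → IsPGroup p (Γ ⧸ G) →
      BAWC p red Γ := by
  constructor
  · intro h Γ _ _ G hG hXG hp
    have key := bawc_reduction' red X hX ?_
    · rw [bawc_iff]
      exact key (Nat.card Γ) Γ le_rfl ⟨G, hG, hXG, hp⟩
    · intro H _ _ hH hR hsmall
      refine bawc_of_krb kdimh kfilt_main kfin_main red (fun σ hσ hne => ?_) (h H hH hR)
      have hXP : XP p X (chainStabilizer σ) :=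
        (xp_closed p X hX).sub H ⟨⊤, inferInstance,
          hX.iso _ _ hH ⟨Subgroup.topEquiv.symm⟩, pgroup_top p H⟩ _
      exact hsmall (chainStabilizer σ) hXP (stab_lt hR.radical hσ hne)
  · intro h H _ _ hH _
    refine krb_of_bawc kdimh kfilt_main kfin_main red fun σ _ => ?_
    rw [← bawc_iff]
    exact h (chainStabilizer σ) ⊤ (hX.iso _ _ (hX.sub H hH _) ⟨Subgroup.topEquiv.symm⟩)
      (pgroup_top p _)

/-- the alternating sum form for the reduced groups and Navarro's equality -/
theorem krb_navarro (red : integralClosure ℤ ℂ →+* F) (X : ∀ (H : Type) [Group H], Prop)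
    (hX : Closed p X) :
    (∀ (H : Type) [Group H] [Finite H], X H → Reduced p H → KRB p red H) ↔
    ∀ (Γ : Type) [Group Γ] [Finite Γ] (N G : Subgroup Γ) [N.Normal] [G.Normal], N ≤ G → X N →
      IsPGroup p (Γ ⧸ N) → NavarroTheta p red G := by
  rw [krb_bawc red X hX]
  constructor
  · intro h
    refine (block_strong red X hX).1 fun H _ _ hH _ => ?_
    rw [theta_iff, ← bawc_iff]
    exact h H ⊤ (hX.iso _ _ hH ⟨Subgroup.topEquiv.symm⟩) (pgroup_top p H)
  · intro h Γ _ _ G hG hXG hp
    rw [bawc_iff, ← theta_iff]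
    exact h Γ G ⊤ le_top hXG hp

end Pool.Agent.X282.KRB
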