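import Pool.Agent.X282.KRB.Idx

/-!
# Weights of the groups between `G` and `Γ`, `Γ/G` a `p`-group

For a `p`-subgroup `Q` of a subgroup `H ⊇ G` let `n_H(Q) = |N_H(Q)/Q| dz(N_H(Q)/Q | z, c)`. Then
`n_H(Q)` is the sum of `n_Γ(R)` over the `p`-subgroups `R` of `Γ` with `R ∩ H = Q`.
-/

set_option autoImplicit false
set_option linter.unusedSectionVars false

open scoped Classical

noncomputable section

namespace Pool.Agent.X282.KRB

open Pool.Agent.Y63.NV
open Pool.Agent.Y487.NV (nw_gen card_gen fib wl local_eqL)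

section wts

/-- the subgroups of a finite group -/
local instance fsubA {Γ : Type} [Group Γ] [Finite Γ] : Fintype (Subgroup Γ) := Fintype.ofFinite _

variable {p : ℕ} {F : Type} [Field F] {Γ : Type} [Group Γ] [Finite Γ]

/-- the weighted number of the weights of `H` for `Q` -/
def wH (p : ℕ) (red : integralClosure ℤ ℂ →+* F) (z : Γ → F) (c : F) (H Q : Subgroup Γ) : ℕ :=
  Nat.card ↥(H ⊓ Subgroup.normalizer (Q : Set Γ)) *
    Nw p red (Q.subgroupOf (H ⊓ Subgroup.normalizer (Q : Set Γ))) (fun x => z x) c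

theorem wl_inj {A : Type} [Group A] [Finite A] (red : integralClosure ℤ ℂ →+* F) (j : A →* Γ)
    (hj : Function.Injective j) {H : Subgroup Γ} (hH : j.range = H) (Q₁ : Subgroup A)
    {z : Γ → F} (hz : ∀ h ∈ H, ∀ x : Γ, z (h * x * h⁻¹) = z x) (c : F) :
    wl p red (fun a => z (j a)) c Q₁ = wH p red z c H (Q₁.map j) := by
  have hN := Subgroup.comap_normalizer_eq_of_le_range (f := j) (H := Q₁.map j)
    (by rintro _ ⟨x, _, rfl⟩; exact ⟨x, rfl⟩)
  rw [Subgroup.comap_map_eq_self_of_injective hj] at hN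
  obtain ⟨j', hj'⟩ : ∃ j' : Subgroup.normalizer (Q₁ : Set A) →* Γ, ∀ x, j' x = j x :=
    ⟨j.comp (Subgroup.subtype _), fun x => rfl⟩
  have hji : Function.Injective j' := by
    intro x y hxy
    rw [hj', hj'] at hxy
    exact Subtype.ext (hj hxy)
  have hV : ∀ n : Γ, (MonoidHom.id Γ) n ∈ H ⊓ Subgroup.normalizer ((Q₁.map j : Subgroup Γ) :
      Set Γ) ↔ n ∈ j'.range := by
    intro n
    rw [MonoidHom.id_apply, Subgroup.mem_inf, ← hH]
    constructor
    · rintro ⟨⟨a, rfl⟩, hn⟩
      have h1 : a ∈ Subgroup.normalizer (Q₁ : Set A) := by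
        rw [← hN]
        exact hn
      exact ⟨⟨a, h1⟩, hj' _⟩
    · rintro ⟨a, rfl⟩
      rw [hj']
      have h1 : (a : A) ∈ (Subgroup.normalizer ((Q₁.map j : Subgroup Γ) : Set Γ)).comap j := by
        rw [hN]
        exact a.2
      exact ⟨⟨a, rfl⟩, h1⟩
  have hs : Function.Surjective (MonoidHom.id Γ) := Function.surjective_id
  have e1 := card_gen (MonoidHom.id Γ) hs j' hji _ hV
  have e2 := nw_gen p red (MonoidHom.id Γ) hs z j' hji _ hV
    (Q₁.subgroupOf (Subgroup.normalizer (Q₁ : Set A)))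
    ((Q₁.map j).subgroupOf (H ⊓ Subgroup.normalizer ((Q₁.map j : Subgroup Γ) : Set Γ))) (by
      intro a h
      rw [Subgroup.mem_subgroupOf, Subgroup.mem_subgroupOf]
      change _ ↔ j' a ∈ Q₁.map j
      rw [hj', Subgroup.mem_map_iff_mem hj]) (fun x => z (j x)) (fun a => by rw [hj'])
      (fun g x => by
        change z (j ((g : A) * x * (g : A)⁻¹)) = z (j x)
        rw [map_mul, map_mul, map_inv]
        exact hz _ (by rw [← hH]; exact ⟨g, rfl⟩) _) c
  have e3 : ∀ y : Γ, fib (MonoidHom.id Γ) z y = z y := by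
    intro y
    unfold fib
    rw [finsum_eq_single _ y]
    · rw [if_pos (MonoidHom.id_apply Γ y)]
    · intro x hx
      rw [if_neg]
      rw [MonoidHom.id_apply]
      exact hx
  simp only [e3] at e2
  have e4 : (MonoidHom.id Γ).ker = ⊥ := by
    rw [MonoidHom.ker_eq_bot_iff]
    exact Function.injective_id
  rw [e4, Subgroup.card_bot, one_mul] at e1
  unfold wl wH
  rw [e1]
  congr 1

/-- the local identity for a normal subgroup `M` of index `p` of `H` -/
theorem loc [Fact p.Prime] [CharP F p] (red : integralClosure ℤ ℂ →+* F) {M H : Subgroup Γ}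
    (hMH : M ≤ H) (hn : (M.subgroupOf H).Normal) (hi : M.relIndex H = p) {z : Γ → F}
    (hz : ∀ h ∈ H, ∀ x : Γ, z (h * x * h⁻¹) = z x) (hs : ∀ x : Γ, x ∉ M → z x = 0) (c : F)
    {Q : Subgroup Γ} (hQ : IsPGroup p Q) (hQM : Q ≤ M) :
    p * wH p red z c H Q + (∑ R : Subgroup Γ,
      if IsPGroup p R ∧ R ≤ H ∧ M ⊔ R = H ∧ R ⊓ M = Q then wH p red z c H R else 0) =
    p * wH p red z c M Q := by
  set M' : Subgroup H := M.subgroupOf H with hM'
  have hj : Function.Injective (H.subtype.comp M'.subtype) := by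
    intro x y hxy
    exact Subtype.ext (Subtype.ext hxy)
  have hjr : (H.subtype.comp M'.subtype).range = M := by
    rw [MonoidHom.range_comp, Subgroup.range_subtype, hM', Subgroup.subgroupOf_map_subtype,
      inf_eq_left.2 hMH]
  set Q₁ : Subgroup M' := Q.comap (H.subtype.comp M'.subtype) with hQ₁
  have hQ1map : Q₁.map (H.subtype.comp M'.subtype) = Q := by
    rw [hQ₁, Subgroup.map_comap_eq, hjr, inf_eq_right.2 hQM]
  have hQ1map' : (Q₁.map M'.subtype).map H.subtype = Q := by
    rw [Subgroup.map_map]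
    exact hQ1map
  have hQ1p : IsPGroup p Q₁ := hQ.comap_of_injective _ hj
  have hzH : InZ M' (fun x : H => z x) := by
    refine ⟨fun g x => ?_, fun x hx => ?_⟩
    · exact hz g g.2 x
    · exact hs x (fun h => hx (Subgroup.mem_subgroupOf.2 h))
  have h1 := local_eqL Pool.Agent.Y63.NV.dgnL' Pool.Agent.Y809.NV.clifL red M'
    (fun x : H => z x) c hzH hi Q₁ hQ1p
  have e1 : wl p red (fun x : H => z x) c (Q₁.map M'.subtype) = wH p red z c H Q := by
    rw [← hQ1map']
    exact wl_inj red H.subtype H.subtype_injective (Subgroup.range_subtype H) _ hz c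
  have e2 : wl p red (fun x : M' => z (x : H)) c Q₁ = wH p red z c M Q := by
    rw [← hQ1map]
    exact wl_inj red (H.subtype.comp M'.subtype) hj hjr _ (fun h hh x => hz h (hMH hh) x) c
  rw [e1, e2] at h1
  rw [← h1]
  congr 1
  rw [← Finset.sum_filter, ← Finset.sum_filter]
  refine Finset.sum_bij' (fun R _ => R.subgroupOf H) (fun R _ => R.map H.subtype) ?_ ?_ ?_ ?_ ?_
  · intro R hR
    rw [Finset.mem_filter] at hR ⊢
    obtain ⟨-, h2, h3, h4, h5⟩ := hR
    refine ⟨Finset.mem_univ _, h2.comap_subtype, ?_, ?_⟩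
    · rw [hM', ← Subgroup.subgroupOf_sup hMH h3, h4, Subgroup.subgroupOf_self]
    · ext x
      have h6 : ((x : H) : Γ) ∈ R ⊓ M ↔ ((x : H) : Γ) ∈ Q := by rw [h5]
      constructor
      · intro hx
        exact h6.1 ⟨hx, x.2⟩
      · intro hx
        exact (h6.2 hx).1
  · intro R hR
    rw [Finset.mem_filter] at hR ⊢
    obtain ⟨-, h2, h3, h4⟩ := hR
    refine ⟨Finset.mem_univ _, h2.map _, Subgroup.map_subtype_le R, ?_, ?_⟩
    · have h5 := congrArg (Subgroup.map H.subtype) h3
      rw [Subgroup.map_sup, hM', Subgroup.subgroupOf_map_subtype, inf_eq_left.2 hMH,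
        ← MonoidHom.range_eq_map, Subgroup.range_subtype] at h5
      exact h5
    · ext x
      constructor
      · rintro ⟨⟨y, hy, rfl⟩, hx⟩
        have h6 : (⟨y, hx⟩ : M') ∈ R.subgroupOf M' := hy
        rw [h4] at h6
        exact h6
      · intro hx
        have hxM := hQM hx
        have h6 : (⟨⟨x, hMH hxM⟩, hxM⟩ : M') ∈ Q₁ := hx
        rw [← h4] at h6
        exact ⟨⟨⟨x, hMH hxM⟩, h6, rfl⟩, hxM⟩
  · intro R hR
    rw [Finset.mem_filter] at hR
    rw [Subgroup.subgroupOf_map_subtype, inf_eq_left.2 hR.2.2.1]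
  · intro R hR
    exact Subgroup.comap_map_eq_self_of_injective H.subtype_injective R
  · intro R hR
    rw [Finset.mem_filter] at hR
    have h2 := wl_inj (p := p) red H.subtype H.subtype_injective (Subgroup.range_subtype H)
      (R.subgroupOf H) hz c
    rw [Subgroup.subgroupOf_map_subtype, inf_eq_left.2 hR.2.2.1] at h2
    exact h2.symm

/-- the number `n_H(Q)` -/
def nH (p : ℕ) (red : integralClosure ℤ ℂ →+* F) (z : Γ → F) (c : F) (H Q : Subgroup Γ) : ℚ :=
  if IsPGroup p Q ∧ Q ≤ H then (wH p red z c H Q : ℚ) / Nat.card Q else 0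

theorem card_step [Fact p.Prime] {M H R : Subgroup Γ} (hn : (M.subgroupOf H).Normal)
    (hi : M.relIndex H = p) (hMH : M ≤ H) (hRH : R ≤ H) (hR : ¬ R ≤ M) :
    M ⊔ R = H ∧ Nat.card R = p * Nat.card ↥(R ⊓ M) := by
  have hp : p.Prime := Fact.out
  have h1 : M ⊔ R = H := by
    have h2 : M ⊔ R ≤ H := sup_le hMH hRH
    have h3 := Subgroup.relIndex_mul_relIndex M (M ⊔ R) H le_sup_left h2
    rw [hi] at h3
    rcases (Nat.dvd_prime hp).1 (Dvd.intro _ h3) with h4 | h4
    · exact absurd (le_sup_right.trans (Subgroup.relIndex_eq_one.1 h4)) hR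
    · rw [h4] at h3
      have h5 : (M ⊔ R).relIndex H = 1 := Nat.eq_of_mul_eq_mul_left hp.pos (by rw [h3, mul_one])
      exact le_antisymm h2 (Subgroup.relIndex_eq_one.1 h5)
  refine ⟨h1, ?_⟩
  have h6 : M.relIndex R = p := by
    have h7 : (M.subgroupOf H).relIndex (R.subgroupOf H) = p := by
      have h8 := Subgroup.relIndex_sup_right (R.subgroupOf H) (M.subgroupOf H)
      rw [← h8, sup_comm, ← Subgroup.subgroupOf_sup hMH hRH, h1, Subgroup.subgroupOf_self,
        Subgroup.relIndex_top_right]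
      exact hi
    rw [Subgroup.relIndex_subgroupOf hRH] at h7
    exact h7
  have h9 := Subgroup.card_mul_index (M.subgroupOf R)
  have h10 : (M.subgroupOf R).index = p := h6
  have h11 : Nat.card ↥(M.subgroupOf R) = Nat.card ↥(R ⊓ M) := by
    rw [inf_comm, ← Subgroup.subgroupOf_map_subtype]
    exact (Subgroup.card_map_of_injective R.subtype_injective).symm
  rw [h10, h11] at h9
  rw [← h9, mul_comm]

/-- one step -/
theorem nstep [Fact p.Prime] [CharP F p] (red : integralClosure ℤ ℂ →+* F) {M H : Subgroup Γ}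
    (hMH : M ≤ H) (hn : (M.subgroupOf H).Normal) (hi : M.relIndex H = p) {z : Γ → F}
    (hz : ∀ h ∈ H, ∀ x : Γ, z (h * x * h⁻¹) = z x) (hs : ∀ x : Γ, x ∉ M → z x = 0) (c : F)
    (Q : Subgroup Γ) :
    nH p red z c M Q = ∑ R : Subgroup Γ, if R ⊓ M = Q then nH p red z c H R else 0 := by
  have hp : p.Prime := Fact.out
  by_cases hQ : IsPGroup p Q ∧ Q ≤ M
  · have h1 := loc red hMH hn hi hz hs c hQ.1 hQ.2
    have hp0 : (p : ℚ) ≠ 0 := by exact_mod_cast hp.ne_zero
    have hQ0 : (Nat.card Q : ℚ) ≠ 0 := by exact_mod_cast Nat.card_pos.ne'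
    have h2 : ∀ R : Subgroup Γ, (if R ⊓ M = Q then nH p red z c H R else 0) =
        (if R = Q then (wH p red z c H Q : ℚ) / Nat.card Q else 0) +
        (if IsPGroup p R ∧ R ≤ H ∧ M ⊔ R = H ∧ R ⊓ M = Q then (wH p red z c H R : ℚ) else 0) /
          (p * Nat.card Q) := by
      intro R
      by_cases hRM : R ≤ M
      · have h3 : R ⊓ M = R := inf_eq_left.2 hRM
        have h4 : ¬ M ⊔ R = H := by
          rw [sup_eq_left.2 hRM]
          intro h5
          rw [h5, Subgroup.relIndex_self] at hi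
          exact hp.one_lt.ne hi
        rw [h3, if_neg (show ¬ (IsPGroup p R ∧ R ≤ H ∧ M ⊔ R = H ∧ R = Q) from
          fun h => h4 h.2.2.1), zero_div, add_zero]
        by_cases h5 : R = Q
        · rw [if_pos h5, if_pos h5, h5]
          unfold nH
          rw [if_pos ⟨hQ.1, hQ.2.trans hMH⟩]
        · rw [if_neg h5, if_neg h5]
      · have h3 : R ≠ Q := fun h => hRM (h ▸ hQ.2)
        rw [if_neg h3, zero_add]
        by_cases h5 : R ⊓ M = Q
        · rw [if_pos h5]
          unfold nH
          by_cases h6 : IsPGroup p R ∧ R ≤ H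
          · obtain ⟨h7, h8⟩ := card_step hn hi hMH h6.2 hRM
            rw [if_pos h6, if_pos ⟨h6.1, h6.2, h7, h5⟩, h8, h5, Nat.cast_mul]
          · rw [if_neg h6, if_neg (fun h => h6 ⟨h.1, h.2.1⟩), zero_div]
        · rw [if_neg h5, if_neg (fun h => h5 h.2.2.2), zero_div]
    rw [Finset.sum_congr rfl fun R _ => h2 R, Finset.sum_add_distrib,
      Finset.sum_ite_eq' Finset.univ Q, if_pos (Finset.mem_univ _), ← Finset.sum_div]
    have h3 := congrArg (fun t : ℕ => (t : ℚ)) h1
    simp only [Nat.cast_add, Nat.cast_mul, Nat.cast_sum, Nat.cast_ite, Nat.cast_zero] at h3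
    unfold nH
    rw [if_pos hQ]
    field_simp
    linarith
  · unfold nH
    rw [if_neg hQ]
    symm
    refine Finset.sum_eq_zero fun R _ => ?_
    by_cases h1 : R ⊓ M = Q
    · rw [if_pos h1, if_neg]
      intro h2
      apply hQ
      rw [← h1]
      exact ⟨h2.1.to_le inf_le_left, inf_le_right⟩
    · rw [if_neg h1]

/-- a proper subgroup over `G` is normal of index `p` in a larger one -/
theorem exists_next [Fact p.Prime] {G : Subgroup Γ} [G.Normal] (hG : IsPGroup p (Γ ⧸ G))
    {M : Subgroup Γ} (hGM : G ≤ M) (hM : M ≠ ⊤) :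
    ∃ H : Subgroup Γ, M ≤ H ∧ (M.subgroupOf H).Normal ∧ M.relIndex H = p := by
  have hp : p.Prime := Fact.out
  set π := QuotientGroup.mk' G with hπ
  have hπs : Function.Surjective π := QuotientGroup.mk'_surjective G
  have hker : π.ker = G := QuotientGroup.ker_mk' G
  have hM' : (M.map π).comap π = M := by
    rw [Subgroup.comap_map_eq, hker, sup_eq_left.2 hGM]
  obtain ⟨m, hm⟩ := IsPGroup.iff_card.1 hG
  obtain ⟨n, hn⟩ := IsPGroup.iff_card.1 (hG.to_subgroup (M.map π))
  have hlt : n < m := by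
    have h1 : Nat.card ↥(M.map π) ∣ Nat.card (Γ ⧸ G) := Subgroup.card_subgroup_dvd_card _
    rw [hn, hm] at h1
    have h2 := (Nat.pow_dvd_pow_iff_le_right hp.one_lt).1 h1
    rcases h2.lt_or_eq with h3 | h3
    · exact h3
    · exfalso
      apply hM
      have h4 : M.map π = ⊤ := by
        rw [← Subgroup.card_eq_iff_eq_top, hn, hm, h3]
      rw [← hM', h4, Subgroup.comap_top]
  obtain ⟨K, hK, hMK⟩ := Sylow.exists_subgroup_card_pow_succ (G := Γ ⧸ G) (p := p) (n := n)
    (by rw [hm]; exact pow_dvd_pow p hlt) hn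
  have hKi : (M.map π).relIndex K = p := by
    have h1 := Subgroup.card_mul_index ((M.map π).subgroupOf K)
    rw [Nat.card_congr (Subgroup.subgroupOfEquivOfLe hMK).toEquiv, hn, hK, pow_succ] at h1
    exact Nat.eq_of_mul_eq_mul_left (pow_pos hp.pos n) h1
  have hKn : ((M.map π).subgroupOf K).Normal := by
    apply Subgroup.normal_of_index_eq_minFac_card
    rw [hK, hp.pow_minFac (Nat.succ_ne_zero n)]
    exact hKi
  refine ⟨K.comap π, ?_, ?_, ?_⟩
  · rw [← hM']
    exact Subgroup.comap_mono hMK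
  · refine ⟨fun x hx g => ?_⟩
    rw [Subgroup.mem_subgroupOf] at hx ⊢
    have h1 : π (x : Γ) ∈ M.map π := ⟨_, hx, rfl⟩
    have h2 := hKn.conj_mem ⟨π x, x.2⟩ (Subgroup.mem_subgroupOf.2 h1) ⟨π g, g.2⟩
    rw [Subgroup.mem_subgroupOf] at h2
    rw [← hM', Subgroup.mem_comap]
    change π ((g : Γ) * (x : Γ) * (g : Γ)⁻¹) ∈ M.map π
    rw [map_mul, map_mul, map_inv]
    exact h2
  · have h1 := Subgroup.relIndex_comap (M.map π) π (K.comap π)
    rw [hM', Subgroup.map_comap_eq_self_of_surjective hπs] at h1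
    rw [h1, hKi]

/-- **The numbers `n_H(Q)`.** -/
theorem nmain [Fact p.Prime] [CharP F p] (red : integralClosure ℤ ℂ →+* F) {G : Subgroup Γ}
    [G.Normal] (hG : IsPGroup p (Γ ⧸ G)) {z : Γ → F} (hz : InZ G z) (c : F) :
    ∀ (n : ℕ) (H : Subgroup Γ), G ≤ H → Nat.card Γ - Nat.card H ≤ n → ∀ Q : Subgroup Γ,
      nH p red z c H Q = ∑ R : Subgroup Γ, if R ⊓ H = Q then nH p red z c ⊤ R else 0 := by
  intro n
  induction n with
  | zero =>
    intro H hGH hn Q
    have h1 : H = ⊤ := by
      rw [← Subgroup.card_eq_iff_eq_top]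
      have := Subgroup.card_le_card_group H
      omega
    subst h1
    simp only [inf_top_eq]
    rw [Finset.sum_ite_eq' Finset.univ Q, if_pos (Finset.mem_univ _)]
  | succ n ih =>
    intro H hGH hn Q
    by_cases h1 : H = ⊤
    · subst h1
      simp only [inf_top_eq]
      rw [Finset.sum_ite_eq' Finset.univ Q, if_pos (Finset.mem_univ _)]
    · obtain ⟨H', hHH', hnor, hi⟩ := exists_next hG hGH h1
      have hlt : Nat.card H < Nat.card H' := by
        have hp : p.Prime := Fact.out
        have h2 := Subgroup.card_mul_index (H.subgroupOf H')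
        rw [Nat.card_congr (Subgroup.subgroupOfEquivOfLe hHH').toEquiv] at h2
        have h3 : (H.subgroupOf H').index = p := hi
        rw [h3] at h2
        have h4 := hp.two_le
        have h5 : 0 < Nat.card H := Nat.card_pos
        nlinarith
      have hle := Subgroup.card_le_card_group H'
      have h2 := ih H' (hGH.trans hHH') (by omega)
      rw [nstep red hHH' hnor hi (fun h _ x => hz.conj h x)
        (fun x hx => hz.supp x fun h => hx (hGH h)) c Q]
      have h3 : ∀ R' : Subgroup Γ, (if R' ⊓ H = Q then nH p red z c H' R' else 0) =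
          ∑ R : Subgroup Γ, if R ⊓ H' = R' then (if R ⊓ H = Q then nH p red z c ⊤ R else 0)
            else 0 := by
        intro R'
        by_cases h4 : R' ⊓ H = Q
        · rw [if_pos h4, h2 R']
          refine Finset.sum_congr rfl fun R _ => ?_
          by_cases h5 : R ⊓ H' = R'
          · have h6 : R ⊓ H = Q := by
              rw [← h4, ← h5, inf_assoc, inf_eq_right.2 hHH']
            rw [if_pos h5, if_pos h5, if_pos h6]
          · rw [if_neg h5, if_neg h5]
        · rw [if_neg h4]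
          symm
          refine Finset.sum_eq_zero fun R _ => ?_
          by_cases h5 : R ⊓ H' = R'
          · have h6 : ¬ R ⊓ H = Q := by
              intro h7
              apply h4
              rw [← h5, inf_assoc, inf_eq_right.2 hHH', h7]
            rw [if_pos h5, if_neg h6]
          · rw [if_neg h5]
      rw [Finset.sum_congr rfl fun R' _ => h3 R', Finset.sum_comm]
      refine Finset.sum_congr rfl fun R _ => ?_
      rw [Finset.sum_ite_eq Finset.univ (R ⊓ H'), if_pos (Finset.mem_univ _)]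

end wts

end Pool.Agent.X282.KRB
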