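import Pool.Agent.X282.KRB.Avg

/-!
# The Burnside formula for the weights
-/

set_option autoImplicit false
set_option linter.unusedSectionVars false

open scoped Classical

noncomputable section

namespace Pool.Agent.X282.KRB

open Pool.Agent.Y63.NV
open Pool.Agent.Y487.NV (nw_gen card_gen fib wl local_eqL)

section wts

/-- the subgroups of a finite group -/
local instance fsubB {Γ : Type} [Group Γ] [Finite Γ] : Fintype (Subgroup Γ) := Fintype.ofFinite _

variable {p : ℕ} {F : Type} [Field F] {Γ : Type} [Group Γ] [Finite Γ]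

theorem card_inf_rel (G R : Subgroup Γ) :
    Nat.card R = Nat.card ↥(R ⊓ G) * G.relIndex R := by
  have h := Subgroup.card_mul_index (G.subgroupOf R)
  have h1 : Nat.card ↥(G.subgroupOf R) = Nat.card ↥(R ⊓ G) := by
    rw [inf_comm, ← Subgroup.subgroupOf_map_subtype]
    exact (Subgroup.card_map_of_injective R.subtype_injective).symm
  rw [h1] at h
  exact h.symm

theorem card_sup_rel (G R : Subgroup Γ) [G.Normal] :
    Nat.card ↥(G ⊔ R) = Nat.card G * G.relIndex R := by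
  have h := card_inf_rel G (G ⊔ R)
  rw [inf_comm, inf_eq_left.2 (le_sup_left : G ≤ G ⊔ R), Subgroup.relIndex_sup_left] at h
  exact h

/-- `G (R ∩ K) = K` for `G ≤ K ≤ G R` -/
theorem sup_inf_eq (G R K : Subgroup Γ) [G.Normal] (hGK : G ≤ K) :
    G ⊔ R ⊓ K = K ↔ K ≤ G ⊔ R := by
  constructor
  · intro h
    rw [← h]
    exact sup_le_sup_left inf_le_left G
  · intro h
    apply le_antisymm (sup_le hGK inf_le_right)
    intro x hx
    have h1 : x ∈ ((G ⊔ R : Subgroup Γ) : Set Γ) := h hx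
    rw [Subgroup.normal_mul, Set.mem_mul] at h1
    obtain ⟨g, hg, r, hr, rfl⟩ := h1
    have h2 : r ∈ K := by
      have h3 := K.mul_mem (K.inv_mem (hGK hg)) hx
      rwa [inv_mul_cancel_left] at h3
    exact Subgroup.mul_mem_sup hg ⟨hr, h2⟩

/-- the weighted number of Navarro's weights of `K` over `G` -/
def navW (p : ℕ) (red : integralClosure ℤ ℂ →+* F) (z : Γ → F) (c : F) (G K : Subgroup Γ) : ℕ :=
  ∑ Q : Subgroup Γ, if IsPGroup p Q ∧ Q ≤ K ∧ G ⊔ Q = K then wH p red z c K Q else 0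

theorem navW_div [Fact p.Prime] [CharP F p] (red : integralClosure ℤ ℂ →+* F) {G : Subgroup Γ}
    [G.Normal] (hG : IsPGroup p (Γ ⧸ G)) {z : Γ → F} (hz : InZ G z) (c : F) {K : Subgroup Γ}
    (hGK : G ≤ K) :
    (navW p red z c G K : ℚ) / Nat.card K = ∑ R : Subgroup Γ,
      if K ≤ G ⊔ R then ((Nat.card ↥(R ⊓ G) : ℚ) / Nat.card G) * nH p red z c ⊤ R else 0 := by
  have hK0 : (Nat.card K : ℚ) ≠ 0 := by exact_mod_cast Nat.card_pos.ne'
  have hG0 : (Nat.card G : ℚ) ≠ 0 := by exact_mod_cast Nat.card_pos.ne'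
  have h1 : ∀ Q : Subgroup Γ, (((if IsPGroup p Q ∧ Q ≤ K ∧ G ⊔ Q = K then wH p red z c K Q else 0 :
      ℕ) : ℚ)) / Nat.card K = ∑ R : Subgroup Γ, if R ⊓ K = Q then
        (if G ⊔ R ⊓ K = K then ((Nat.card ↥(R ⊓ K) : ℚ) / Nat.card K) * nH p red z c ⊤ R else 0)
        else 0 := by
    intro Q
    have hQ0 : (Nat.card Q : ℚ) ≠ 0 := by exact_mod_cast Nat.card_pos.ne'
    have h2 : (((if IsPGroup p Q ∧ Q ≤ K ∧ G ⊔ Q = K then wH p red z c K Q else 0 : ℕ) : ℚ)) /
        Nat.card K = if G ⊔ Q = K then ((Nat.card Q : ℚ) / Nat.card K) * nH p red z c K Q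
          else 0 := by
      unfold nH
      by_cases h3 : G ⊔ Q = K
      · rw [if_pos h3]
        by_cases h4 : IsPGroup p Q ∧ Q ≤ K
        · rw [if_pos ⟨h4.1, h4.2, h3⟩, if_pos h4]
          field_simp
        · rw [if_neg (fun h => h4 ⟨h.1, h.2.1⟩), if_neg h4, mul_zero, Nat.cast_zero, zero_div]
      · rw [if_neg h3, if_neg (fun h => h3 h.2.2), Nat.cast_zero, zero_div]
    rw [h2]
    by_cases h3 : G ⊔ Q = K
    · rw [if_pos h3, nmain red hG hz c _ K hGK le_rfl Q, Finset.mul_sum]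
      refine Finset.sum_congr rfl fun R _ => ?_
      by_cases h4 : R ⊓ K = Q
      · rw [if_pos h4, if_pos h4, h4, if_pos h3]
      · rw [if_neg h4, if_neg h4, mul_zero]
    · rw [if_neg h3]
      symm
      refine Finset.sum_eq_zero fun R _ => ?_
      by_cases h4 : R ⊓ K = Q
      · rw [if_pos h4, h4, if_neg h3]
      · rw [if_neg h4]
  unfold navW
  rw [Nat.cast_sum, Finset.sum_div, Finset.sum_congr rfl fun Q _ => h1 Q, Finset.sum_comm]
  refine Finset.sum_congr rfl fun R _ => ?_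
  rw [Finset.sum_ite_eq Finset.univ (R ⊓ K), if_pos (Finset.mem_univ _)]
  by_cases h4 : K ≤ G ⊔ R
  · have h5 := (sup_inf_eq G R K hGK).2 h4
    rw [if_pos h4, if_pos h5]
    congr 1
    have h6 := card_sup_rel G (R ⊓ K)
    have h7 := card_inf_rel G (R ⊓ K)
    rw [h5] at h6
    have h8 : R ⊓ K ⊓ G = R ⊓ G := by rw [inf_assoc, inf_eq_right.2 hGK]
    rw [h8] at h7
    rw [div_eq_div_iff hK0 hG0]
    have h9 : (Nat.card ↥(R ⊓ K) * Nat.card G : ℕ) = Nat.card ↥(R ⊓ G) * Nat.card K := by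
      rw [h6, h7]
      ring
    exact_mod_cast h9
  · rw [if_neg h4, if_neg (fun h => h4 ((sup_inf_eq G R K hGK).1 h))]

/-- **The Burnside formula for the weights**, for a central element `z`. -/
theorem wavg [Fact p.Prime] [CharP F p] (red : integralClosure ℤ ℂ →+* F) {G : Subgroup Γ}
    [G.Normal] (hG : IsPGroup p (Γ ⧸ G)) {z : Γ → F} (hz : InZ G z) (c : F) [Fintype Γ] :
    ∑ γ : Γ, (navW p red z c G (G ⊔ Subgroup.zpowers γ) : ℚ) /
      Nat.card ↥(G ⊔ Subgroup.zpowers γ) =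
    ((∑ Q : Subgroup Γ, if IsPGroup p Q then wH p red z c ⊤ Q else 0 : ℕ) : ℚ) := by
  have hG0 : (Nat.card G : ℚ) ≠ 0 := by exact_mod_cast Nat.card_pos.ne'
  rw [Finset.sum_congr rfl fun γ _ => navW_div red hG hz c (K := G ⊔ Subgroup.zpowers γ)
    le_sup_left, Finset.sum_comm, Nat.cast_sum]
  refine Finset.sum_congr rfl fun R _ => ?_
  have hR0 : (Nat.card R : ℚ) ≠ 0 := by exact_mod_cast Nat.card_pos.ne'
  have h1 : ∀ γ : Γ, G ⊔ Subgroup.zpowers γ ≤ G ⊔ R ↔ γ ∈ G ⊔ R := by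
    intro γ
    constructor
    · intro h
      exact h (le_sup_right (a := G) (Subgroup.mem_zpowers γ))
    · intro h
      refine sup_le le_sup_left ?_
      rw [Subgroup.zpowers_le]
      exact h
  have h2 : ∀ γ : Γ, (if G ⊔ Subgroup.zpowers γ ≤ G ⊔ R then
      ((Nat.card ↥(R ⊓ G) : ℚ) / Nat.card G) * nH p red z c ⊤ R else 0) =
      if γ ∈ G ⊔ R then ((Nat.card ↥(R ⊓ G) : ℚ) / Nat.card G) * nH p red z c ⊤ R else 0 := by
    intro γ
    rw [propext (h1 γ)]
  rw [Finset.sum_congr rfl fun γ _ => h2 γ, ← Finset.sum_filter, Finset.sum_const, nsmul_eq_mul]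
  have h3 : (Finset.univ.filter fun γ : Γ => γ ∈ G ⊔ R).card = Nat.card ↥(G ⊔ R) := by
    rw [← Fintype.card_subtype, ← Nat.card_eq_fintype_card]
  rw [h3]
  have h4 : (Nat.card ↥(G ⊔ R) : ℚ) * ((Nat.card ↥(R ⊓ G) : ℚ) / Nat.card G) = Nat.card R := by
    rw [card_sup_rel G R, card_inf_rel G R]
    push_cast
    field_simp
  rw [← mul_assoc, h4]
  unfold nH
  by_cases h5 : IsPGroup p R
  · rw [if_pos ⟨h5, le_top⟩, if_pos h5]
    field_simp
  · rw [if_neg (fun h => h5 h.1), if_neg h5, mul_zero, Nat.cast_zero]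

end wts

end Pool.Agent.X282.KRB
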