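import Pool.Agent.X282.KRB.Avg3

/-!
# Blocks of the groups between `G` and `Γ`, `Γ/G` a `p`-group
-/

set_option autoImplicit false
set_option linter.unusedSectionVars false

open scoped Classical

noncomputable section

namespace Pool.Agent.X282.KRB

open Pool.Agent.Y63.NV
open Pool.Agent.Y405.NV (ofC toRH nrm ofS coeff_sg coeff_ofS conj_symm_eq sg_sg sg_ofS sg_nrm
  toRH_nrm toRH_ofC toRH_ofS toRH_apply class_iff)

section dlt

variable (F J : Type) [Field F] [Group J]

/-- the unit element of the group algebra -/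
def dlt : J → F := Pi.single 1 1

theorem dlt_apply (x : J) : dlt F J x = if x = 1 then 1 else 0 := Pi.single_apply _ _ _

theorem dlt_class : IsClassFun (dlt F J) := cf_single

variable {F J}

theorem dlt_one {B : (J → F) → F} (hB : IsBlock B) : B (dlt F J) = 1 := hB.one

end dlt

section rinj

variable {F : Type} [Field F] {Γ : Type} [Group Γ] [Finite Γ] {G K : Subgroup Γ} [G.Normal]

/-- a block (or function) for `G` as one for the subgroup `G` of `K` -/
def dn (hGK : G ≤ K) (B : (G → F) → F) : ((G.subgroupOf K) → F) → F :=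
  fun f => B (fun x => f ⟨⟨x.1, hGK x.2⟩, Subgroup.mem_subgroupOf.2 x.2⟩)

/-- extension by zero -/
def ex (K : Subgroup Γ) (y : MonoidAlgebra F G) : K → F :=
  fun x => if hx : (x : Γ) ∈ G then y.coeff ⟨x, hx⟩ else 0

theorem ex_of (y : MonoidAlgebra F G) {x : K} (hx : (x : Γ) ∈ G) : ex K y x = y.coeff ⟨x, hx⟩ :=
  dif_pos hx

theorem ex_not (y : MonoidAlgebra F G) {x : K} (hx : (x : Γ) ∉ G) : ex K y x = 0 := dif_neg hx

theorem ex_class {y : Subring.center (MonoidAlgebra F G)}
    (hy : ∀ k ∈ K, Pool.Agent.Y405.NV.sg G k y = y) : IsClassFun (ex K y.1) := by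
  intro k x
  by_cases hx : (x : Γ) ∈ G
  · have hx' : ((k * x * k⁻¹ : K) : Γ) ∈ G := (inferInstance : G.Normal).conj_mem x hx k
    rw [ex_of y.1 hx, ex_of y.1 hx']
    have h1 : (Pool.Agent.Y405.NV.sg G (k : Γ) y).1.coeff ⟨((k * x * k⁻¹ : K) : Γ), hx'⟩ =
      y.1.coeff ⟨((k * x * k⁻¹ : K) : Γ), hx'⟩ := by rw [hy k k.2]
    rw [coeff_sg, conj_symm_eq G (x := ⟨x, hx⟩) (y := ⟨((k * x * k⁻¹ : K) : Γ), hx'⟩) rfl] at h1
    exact h1.symm
  · have hx' : ((k * x * k⁻¹ : K) : Γ) ∉ G := by
      intro h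
      apply hx
      have h2 := (inferInstance : G.Normal).conj_mem _ h (k : Γ)⁻¹
      have h3 : (k : Γ)⁻¹ * ((k * x * k⁻¹ : K) : Γ) * (k : Γ)⁻¹⁻¹ = x := by
        push_cast
        group
      rwa [h3] at h2
    rw [ex_not y.1 hx, ex_not y.1 hx']

theorem ex_mul (hGK : G ≤ K) (y w : MonoidAlgebra F G) :
    ex K (y * w) = conv (ex K y) (ex K w) := by
  funext x
  have hinj : Function.Injective (fun g : G => (⟨g, hGK g.2⟩ : K)) := fun a b h =>
    Subtype.ext (congrArg (fun t : K => (t : Γ)) h)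
  unfold conv
  have h1 : ∀ a : K, ex K y a * ex K w (a⁻¹ * x) =
      ∑ᶠ (_ : a ∈ Set.range (fun g : G => (⟨g, hGK g.2⟩ : K))), ex K y a * ex K w (a⁻¹ * x) := by
    intro a
    rw [finsum_eq_if]
    by_cases ha : (a : Γ) ∈ G
    · rw [if_pos ⟨⟨a, ha⟩, rfl⟩]
    · rw [ex_not y ha, zero_mul, ite_self]
  rw [finsum_congr h1, finsum_mem_range hinj]
  by_cases hx : (x : Γ) ∈ G
  · rw [ex_of _ hx]
    have h2 := congrFun (Pool.Agent.Y405.NV.coeff_mul_eq y w) ⟨x, hx⟩
    rw [h2]
    unfold conv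
    refine finsum_congr fun g => ?_
    have hg : ((⟨g, hGK g.2⟩ : K) : Γ) ∈ G := g.2
    have hgx : (((⟨g, hGK g.2⟩ : K)⁻¹ * x : K) : Γ) ∈ G := G.mul_mem (G.inv_mem g.2) hx
    rw [ex_of y hg, ex_of w hgx]
    rfl
  · rw [ex_not _ hx]
    symm
    refine (finsum_congr fun g => ?_).trans finsum_zero
    have hgx : (((⟨g, hGK g.2⟩ : K)⁻¹ * x : K) : Γ) ∉ G := by
      intro h
      apply hx
      have h3 := G.mul_mem g.2 h
      have h4 : (g : Γ) * (((⟨g, hGK g.2⟩ : K)⁻¹ * x : K) : Γ) = x := by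
        push_cast
        group
      rwa [h4] at h3
    rw [ex_not w hgx, mul_zero]

/-- A block of `K ⊇ G` whose central character agrees with the `Γ`-invariant block `B` of `G` at
the elements of the centre of `F[G]` invariant under `Γ` agrees with it at those invariant
under `K`. -/
theorem rinjK (hGK : G ≤ K) {B : (G → F) → F} (hB : IsBlock B) (hI : IsInvBlock G B)
    {b : (K → F) → F} (hb : IsBlock b)
    (h : ∀ z : Γ → F, InZ G z → b (fun x : K => z x) = B (fun x => z x)) (z' : K → F)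
    (hz' : InZ (G.subgroupOf K) z') : b z' = dn hGK B (fun x => z' x) := by
  have : Fintype Γ := Fintype.ofFinite Γ
  have hfc : IsClassFun (fun x : G => z' ⟨x, hGK x.2⟩) := fun g x =>
    hz'.conj ⟨g, hGK g.2⟩ ⟨x, hGK x.2⟩
  set f : Subring.center (MonoidAlgebra F G) := ofC (fun x : G => z' ⟨x, hGK x.2⟩) hfc with hf
  have hfk : ∀ k ∈ K, Pool.Agent.Y405.NV.sg G k f = f := by
    intro k hk
    apply Subtype.ext
    ext x
    have h1 : (MulAut.conjNormal (H := G) k).symm x =
        ⟨k⁻¹ * x * k, by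
          have := (inferInstance : G.Normal).conj_mem x x.2 k⁻¹
          rwa [inv_inv] at this⟩ := Subtype.ext (MulAut.conjNormal_symm_apply k x)
    rw [coeff_sg, h1]
    change z' ⟨k⁻¹ * x * k, _⟩ = z' ⟨x, hGK x.2⟩
    have h2 := hz'.conj ⟨k⁻¹, K.inv_mem hk⟩ ⟨x, hGK x.2⟩
    rw [← h2]
    congr 1
    apply Subtype.ext
    push_cast
    rw [inv_inv]
  have hexf : ex K f.1 = z' := by
    funext x
    by_cases hx : (x : Γ) ∈ G
    · rw [ex_of _ hx]
      rfl
    · rw [ex_not _ hx]
      exact (hz'.supp x (fun h1 => hx (Subgroup.mem_subgroupOf.1 h1))).symm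
  set t : F := b z' with ht
  have h0 : ∀ k ∈ K, Pool.Agent.Y405.NV.sg G k (f - ofS t) = f - ofS t := by
    intro k hk
    rw [map_sub, hfk k hk, sg_ofS]
  set S1 := Finset.univ.filter (fun γ : Γ => γ ∈ K) with hS1
  set u := ∏ γ ∈ Finset.univ.filter (fun γ : Γ => ¬ γ ∈ K),
      (Pool.Agent.Y405.NV.sg G γ f - ofS t) with hu
  have hw : nrm G f t = (∏ γ ∈ S1, (Pool.Agent.Y405.NV.sg G γ f - ofS t)) * u := by
    rw [hS1, hu, Finset.prod_filter_mul_prod_filter_not]
    unfold nrm
    refine Finset.prod_congr ?_ fun _ _ => rfl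
    ext
    simp
  have hS1c : ∃ n, S1.card = n + 1 := by
    refine Nat.exists_eq_succ_of_ne_zero ?_
    rw [Finset.card_ne_zero]
    exact ⟨1, by rw [hS1, Finset.mem_filter]; exact ⟨Finset.mem_univ _, K.one_mem⟩⟩
  obtain ⟨n, hn⟩ := hS1c
  have hprod : (∏ γ ∈ S1, (Pool.Agent.Y405.NV.sg G γ f - ofS t)) = (f - ofS t) ^ (n + 1) := by
    rw [← hn, ← Finset.prod_const]
    refine Finset.prod_congr rfl fun γ hγ => ?_
    rw [hfk γ (Finset.mem_filter.1 hγ).2]
  set w₁ := (f - ofS t) ^ n * u with hw₁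
  have hw2 : nrm G f t = (f - ofS t) * w₁ := by
    rw [hw, hprod, hw₁, pow_succ']
    ring
  have huk : ∀ k ∈ K, Pool.Agent.Y405.NV.sg G k u = u := by
    intro k hk
    rw [hu, map_prod]
    refine Finset.prod_equiv (Equiv.mulLeft k) ?_ ?_
    · intro γ
      rw [Finset.mem_filter, Finset.mem_filter]
      refine and_congr ⟨fun _ => Finset.mem_univ _, fun _ => Finset.mem_univ _⟩ (not_congr ?_)
      rw [Equiv.coe_mulLeft]
      exact ⟨fun h1 => K.mul_mem hk h1, fun h1 => (Subgroup.mul_mem_cancel_left K hk).1 h1⟩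
    · intro γ _
      rw [map_sub, sg_sg, sg_ofS, Equiv.coe_mulLeft]
  have hwk : ∀ k ∈ K, Pool.Agent.Y405.NV.sg G k w₁ = w₁ := by
    intro k hk
    rw [hw₁, map_mul, map_pow, h0 k hk, huk k hk]
  -- the value at the norm
  have e1 : b (ex K (nrm G f t).1) = 0 := by
    have e2 : (nrm G f t).1 = (f - ofS t).1 * w₁.1 := congrArg Subtype.val hw2
    rw [e2, ex_mul hGK, hb.mul _ _ (ex_class h0) (ex_class hwk)]
    have e3 : b (ex K (f - ofS t).1) = 0 := by
      have e4 : z' = ex K (f - ofS t).1 + t • dlt F K := by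
        rw [← hexf]
        funext x
        rw [Pi.add_apply, Pi.smul_apply, dlt_apply, smul_eq_mul]
        by_cases hx : (x : Γ) ∈ G
        · rw [ex_of _ hx, ex_of _ hx]
          change f.1.coeff ⟨x, hx⟩ = (f.1.coeff ⟨x, hx⟩ - (ofS t : Subring.center
            (MonoidAlgebra F G)).1.coeff ⟨x, hx⟩) + _
          rw [coeff_ofS]
          have e5 : (⟨(x : Γ), hx⟩ : G) = 1 ↔ x = 1 := by
            constructor
            · intro h1
              exact Subtype.ext (congrArg (fun t : G => (t : Γ)) h1)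
            · intro h1
              subst h1
              rfl
          by_cases h6 : x = 1
          · rw [if_pos (e5.2 h6), if_pos h6]
            ring
          · rw [if_neg (fun h7 => h6 (e5.1 h7)), if_neg h6]
            ring
        · rw [ex_not _ hx, ex_not _ hx, if_neg]
          · ring
          · intro h1
            subst h1
            exact hx G.one_mem
      have hc1 : IsClassFun (dlt F K) := dlt_class F K
      have e5 := hb.add (ex K (f - ofS t).1) (t • dlt F K) (ex_class h0)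
        ((CF F K).smul_mem t hc1)
      rw [← e4, hb.smul t _ hc1, dlt_one hb, mul_one] at e5
      have e6 : b z' = t := rfl
      rw [e6] at e5
      exact right_eq_add.1 e5
    rw [e3, zero_mul]
  let zz : Γ → F := fun x => if hx : x ∈ G then (nrm G f t).1.coeff ⟨x, hx⟩ else 0
  have hzz : ∀ x : G, zz x = (nrm G f t).1.coeff x := fun x => dif_pos x.2
  have hZ : InZ G zz := by
    refine ⟨fun g x => ?_, fun x hx => dif_neg hx⟩
    by_cases hx : x ∈ G
    · have hx' : g * x * g⁻¹ ∈ G := (inferInstance : G.Normal).conj_mem x hx g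
      have h1 := hzz ⟨x, hx⟩
      have h2 := hzz ⟨g * x * g⁻¹, hx'⟩
      simp only at h1 h2
      rw [h1, h2]
      have h3 : (Pool.Agent.Y405.NV.sg G g (nrm G f t)).1.coeff ⟨g * x * g⁻¹, hx'⟩ =
          (nrm G f t).1.coeff ⟨g * x * g⁻¹, hx'⟩ := by
        rw [sg_nrm]
      rw [← h3, coeff_sg, conj_symm_eq G (x := ⟨x, hx⟩) (y := ⟨g * x * g⁻¹, hx'⟩) rfl]
    · have hx' : g * x * g⁻¹ ∉ G := by
        intro h
        apply hx
        have := (inferInstance : G.Normal).conj_mem _ h g⁻¹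
        simpa [mul_assoc] using this
      show zz (g * x * g⁻¹) = zz x
      rw [show zz (g * x * g⁻¹) = 0 from dif_neg hx', show zz x = 0 from dif_neg hx]
  have h1 := h zz hZ
  have h2 : (fun x : G => zz x) = fun x : G => (nrm G f t).1.coeff x := funext hzz
  have h3 : (fun x : K => zz x) = ex K (nrm G f t).1 := rfl
  rw [h2, h3, e1] at h1
  have h4 : toRH hB (nrm G f t) = 0 := h1.symm
  rw [toRH_nrm G hB hI, toRH_ofC] at h4
  have h5 := pow_eq_zero_iff Nat.card_pos.ne' |>.mp h4
  exact (sub_eq_zero.mp h5).symm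

end rinj

section frob

open Pool.Agent.Y63.NV.B286 (cosf cp cp_class cp_supp block_cp)

variable {F : Type} [Field F] {Γ : Type} [Group Γ] [Finite Γ]

/-- one step for the blocks -/
theorem frob_step (p : ℕ) [Fact p.Prime] [CharP F p] {H H' : Subgroup Γ} [H.Normal] [H'.Normal]
    (hcen : ∀ x ∈ H', ∀ g : Γ, g * x * g⁻¹ * x⁻¹ ∈ H) (hpow : ∀ x ∈ H', x ^ p ∈ H)
    {B B' : (Γ → F) → F} (hB : IsBlock B) (hB' : IsBlock B')
    (h : ∀ z : Γ → F, InZ H z → B z = B' z) (f : Γ → F) (hf : InZ H' f) : B f = B' f := by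
  have hz0 : ∀ {C : (Γ → F) → F}, IsBlock C → C 0 = 0 := by
    intro C hC
    have := hC.smul 0 (0 : Γ → F) (fun _ _ => rfl)
    rwa [zero_smul, zero_mul] at this
  have hcl : ∀ q : Γ ⧸ H, IsClassFun (cosf H f q) := by
    intro q g x
    unfold cosf
    rw [hf.conj]
    by_cases hx : x ∈ H'
    · have h1 : ((g * x * g⁻¹ : Γ) : Γ ⧸ H) = x := by
        have h2 := (QuotientGroup.eq_one_iff _).2 (hcen x hx g)
        rw [QuotientGroup.mk_mul, QuotientGroup.mk_inv, mul_inv_eq_one] at h2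
        exact h2
      rw [h1]
    · rw [hf.supp x hx, ite_self, ite_self]
  have h1 : ∀ q, B (cosf H f q) = B' (cosf H f q) := by
    intro q
    by_cases hq : ∃ x₀ ∈ H', ((x₀ : Γ) : Γ ⧸ H) = q
    · obtain ⟨x₀, hx₀, hxq⟩ := hq
      have hc := hcl q
      have hz : InZ H (cp (cosf H f q) p) := by
        refine ⟨fun g x => cp_class hc p g x, fun x hx => cp_supp (G := H) (q := q) ?_ p x ?_⟩
        · intro y hy
          exact if_neg hy
        · intro h2
          apply hx
          have h3 : q ^ p = 1 := by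
            rw [← hxq, ← QuotientGroup.mk_pow]
            exact (QuotientGroup.eq_one_iff _).2 (hpow x₀ hx₀)
          rw [h3] at h2
          exact (QuotientGroup.eq_one_iff x).mp h2
      have h3 := h _ hz
      rw [block_cp hB hc, block_cp hB' hc] at h3
      have h4 := sub_pow_char (p := p) (B (cosf H f q)) (B' (cosf H f q))
      rw [h3, sub_self] at h4
      exact sub_eq_zero.mp (pow_eq_zero_iff (Fact.out : p.Prime).ne_zero |>.mp h4)
    · have h2 : cosf H f q = 0 := by
        funext x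
        unfold cosf
        by_cases hx : ((x : Γ) : Γ ⧸ H) = q
        · rw [if_pos hx]
          by_contra h3
          apply hq
          refine ⟨x, ?_, hx⟩
          by_contra h4
          exact h3 (hf.supp x h4)
        · rw [if_neg hx]
          rfl
      rw [h2, hz0 hB, hz0 hB']
  have : Fintype (Γ ⧸ H) := Fintype.ofFinite _
  have h2 : ∀ s : Finset (Γ ⧸ H), IsClassFun (∑ q ∈ s, cosf H f q) ∧
      B (∑ q ∈ s, cosf H f q) = B' (∑ q ∈ s, cosf H f q) := by
    intro s
    induction s using Finset.induction_on with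
    | empty =>
      rw [Finset.sum_empty, hz0 hB, hz0 hB']
      exact ⟨fun _ _ => rfl, rfl⟩
    | insert q s hq ih =>
      rw [Finset.sum_insert hq]
      have hc := hcl q
      refine ⟨fun g x => ?_, ?_⟩
      · rw [Pi.add_apply, Pi.add_apply, hc, ih.1]
      · rw [hB.add _ _ hc ih.1, hB'.add _ _ hc ih.1, h1, ih.2]
  have h3 : f = ∑ q : Γ ⧸ H, cosf H f q := by
    funext x
    rw [Finset.sum_apply]
    unfold cosf
    rw [Finset.sum_ite_eq Finset.univ (x : Γ ⧸ H), if_pos (Finset.mem_univ _)]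
  rw [h3]
  exact (h2 Finset.univ).2

/-- a central section of exponent `p` -/
theorem exists_cen {p : ℕ} [Fact p.Prime] {H : Subgroup Γ} [H.Normal] (hH : IsPGroup p (Γ ⧸ H))
    (hne : H ≠ ⊤) : ∃ H' : Subgroup Γ, H'.Normal ∧ H < H' ∧
      (∀ x ∈ H', ∀ g : Γ, g * x * g⁻¹ * x⁻¹ ∈ H) ∧ ∀ x ∈ H', x ^ p ∈ H := by
  have hnt : Nontrivial (Γ ⧸ H) := by
    rw [← not_subsingleton_iff_nontrivial]
    intro hs
    apply hne
    rw [eq_top_iff]
    intro x _
    exact (QuotientGroup.eq_one_iff x).1 (Subsingleton.elim _ _)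
  have hZ : Nontrivial (Subgroup.center (Γ ⧸ H)) := hH.center_nontrivial
  have hZp : IsPGroup p (Subgroup.center (Γ ⧸ H)) := hH.to_subgroup _
  obtain ⟨n, hn0, hn⟩ := (IsPGroup.nontrivial_iff_card hZp).1 hZ
  obtain ⟨c, hc⟩ := exists_prime_orderOf_dvd_card' p
    (show p ∣ Nat.card (Subgroup.center (Γ ⧸ H)) by rw [hn]; exact dvd_pow_self p hn0.ne')
  set c' : Γ ⧸ H := (c : Γ ⧸ H) with hc'
  have hc1 : c' ≠ 1 := by
    intro h
    have h1 : c = 1 := Subtype.ext h
    rw [h1, orderOf_one] at hc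
    exact (Fact.out : p.Prime).one_lt.ne hc
  have hcp : c' ^ p = 1 := by
    have h1 := pow_orderOf_eq_one c
    rw [hc] at h1
    exact congrArg Subtype.val h1
  set A := Subgroup.zpowers c' with hA
  have hAc : A ≤ Subgroup.center (Γ ⧸ H) := by
    rw [hA, Subgroup.zpowers_le]
    exact c.2
  have hmem : ∀ x : Γ, x ∈ A.comap (QuotientGroup.mk' H) ↔ (x : Γ ⧸ H) ∈ A := fun x => Iff.rfl
  refine ⟨A.comap (QuotientGroup.mk' H), ?_, ?_, ?_, ?_⟩
  · refine ⟨fun x hx g => ?_⟩
    rw [hmem] at hx ⊢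
    have h1 := Subgroup.mem_center_iff.1 (hAc hx) (g : Γ ⧸ H)
    rw [QuotientGroup.mk_mul, QuotientGroup.mk_mul, h1, QuotientGroup.mk_inv, mul_inv_cancel_right]
    exact hx
  · rw [lt_iff_le_and_ne]
    constructor
    · intro x hx
      rw [hmem, (QuotientGroup.eq_one_iff x).2 hx]
      exact A.one_mem
    · intro h
      obtain ⟨y, hy⟩ := QuotientGroup.mk_surjective c'
      have h1 : y ∈ A.comap (QuotientGroup.mk' H) := by
        rw [hmem, hy]
        exact Subgroup.mem_zpowers c'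
      rw [← h] at h1
      exact hc1 (by rw [← hy]; exact (QuotientGroup.eq_one_iff y).2 h1)
  · intro x hx g
    rw [hmem] at hx
    have h1 := Subgroup.mem_center_iff.1 (hAc hx) (g : Γ ⧸ H)
    rw [← QuotientGroup.eq_one_iff, QuotientGroup.mk_mul, QuotientGroup.mk_mul,
      QuotientGroup.mk_mul, h1, QuotientGroup.mk_inv, QuotientGroup.mk_inv, mul_inv_cancel_right,
      mul_inv_cancel]
  · intro x hx
    rw [hmem] at hx
    obtain ⟨k, hk⟩ := hx
    rw [← QuotientGroup.eq_one_iff, QuotientGroup.mk_pow, ← hk]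
    change (c' ^ k) ^ p = 1
    rw [← zpow_natCast, ← zpow_mul, mul_comm, zpow_mul, zpow_natCast, hcp, one_zpow]

/-- Blocks of `Γ` are determined by the values at the invariant elements of the centre of `F[G]`,
for `Γ/G` a `p`-group. -/
theorem frobg (p : ℕ) [Fact p.Prime] [CharP F p] {B B' : (Γ → F) → F} (hB : IsBlock B)
    (hB' : IsBlock B') : ∀ (n : ℕ) (G : Subgroup Γ) [G.Normal], IsPGroup p (Γ ⧸ G) →
      Nat.card Γ - Nat.card G ≤ n → (∀ z : Γ → F, InZ G z → B z = B' z) →
      ∀ f : Γ → F, IsClassFun f → B f = B' f := by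
  intro n
  induction n with
  | zero =>
    intro G _ hG hn h f hf
    have h1 : G = ⊤ := by
      rw [← Subgroup.card_eq_iff_eq_top]
      have := Subgroup.card_le_card_group G
      omega
    subst h1
    exact h f ⟨hf, fun x hx => absurd trivial hx⟩
  | succ n ih =>
    intro G _ hG hn h f hf
    by_cases h1 : G = ⊤
    · subst h1
      exact h f ⟨hf, fun x hx => absurd trivial hx⟩
    · obtain ⟨H', hn', hlt, hcen, hpow⟩ := exists_cen hG h1
      have hp' : IsPGroup p (Γ ⧸ H') := by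
        intro x
        obtain ⟨g, rfl⟩ := QuotientGroup.mk_surjective x
        obtain ⟨k, hk⟩ := hG (g : Γ ⧸ G)
        rw [← QuotientGroup.mk_pow, QuotientGroup.eq_one_iff] at hk
        refine ⟨k, ?_⟩
        rw [← QuotientGroup.mk_pow, QuotientGroup.eq_one_iff]
        exact hlt.le hk
      have hcard : Nat.card G < Nat.card H' := by
        have h2 : Nat.card G ≤ Nat.card H' := Subgroup.card_le_of_le hlt.le
        refine lt_of_le_of_ne h2 fun h3 => hlt.ne ?_
        exact Subgroup.eq_of_le_of_card_ge hlt.le h3.ge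
      have hle := Subgroup.card_le_card_group H'
      exact ih H' hp' (by omega) (fun z hz => frob_step p hcen hpow hB hB' h z hz) f hf

end frob

end Pool.Agent.X282.KRB
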