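import Pool.Agent.X282.KRB.Avg4

/-!
# The Burnside formulas for a block
-/

set_option autoImplicit false
set_option linter.unusedSectionVars false

open scoped Classical

noncomputable section

namespace Pool.Agent.X282.KRB

open Pool.Agent.Y63.NV
open Pool.Agent.Y63.AWC (IsIrreducibleCharacter pSubgroupSetoid)
open Pool.Agent.Y286.NV (ZG blkF exists_sep res_classFun)
open Pool.Agent.Y487.NV (wl)

section fun_

variable {F : Type} [Field F] {Γ : Type} [Group Γ]

theorem zcl {G : Subgroup Γ} {A : Type} [Group A] (j : A →* Γ) (z : ZG F G) :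
    IsClassFun (fun x => z.1 (j x)) := by
  intro g x
  change z.1 (j (g * x * g⁻¹)) = z.1 (j x)
  rw [map_mul, map_mul, map_inv]
  exact z.2.conj _ _

/-- the functional of a block of a group mapped to `Γ` -/
def fB (G : Subgroup Γ) {A : Type} [Group A] (j : A →* Γ) {b : (A → F) → F} (hb : IsBlock b) :
    ZG F G →ₗ[F] F where
  toFun z := b (fun x => z.1 (j x))
  map_add' u v := hb.add _ _ (zcl j u) (zcl j v)
  map_smul' c u := hb.smul c _ (zcl j u)

/-- the functional of a character of a finite group mapped to `Γ` -/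
def fW (G : Subgroup Γ) {A : Type} [Group A] [Finite A] (j : A →* Γ)
    (red : integralClosure ℤ ℂ →+* F) (χ : A → ℂ) : ZG F G →ₗ[F] F where
  toFun z := centralValue red χ (fun x => z.1 (j x))
  map_add' a b := by
    unfold centralValue
    rw [← finsum_add_distrib (Set.toFinite _) (Set.toFinite _)]
    refine finsum_congr fun C => ?_
    rw [← add_mul]
    rfl
  map_smul' c a := by
    unfold centralValue
    rw [RingHom.id_apply, smul_finsum' c (Set.toFinite _)]
    refine finsum_congr fun C => ?_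
    rw [smul_eq_mul, ← mul_assoc]
    rfl

end fun_

section tr

variable {F : Type} [Field F] {Γ : Type} [Group Γ] [Finite Γ] {G K : Subgroup Γ} [G.Normal]

/-- the isomorphism -/
def eK (hGK : G ≤ K) : G ≃* G.subgroupOf K := (Subgroup.subgroupOfEquivOfLe hGK).symm

theorem eK_coe (hGK : G ≤ K) (x : G) : (((eK hGK x : G.subgroupOf K) : K) : Γ) = x := rfl

theorem dn_eq (hGK : G ≤ K) (B : (G → F) → F) (f : G.subgroupOf K → F) :
    dn hGK B f = B (fun x => f (eK hGK x)) := rfl

theorem dn_block (hGK : G ≤ K) {B : (G → F) → F} (hB : IsBlock B) : IsBlock (dn hGK B) :=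
  blk_iso (eK hGK) hB

theorem dn_inv (hGK : G ≤ K) {B : (G → F) → F} (hI : IsInvBlock G B) :
    IsInvBlock (G.subgroupOf K) (dn hGK B) := by
  intro g f f' hf h
  refine hI (g : Γ) _ _ (fun a x => ?_) fun x y hxy => ?_
  · change f (eK hGK (a * x * a⁻¹)) = f (eK hGK x)
    rw [map_mul, map_mul, map_inv]
    exact hf _ _
  · exact h _ _ (Subtype.ext hxy)

/-- the invariant irreducible traces in a block -/
theorem numIBr_dn (hGK : G ≤ K) (B : (G → F) → F) :
    numIBr (G.subgroupOf K) (dn hGK B) = Nat.card {φ : G → F // IsIrrTrace φ ∧ IsInvUnder K φ ∧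
      ∀ f : G → F, IsClassFun f → ∀ x : G, ∑ᶠ g : G, f g * φ (g * x) = B f * φ x} := by
  set e := eK hGK with he
  have key : ∀ φ : G.subgroupOf K → F, (IsIrrTrace φ ∧ IsInvUnder ⊤ φ ∧
      ∀ f : G.subgroupOf K → F, IsClassFun f → ∀ x : G.subgroupOf K,
        ∑ᶠ g : G.subgroupOf K, f g * φ (g * x) = dn hGK B f * φ x) ↔
      (IsIrrTrace (fun x : G => φ (e x)) ∧ IsInvUnder K (fun x : G => φ (e x)) ∧
      ∀ f : G → F, IsClassFun f → ∀ x : G, ∑ᶠ g : G, f g * φ (e (g * x)) =
        B f * φ (e x)) := by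
    intro φ
    constructor
    · rintro ⟨h1, h2, h3⟩
      refine ⟨Pool.Agent.Y210.NV2.irrTrace_comp e h1, ?_, ?_⟩
      · intro h hh x y hxy
        exact h2 ⟨h, hh⟩ trivial (e x) (e y) (Subtype.ext hxy)
      · intro f hf x
        have h4 := h3 (fun x => f (e.symm x)) (fun g x => by
          change f (e.symm (g * x * g⁻¹)) = f (e.symm x)
          rw [map_mul, map_mul, map_inv]
          exact hf _ _) (e x)
        rw [← finsum_comp_equiv e.toEquiv] at h4
        have h5 : dn hGK B (fun x => f (e.symm x)) = B f := by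
          rw [dn_eq]
          refine congrArg B (funext fun y => ?_)
          exact congrArg f (e.symm_apply_apply y)
        rw [h5] at h4
        rw [← h4]
        refine finsum_congr fun g => ?_
        change f g * φ (e (g * x)) = f (e.symm (e g)) * φ (e g * e x)
        rw [MulEquiv.symm_apply_apply, map_mul]
    · rintro ⟨h1, h2, h3⟩
      have h1' := Pool.Agent.Y210.NV2.irrTrace_comp e.symm h1
      have h1'' : (fun x => φ (e (e.symm x))) = φ := by
        funext x
        rw [MulEquiv.apply_symm_apply]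
      rw [h1''] at h1'
      refine ⟨h1', ?_, ?_⟩
      · intro h _ x y hxy
        have h4 := h2 (h : Γ) h.2 (e.symm x) (e.symm y) (congrArg (fun t : K => (t : Γ)) hxy)
        simp only [MulEquiv.apply_symm_apply] at h4
        exact h4
      · intro f hf x
        have h4 := h3 (fun y => f (e y)) (fun g y => by
          change f (e (g * y * g⁻¹)) = f (e y)
          rw [map_mul, map_mul, map_inv]
          exact hf _ _) (e.symm x)
        rw [MulEquiv.apply_symm_apply] at h4
        rw [dn_eq, ← he, ← h4, ← finsum_comp_equiv e.toEquiv]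
        refine finsum_congr fun g => ?_
        change f (e g) * φ (e g * x) = f (e g) * φ (e (g * e.symm x))
        rw [map_mul, MulEquiv.apply_symm_apply]
  unfold numIBr
  exact Nat.card_congr
    { toFun := fun φ => ⟨fun x : G => φ.1 (e x), (key φ.1).1 φ.2⟩
      invFun := fun φ => ⟨fun x => φ.1 (e.symm x), (key _).2 (by
        simp only [MulEquiv.symm_apply_apply]
        exact φ.2)⟩
      left_inv := fun φ => by
        apply Subtype.ext
        funext x
        exact congrArg φ.1 (e.apply_symm_apply x)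
      right_inv := fun φ => by
        apply Subtype.ext
        funext x
        exact congrArg φ.1 (e.symm_apply_apply x) }

/-- the subgroups of a finite group -/
local instance fsubC {Γ : Type} [Group Γ] [Finite Γ] : Fintype (Subgroup Γ) := Fintype.ofFinite _

/-- the weights of `K` -/
theorem navW_eq {p : ℕ} (red : integralClosure ℤ ℂ →+* F) (hGK : G ≤ K) {z : Γ → F}
    (hz : InZ G z) (c : F) :
    Wsum p red (G.subgroupOf K) ⊤ (fun x : K => z x) c = (navW p red z c G K : ℤ) := by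
  rw [Pool.Agent.Y487.NV.wsum_eq]
  unfold navW
  rw [Nat.cast_inj, ← Finset.sum_filter, ← Finset.sum_filter]
  refine Finset.sum_bij' (fun R _ => R.map K.subtype) (fun R _ => R.subgroupOf K) ?_ ?_ ?_ ?_ ?_
  · intro R hR
    rw [Finset.mem_filter] at hR ⊢
    obtain ⟨-, h2, h3⟩ := hR
    refine ⟨Finset.mem_univ _, h2.map _, Subgroup.map_subtype_le R, ?_⟩
    have h5 := congrArg (Subgroup.map K.subtype) h3
    rw [Subgroup.map_sup, Subgroup.subgroupOf_map_subtype, inf_eq_left.2 hGK,
      ← MonoidHom.range_eq_map, Subgroup.range_subtype] at h5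
    exact h5
  · intro R hR
    rw [Finset.mem_filter] at hR ⊢
    obtain ⟨-, h2, h3, h4⟩ := hR
    refine ⟨Finset.mem_univ _, h2.comap_subtype, ?_⟩
    rw [← Subgroup.subgroupOf_sup hGK h3, h4, Subgroup.subgroupOf_self]
  · intro R hR
    exact Subgroup.comap_map_eq_self_of_injective K.subtype_injective R
  · intro R hR
    rw [Finset.mem_filter] at hR
    rw [Subgroup.subgroupOf_map_subtype, inf_eq_left.2 hR.2.2.1]
  · intro R hR
    exact wl_inj (p := p) red K.subtype K.subtype_injective (Subgroup.range_subtype K) R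
      (fun h _ x => hz.conj h x) c

theorem wsum_top {p : ℕ} (red : integralClosure ℤ ℂ →+* F) (z : Γ → F) (c : F) :
    Wsum p red (⊤ : Subgroup Γ) ⊤ z c =
      ((∑ Q : Subgroup Γ, if IsPGroup p Q then wH p red z c ⊤ Q else 0 : ℕ) : ℤ) := by
  unfold Wsum
  rw [finsum_eq_sum_of_fintype, Nat.cast_sum]
  refine Finset.sum_congr rfl fun Q _ => ?_
  by_cases hQ : IsPGroup p Q
  · rw [if_pos hQ, if_pos ⟨hQ, le_top, top_sup_eq Q⟩]
    unfold wH
    rw [Nat.cast_mul]
  · rw [if_neg hQ, if_neg (fun h => hQ h.1), Nat.cast_zero]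

end tr

/-- the subgroups of a finite group -/
local instance fsubD {Γ : Type} [Group Γ] [Finite Γ] : Fintype (Subgroup Γ) := Fintype.ofFinite _

/-- **The Burnside formulas for a block.** -/
theorem burnside {p : ℕ} [Fact p.Prime] {F : Type} [Field F] [IsAlgClosed F] [CharP F p]
    (red : integralClosure ℤ ℂ →+* F) {Γ : Type} [Group Γ] [Fintype Γ] (G : Subgroup Γ) [G.Normal]
    (hG : IsPGroup p (Γ ⧸ G)) {B : (G → F) → F} (hB : IsBlock B) (hI : IsInvBlock G B)
    {B₁ : (Γ → F) → F} (hB₁ : IsBlock B₁)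
    (hcov : ∀ z : Γ → F, InZ G z → B₁ z = B (fun x => z x)) :
    (∑ γ : Γ, numIBr (G.subgroupOf (G ⊔ Subgroup.zpowers γ))
      (dn (le_sup_left : G ≤ G ⊔ Subgroup.zpowers γ) B) = Nat.card Γ * numIrrBlock B₁) ∧
    (∑ γ : Γ, numNav p red (G.subgroupOf (G ⊔ Subgroup.zpowers γ))
      (dn (le_sup_left : G ≤ G ⊔ Subgroup.zpowers γ) B) = Nat.card Γ * numWts p red B₁) := by
  have hInf : Infinite F := inferInstance
  -- the blocks of the irreducible traces
  have hfin1 : Finite {φ : (⊤ : Subgroup Γ) → F // IsIrrTrace φ} :=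
    (irr_main F (⊤ : Subgroup Γ)).1.to_subtype
  have hfin2 : Finite {φ : G → F // IsIrrTrace φ} := (irr_main F G).1.to_subtype
  choose hne1 B1 hB1 hact1 using
    fun φ : {φ : (⊤ : Subgroup Γ) → F // IsIrrTrace φ} => schur_main F (⊤ : Subgroup Γ) φ.1 φ.2
  choose hne2 B2 hB2 hact2 using
    fun φ : {φ : G → F // IsIrrTrace φ} => schur_main F G φ.1 φ.2
  have hfin4 : ∀ Q : Subgroup Γ, Finite {χ : Subgroup.normalizer (Q : Set Γ) → ℂ //
      IsIrreducibleCharacter χ} := by
    intro Q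
    have : Fintype (Subgroup.normalizer (Q : Set Γ)) := Fintype.ofFinite _
    exact (Pool.Agent.Helper884.IC.irr_finite
      (G := Subgroup.normalizer (Q : Set Γ))).to_subtype
  have hfin5 : ∀ (K : Subgroup Γ) (Q : Subgroup K),
      Finite {χ : Subgroup.normalizer (Q : Set K) → ℂ // IsIrreducibleCharacter χ} := by
    intro K Q
    have : Fintype (Subgroup.normalizer (Q : Set K)) := Fintype.ofFinite _
    exact (Pool.Agent.Helper884.IC.irr_finite
      (G := Subgroup.normalizer (Q : Set K))).to_subtype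
  -- the labels
  let I : Type := ({φ : (⊤ : Subgroup Γ) → F // IsIrrTrace φ} ⊕ {φ : G → F // IsIrrTrace φ}) ⊕
    ((Σ Q : Subgroup Γ, {χ : Subgroup.normalizer (Q : Set Γ) → ℂ // IsIrreducibleCharacter χ}) ⊕
    (Σ K : Subgroup Γ, Σ Q : Subgroup K,
      {χ : Subgroup.normalizer (Q : Set K) → ℂ // IsIrreducibleCharacter χ}))
  let μ : I → (ZG F G →ₗ[F] F) := fun i =>
    Sum.elim (Sum.elim (fun φ => fB G (⊤ : Subgroup Γ).subtype (hB1 φ))
      (fun φ => fB G G.subtype (hB2 φ)))
      (Sum.elim (fun q => fW G (Subgroup.normalizer (q.1 : Set Γ)).subtype red q.2.1)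
      (fun q => fW G (q.1.subtype.comp (Subgroup.normalizer (q.2.1 : Set q.1)).subtype)
        red q.2.2.1)) i
  obtain ⟨z, hz⟩ := exists_sep μ (fB G G.subtype hB)
  set c : F := fB G G.subtype hB z with hc
  have hfrob : ∀ {B' : (Γ → F) → F}, IsBlock B' →
      (∀ z' : Γ → F, InZ G z' → B' z' = B (fun x => z' x)) → ∀ f : Γ → F, IsClassFun f →
      B' f = B₁ f := by
    intro B' hB' h f hf
    exact frobg p hB' hB₁ _ G hG le_rfl (fun z' hz' => (h z' hz').trans (hcov z' hz').symm) f hf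
  have hrinj : ∀ {B' : (G → F) → F}, IsBlock B' →
      (∀ z' : Γ → F, InZ G z' → B' (fun x => z' x) = B (fun x => z' x)) → ∀ f : G → F,
      IsClassFun f → B' f = B f := by
    intro B' hB' h f hf
    exact rinj' G hB hB' hI (fun z' hz' => (h z' hz').symm) f hf
  have hΓ0 : (Nat.card Γ : ℤ) ≠ 0 := by exact_mod_cast Nat.card_pos.ne'
  constructor
  · -- the characters
    have hL1 : Lsum (⊤ : Subgroup Γ) ⊤ z.1 c = (Nat.card Γ : ℤ) * numIrrBlock B₁ := by
      refine ltop B₁ z.1 c z.2.conj (hcov z.1 z.2) fun φ hφ hzφ f' hf' x => ?_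
      obtain ⟨y, hy⟩ := hne1 ⟨φ, hφ⟩
      have h4 : B1 ⟨φ, hφ⟩ (fun x : (⊤ : Subgroup Γ) => z.1 x) = c := by
        have h5 := hact1 ⟨φ, hφ⟩ (fun x : (⊤ : Subgroup Γ) => z.1 x) (res_classFun z.2 ⊤) y
        exact mul_right_cancel₀ hy (h5.symm.trans (hzφ y))
      have h5 : fB G (⊤ : Subgroup Γ).subtype (hB1 ⟨φ, hφ⟩) = fB G G.subtype hB :=
        hz (Sum.inl (Sum.inl ⟨φ, hφ⟩)) h4
      have h6 := hfrob (B286.flat_block (hB1 ⟨φ, hφ⟩)) (fun z' hz' =>
        LinearMap.congr_fun h5 (⟨z', hz'⟩ : ZG F G))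
      have h7 : B1 ⟨φ, hφ⟩ f' = up B₁ f' :=
        h6 (fun x : Γ => f' ⟨x, trivial⟩) (fun g x => hf' ⟨g, trivial⟩ ⟨x, trivial⟩)
      rw [← h7]
      exact hact1 ⟨φ, hφ⟩ f' hf' x
    have hL2 : (Lnum (⊤ : Subgroup Γ) ⊤ z.1 c : ℤ) = numIrrBlock B₁ := by
      unfold Lsum at hL1
      rw [if_pos (sup_top_eq (⊤ : Subgroup Γ)), inf_top_eq] at hL1
      have e1 : Nat.card (⊤ : Subgroup Γ) = Nat.card Γ :=
        Nat.card_congr Subgroup.topEquiv.toEquiv
      rw [e1] at hL1
      exact mul_left_cancel₀ hΓ0 hL1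
    have hL3 : ∀ γ : Γ, Lnum G (G ⊔ Subgroup.zpowers γ) z.1 c =
        numIBr (G.subgroupOf (G ⊔ Subgroup.zpowers γ))
          (dn (le_sup_left : G ≤ G ⊔ Subgroup.zpowers γ) B) := by
      intro γ
      rw [numIBr_dn]
      unfold Lnum
      refine Nat.card_congr (Equiv.subtypeEquivRight fun φ => ?_)
      constructor
      · rintro ⟨hφ, hinv, hzφ⟩
        refine ⟨hφ, hinv, fun f' hf' x => ?_⟩
        obtain ⟨y, hy⟩ := hne2 ⟨φ, hφ⟩
        have h4 : B2 ⟨φ, hφ⟩ (fun x : G => z.1 x) = c := by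
          have h5 := hact2 ⟨φ, hφ⟩ (fun x : G => z.1 x) (res_classFun z.2 G) y
          exact mul_right_cancel₀ hy (h5.symm.trans (hzφ y))
        have h5 : fB G G.subtype (hB2 ⟨φ, hφ⟩) = fB G G.subtype hB :=
          hz (Sum.inl (Sum.inr ⟨φ, hφ⟩)) h4
        have h6 := hrinj (hB2 ⟨φ, hφ⟩) (fun z' hz' =>
          LinearMap.congr_fun h5 (⟨z', hz'⟩ : ZG F G))
        rw [← h6 f' hf']
        exact hact2 ⟨φ, hφ⟩ f' hf' x
      · rintro ⟨hφ, hinv, hzφ⟩
        refine ⟨hφ, hinv, fun x => ?_⟩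
        rw [hzφ _ (res_classFun z.2 G) x]
        rfl
    rw [Finset.sum_congr rfl fun γ _ => (hL3 γ).symm, lavg G z.1 c z.2 hG]
    congr 1
    exact_mod_cast hL2
  · -- the weights
    have hW1 := wtop (p := p) red B₁ z.1 c z.2.conj (hcov z.1 z.2)
      (fun Q hQ χ hw hv f' hf' => by
      have h5 : fW G (Subgroup.normalizer (Q : Set Γ)).subtype red χ = fB G G.subtype hB :=
        hz (Sum.inr (Sum.inl ⟨Q, χ, hw.irr⟩)) hv
      exact hfrob (wblk' p F red Γ Q χ hQ hw) (fun z' hz' =>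
        LinearMap.congr_fun h5 (⟨z', hz'⟩ : ZG F G)) f' hf')
    have hW2 : (∑ Q : Subgroup Γ, if IsPGroup p Q then wH p red z.1 c ⊤ Q else 0) =
        Nat.card Γ * numWts p red B₁ := by
      rw [wsum_top] at hW1
      exact_mod_cast hW1
    have hW3 : ∀ γ : Γ, navW p red z.1 c G (G ⊔ Subgroup.zpowers γ) =
        Nat.card ↥(G ⊔ Subgroup.zpowers γ) * numNav p red (G.subgroupOf (G ⊔ Subgroup.zpowers γ))
          (dn (le_sup_left : G ≤ G ⊔ Subgroup.zpowers γ) B) := by
      intro γ
      set K := G ⊔ Subgroup.zpowers γ with hK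
      have hGK : G ≤ K := le_sup_left
      have hzK : InZ (G.subgroupOf K) (fun x : K => z.1 x) :=
        ⟨fun g x => z.2.conj g x, fun x hx => z.2.supp x fun h =>
          hx (Subgroup.mem_subgroupOf.2 h)⟩
      have h1 := wnav (p := p) red (dn hGK B) (fun x : K => z.1 x) c hzK rfl
        (fun Q hQ χ hw hv z' hz' => by
        have h5 : fW G (K.subtype.comp (Subgroup.normalizer (Q : Set K)).subtype) red χ =
            fB G G.subtype hB := hz (Sum.inr (Sum.inr ⟨K, Q, χ, hw.irr⟩)) hv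
        exact rinjK hGK hB hI (wblk' p F red K Q χ hQ hw) (fun z'' hz'' =>
          LinearMap.congr_fun h5 (⟨z'', hz''⟩ : ZG F G)) z' hz')
      rw [navW_eq red hGK z.2 c, ← numNav_eq red (G.subgroupOf K) (dn_block hGK hB)
        (dn_inv hGK hI)] at h1
      exact_mod_cast h1
    have hW4 := wavg red hG z.2 c
    rw [hW2] at hW4
    have h1 : ∀ γ : Γ, (navW p red z.1 c G (G ⊔ Subgroup.zpowers γ) : ℚ) /
        Nat.card ↥(G ⊔ Subgroup.zpowers γ) = (numNav p red (G.subgroupOf
          (G ⊔ Subgroup.zpowers γ)) (dn (le_sup_left : G ≤ G ⊔ Subgroup.zpowers γ) B) : ℚ) := by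
      intro γ
      have hK0 : (Nat.card ↥(G ⊔ Subgroup.zpowers γ) : ℚ) ≠ 0 := by
        exact_mod_cast Nat.card_pos.ne'
      rw [hW3 γ, Nat.cast_mul, mul_div_cancel_left₀ _ hK0]
    rw [Finset.sum_congr rfl fun γ _ => h1 γ] at hW4
    exact_mod_cast hW4

end Pool.Agent.X282.KRB
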