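import Pool.Agent.X282.KRB.Avg5

/-!
# The weight conjecture and the subgroups `K ⊇ G` with `K/G` cyclic
-/

set_option autoImplicit false
set_option linter.unusedSectionVars false

open scoped Classical

noncomputable section

namespace Pool.Agent.X282.KRB

open Pool.Agent.Y63.NV
open Pool.Agent.Y63.AWC (IsIrreducibleCharacter pSubgroupSetoid)
open Pool.Agent.Y286.NV (ZG blkF exists_sep res_classFun)
open Pool.Agent.Y487.NV (wl)

section wts

/-- the subgroups of a finite group -/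
local instance fsubE {Γ : Type} [Group Γ] [Finite Γ] : Fintype (Subgroup Γ) := Fintype.ofFinite _

variable {p : ℕ} {F : Type} [Field F] {Γ : Type} [Group Γ] [Finite Γ]

/-- The Burnside formula for the weights of `K ⊇ G`. -/
theorem wavgK [Fact p.Prime] [CharP F p] (red : integralClosure ℤ ℂ →+* F) {G : Subgroup Γ}
    [G.Normal] (hG : IsPGroup p (Γ ⧸ G)) {z : Γ → F} (hz : InZ G z) (c : F) [Fintype Γ]
    {K : Subgroup Γ} (hGK : G ≤ K) :
    ∑ γ ∈ Finset.univ.filter (fun γ : Γ => γ ∈ K),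
      (navW p red z c G (G ⊔ Subgroup.zpowers γ) : ℚ) / Nat.card ↥(G ⊔ Subgroup.zpowers γ) =
    ((∑ Q : Subgroup Γ, if IsPGroup p Q ∧ Q ≤ K then wH p red z c K Q else 0 : ℕ) : ℚ) := by
  have hG0 : (Nat.card G : ℚ) ≠ 0 := by exact_mod_cast Nat.card_pos.ne'
  have h0 : ∀ Q : Subgroup Γ, (((if IsPGroup p Q ∧ Q ≤ K then wH p red z c K Q else 0 : ℕ) : ℚ)) =
      ∑ R : Subgroup Γ, if R ⊓ K = Q then (Nat.card ↥(R ⊓ K) : ℚ) * nH p red z c ⊤ R else 0 := by
    intro Q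
    have hQ0 : (Nat.card Q : ℚ) ≠ 0 := by exact_mod_cast Nat.card_pos.ne'
    have h1 : (((if IsPGroup p Q ∧ Q ≤ K then wH p red z c K Q else 0 : ℕ) : ℚ)) =
        Nat.card Q * nH p red z c K Q := by
      unfold nH
      by_cases h2 : IsPGroup p Q ∧ Q ≤ K
      · rw [if_pos h2, if_pos h2]
        field_simp
      · rw [if_neg h2, if_neg h2, mul_zero, Nat.cast_zero]
    rw [h1, nmain red hG hz c _ K hGK le_rfl Q, Finset.mul_sum]
    refine Finset.sum_congr rfl fun R _ => ?_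
    by_cases h4 : R ⊓ K = Q
    · rw [if_pos h4, if_pos h4, h4]
    · rw [if_neg h4, if_neg h4, mul_zero]
  have hR : ((∑ Q : Subgroup Γ, if IsPGroup p Q ∧ Q ≤ K then wH p red z c K Q else 0 : ℕ) : ℚ) =
      ∑ R : Subgroup Γ, (Nat.card ↥(R ⊓ K) : ℚ) * nH p red z c ⊤ R := by
    rw [Nat.cast_sum, Finset.sum_congr rfl fun Q _ => h0 Q, Finset.sum_comm]
    refine Finset.sum_congr rfl fun R _ => ?_
    rw [Finset.sum_ite_eq Finset.univ (R ⊓ K), if_pos (Finset.mem_univ _)]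
  rw [hR, Finset.sum_congr rfl fun γ _ => navW_div red hG hz c (K := G ⊔ Subgroup.zpowers γ)
    le_sup_left, Finset.sum_comm]
  refine Finset.sum_congr rfl fun R _ => ?_
  have h1 : ∀ γ : Γ, G ⊔ Subgroup.zpowers γ ≤ G ⊔ R ↔ γ ∈ G ⊔ R := by
    intro γ
    constructor
    · intro h
      exact h (le_sup_right (a := G) (Subgroup.mem_zpowers γ))
    · intro h
      refine sup_le le_sup_left ?_
      rw [Subgroup.zpowers_le]
      exact h
  have h2 : ∀ γ : Γ, (if G ⊔ Subgroup.zpowers γ ≤ G ⊔ R then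
      ((Nat.card ↥(R ⊓ G) : ℚ) / Nat.card G) * nH p red z c ⊤ R else 0) =
      if γ ∈ G ⊔ R then ((Nat.card ↥(R ⊓ G) : ℚ) / Nat.card G) * nH p red z c ⊤ R else 0 := by
    intro γ
    rw [propext (h1 γ)]
  rw [Finset.sum_congr rfl fun γ _ => h2 γ, ← Finset.sum_filter, Finset.sum_const, nsmul_eq_mul,
    Finset.filter_filter]
  have h3 : (Finset.univ.filter fun γ : Γ => γ ∈ K ∧ γ ∈ G ⊔ R).card =
      Nat.card ↥(G ⊔ R ⊓ K) := by
    rw [← Fintype.card_subtype, ← Nat.card_eq_fintype_card]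
    refine Nat.card_congr (Equiv.subtypeEquivRight fun γ => ?_)
    constructor
    · rintro ⟨h4, h5⟩
      have h6 : γ ∈ ((G ⊔ R : Subgroup Γ) : Set Γ) := h5
      rw [Subgroup.normal_mul, Set.mem_mul] at h6
      obtain ⟨g, hg, r, hr, rfl⟩ := h6
      have h7 : r ∈ K := by
        have h8 := K.mul_mem (K.inv_mem (hGK hg)) h4
        rwa [inv_mul_cancel_left] at h8
      exact Subgroup.mul_mem_sup hg ⟨hr, h7⟩
    · intro h4
      exact ⟨(sup_le hGK inf_le_right : G ⊔ R ⊓ K ≤ K) h4,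
        (sup_le_sup_left inf_le_left G : G ⊔ R ⊓ K ≤ G ⊔ R) h4⟩
  rw [h3]
  have h4 : (Nat.card ↥(G ⊔ R ⊓ K) : ℚ) * ((Nat.card ↥(R ⊓ G) : ℚ) / Nat.card G) =
      Nat.card ↥(R ⊓ K) := by
    have h8 : R ⊓ K ⊓ G = R ⊓ G := by rw [inf_assoc, inf_eq_right.2 hGK]
    rw [card_sup_rel G (R ⊓ K), card_inf_rel G (R ⊓ K), h8]
    push_cast
    field_simp
  rw [← mul_assoc, h4]

/-- the invariant irreducible traces and a subgroup containing everything -/
theorem lnum_dn {G K L : Subgroup Γ} [G.Normal] (hGK : G ≤ K) (hLK : L ≤ K) (z : Γ → F)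
    (c : F) : Lnum (G.subgroupOf K) (L.subgroupOf K) (fun x : K => z x) c = Lnum G L z c := by
  set e := eK hGK with he
  have key : ∀ φ : G.subgroupOf K → F, (IsIrrTrace φ ∧ IsInvUnder (L.subgroupOf K) φ ∧
      ∀ x : G.subgroupOf K, ∑ᶠ g : G.subgroupOf K, z (g : K) * φ (g * x) = c * φ x) ↔
      (IsIrrTrace (fun x : G => φ (e x)) ∧ IsInvUnder L (fun x : G => φ (e x)) ∧
      ∀ x : G, ∑ᶠ g : G, z g * φ (e (g * x)) = c * φ (e x)) := by
    intro φ
    constructor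
    · rintro ⟨h1, h2, h3⟩
      refine ⟨Pool.Agent.Y210.NV2.irrTrace_comp e h1, ?_, ?_⟩
      · intro h hh x y hxy
        exact h2 ⟨h, hLK hh⟩ (Subgroup.mem_subgroupOf.2 hh) (e x) (e y) (Subtype.ext hxy)
      · intro x
        have h4 := h3 (e x)
        rw [← finsum_comp_equiv e.toEquiv] at h4
        rw [← h4]
        refine finsum_congr fun g => ?_
        change z g * φ (e (g * x)) = z (e g : K) * φ (e g * e x)
        rw [map_mul]
        rfl
    · rintro ⟨h1, h2, h3⟩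
      have h1' := Pool.Agent.Y210.NV2.irrTrace_comp e.symm h1
      have h1'' : (fun x => φ (e (e.symm x))) = φ := by
        funext x
        rw [MulEquiv.apply_symm_apply]
      rw [h1''] at h1'
      refine ⟨h1', ?_, ?_⟩
      · intro h hh x y hxy
        have h4 := h2 (h : Γ) (Subgroup.mem_subgroupOf.1 hh) (e.symm x) (e.symm y)
          (congrArg (fun t : K => (t : Γ)) hxy)
        simp only [MulEquiv.apply_symm_apply] at h4
        exact h4
      · intro x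
        have h4 := h3 (e.symm x)
        rw [MulEquiv.apply_symm_apply] at h4
        rw [← h4, ← finsum_comp_equiv e.toEquiv]
        refine finsum_congr fun g => ?_
        change z (e g : K) * φ (e g * x) = z g * φ (e (g * e.symm x))
        rw [map_mul, MulEquiv.apply_symm_apply]
        rfl
  unfold Lnum
  exact Nat.card_congr
    { toFun := fun φ => ⟨fun x : G => φ.1 (e x), (key φ.1).1 φ.2⟩
      invFun := fun φ => ⟨fun x => φ.1 (e.symm x), (key _).2 (by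
        simp only [MulEquiv.symm_apply_apply]
        exact φ.2)⟩
      left_inv := fun φ => by
        apply Subtype.ext
        funext x
        exact congrArg φ.1 (e.apply_symm_apply x)
      right_inv := fun φ => by
        apply Subtype.ext
        funext x
        exact congrArg φ.1 (e.symm_apply_apply x) }

/-- The Burnside formula for the irreducible traces of `K ⊇ G`. -/
theorem lavgK [Fact p.Prime] [CharP F p] [IsAlgClosed F] {G : Subgroup Γ} [G.Normal]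
    (hG : IsPGroup p (Γ ⧸ G)) {z : Γ → F} (hz : InZ G z) (c : F) [Fintype Γ] {K : Subgroup Γ}
    (hGK : G ≤ K) :
    ∑ γ ∈ Finset.univ.filter (fun γ : Γ => γ ∈ K), Lnum G (G ⊔ Subgroup.zpowers γ) z c =
      Nat.card K * Lnum (⊤ : Subgroup K) ⊤ (fun x : K => z x) c := by
  have hzK : InZ (G.subgroupOf K) (fun x : K => z x) :=
    ⟨fun g x => hz.conj g x, fun x hx => hz.supp x fun h =>
      hx (Subgroup.mem_subgroupOf.2 h)⟩
  have hp' : IsPGroup p (K ⧸ G.subgroupOf K) := by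
    intro x
    obtain ⟨g, rfl⟩ := QuotientGroup.mk_surjective x
    obtain ⟨k, hk⟩ := hG ((g : Γ) : Γ ⧸ G)
    rw [← QuotientGroup.mk_pow, QuotientGroup.eq_one_iff] at hk
    refine ⟨k, ?_⟩
    rw [← QuotientGroup.mk_pow, QuotientGroup.eq_one_iff, Subgroup.mem_subgroupOf]
    exact hk
  have h1 := lavg (G.subgroupOf K) (fun x : K => z x) c hzK hp'
  rw [← h1]
  rw [← Finset.sum_coe_sort (Finset.univ.filter (fun γ : Γ => γ ∈ K))]
  refine Finset.sum_bij' (fun (γ : {γ // γ ∈ Finset.univ.filter (fun γ : Γ => γ ∈ K)}) _ =>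
    (⟨γ.1, (Finset.mem_filter.1 γ.2).2⟩ : K)) (fun κ _ => ⟨κ.1, Finset.mem_filter.2
      ⟨Finset.mem_univ _, κ.2⟩⟩) (fun _ _ => Finset.mem_univ _) (fun _ _ => Finset.mem_univ _)
      (fun _ _ => rfl) (fun _ _ => rfl) ?_
  intro γ _
  have hγ : γ.1 ∈ K := (Finset.mem_filter.1 γ.2).2
  have hle : G ⊔ Subgroup.zpowers γ.1 ≤ K := sup_le hGK ((Subgroup.zpowers_le).2 hγ)
  have h2 : G.subgroupOf K ⊔ Subgroup.zpowers (⟨γ.1, hγ⟩ : K) =
      (G ⊔ Subgroup.zpowers γ.1).subgroupOf K := by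
    rw [Subgroup.subgroupOf_sup hGK ((Subgroup.zpowers_le).2 hγ)]
    congr 1
    ext x
    rw [Subgroup.mem_subgroupOf, Subgroup.mem_zpowers_iff, Subgroup.mem_zpowers_iff]
    constructor
    · rintro ⟨k, hk⟩
      exact ⟨k, by rw [← hk]; rfl⟩
    · rintro ⟨k, hk⟩
      exact ⟨k, Subtype.ext hk⟩
  rw [h2, lnum_dn hGK hle]

/-- the weights of `K` -/
theorem wsum_topK (red : integralClosure ℤ ℂ →+* F) {K : Subgroup Γ} {z : Γ → F}
    (hz : ∀ h ∈ K, ∀ x : Γ, z (h * x * h⁻¹) = z x) (c : F) :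
    Wsum p red (⊤ : Subgroup K) ⊤ (fun x : K => z x) c =
      ((∑ Q : Subgroup Γ, if IsPGroup p Q ∧ Q ≤ K then wH p red z c K Q else 0 : ℕ) : ℤ) := by
  rw [Pool.Agent.Y487.NV.wsum_eq]
  rw [Nat.cast_inj, ← Finset.sum_filter, ← Finset.sum_filter]
  refine Finset.sum_bij' (fun R _ => R.map K.subtype) (fun R _ => R.subgroupOf K) ?_ ?_ ?_ ?_ ?_
  · intro R hR
    rw [Finset.mem_filter] at hR ⊢
    obtain ⟨-, h2, -⟩ := hR
    exact ⟨Finset.mem_univ _, h2.map _, Subgroup.map_subtype_le R⟩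
  · intro R hR
    rw [Finset.mem_filter] at hR ⊢
    obtain ⟨-, h2, h3⟩ := hR
    exact ⟨Finset.mem_univ _, h2.comap_subtype, top_sup_eq _⟩
  · intro R hR
    exact Subgroup.comap_map_eq_self_of_injective K.subtype_injective R
  · intro R hR
    rw [Finset.mem_filter] at hR
    rw [Subgroup.subgroupOf_map_subtype, inf_eq_left.2 hR.2.2]
  · intro R hR
    exact wl_inj (p := p) red K.subtype K.subtype_injective (Subgroup.range_subtype K) R hz c

theorem lsum_top {J : Type} [Group J] [Finite J] (f : J → F) (c : F) :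
    Lsum (⊤ : Subgroup J) ⊤ f c = Nat.card J * Lnum (⊤ : Subgroup J) ⊤ f c := by
  unfold Lsum
  rw [if_pos (sup_top_eq (⊤ : Subgroup J)), inf_top_eq]
  have e1 : Nat.card (⊤ : Subgroup J) = Nat.card J := Nat.card_congr Subgroup.topEquiv.toEquiv
  rw [e1]

/-- the difference of the two sides for `G⟨γ⟩` -/
def dif (p : ℕ) (red : integralClosure ℤ ℂ →+* F) (z : Γ → F) (c : F) (G K : Subgroup Γ) : ℚ :=
  (Lnum G K z c : ℚ) - (navW p red z c G K : ℚ) / Nat.card K

/-- the sum of the differences over `K` -/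
theorem sum_dif [Fact p.Prime] [CharP F p] [IsAlgClosed F] (red : integralClosure ℤ ℂ →+* F)
    {G : Subgroup Γ} [G.Normal]
    (hG : IsPGroup p (Γ ⧸ G)) {z : Γ → F} (hz : InZ G z) (c : F) [Fintype Γ] {K : Subgroup Γ}
    (hGK : G ≤ K) :
    ∑ γ ∈ Finset.univ.filter (fun γ : Γ => γ ∈ K), dif p red z c G (G ⊔ Subgroup.zpowers γ) =
      ((Lsum (⊤ : Subgroup K) ⊤ (fun x : K => z x) c -
        Wsum p red (⊤ : Subgroup K) ⊤ (fun x : K => z x) c : ℤ) : ℚ) := by
  unfold dif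
  rw [Finset.sum_sub_distrib, wavgK red hG hz c hGK, ← Nat.cast_sum, lavgK hG hz c hGK,
    lsum_top, wsum_topK red (fun h _ x => hz.conj h x) c]
  push_cast
  ring

/-- the differences vanish if the differences for the groups `K` with `K/G` cyclic vanish -/
theorem dif_zero [Fact p.Prime] [CharP F p] [IsAlgClosed F] (red : integralClosure ℤ ℂ →+* F)
    {G : Subgroup Γ} [G.Normal]
    (hG : IsPGroup p (Γ ⧸ G)) {z : Γ → F} (hz : InZ G z) (c : F)
    (h : ∀ κ : Γ, Lsum (⊤ : Subgroup ↥(G ⊔ Subgroup.zpowers κ)) ⊤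
        (fun x : ↥(G ⊔ Subgroup.zpowers κ) => z x) c =
      Wsum p red (⊤ : Subgroup ↥(G ⊔ Subgroup.zpowers κ)) ⊤
        (fun x : ↥(G ⊔ Subgroup.zpowers κ) => z x) c) :
    ∀ (n : ℕ) (κ : Γ), Nat.card ↥(G ⊔ Subgroup.zpowers κ) ≤ n →
      dif p red z c G (G ⊔ Subgroup.zpowers κ) = 0 := by
  have : Fintype Γ := Fintype.ofFinite Γ
  intro n
  induction n with
  | zero =>
    intro κ hκ
    have := Nat.card_pos (α := ↥(G ⊔ Subgroup.zpowers κ))
    omega
  | succ n ih =>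
    intro κ hκ
    set K := G ⊔ Subgroup.zpowers κ with hK
    have hGK : G ≤ K := le_sup_left
    have hκK : κ ∈ K := le_sup_right (a := G) (Subgroup.mem_zpowers κ)
    have h1 := sum_dif red hG hz c hGK
    rw [h κ, sub_self, Int.cast_zero] at h1
    have h2 : ∀ γ ∈ Finset.univ.filter (fun γ : Γ => γ ∈ K),
        dif p red z c G (G ⊔ Subgroup.zpowers γ) =
          if G ⊔ Subgroup.zpowers γ = K then dif p red z c G K else 0 := by
      intro γ hγ
      have hγK : γ ∈ K := (Finset.mem_filter.1 hγ).2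
      have hle : G ⊔ Subgroup.zpowers γ ≤ K := sup_le hGK ((Subgroup.zpowers_le).2 hγK)
      by_cases h3 : G ⊔ Subgroup.zpowers γ = K
      · rw [if_pos h3, h3]
      · rw [if_neg h3]
        apply ih
        have h4 : Nat.card ↥(G ⊔ Subgroup.zpowers γ) ≠ Nat.card K := fun h5 =>
          h3 (Subgroup.eq_of_le_of_card_ge hle h5.ge)
        have h5 : Nat.card ↥(G ⊔ Subgroup.zpowers γ) ≤ Nat.card K := Subgroup.card_le_of_le hle
        omega
    rw [Finset.sum_congr rfl h2, ← Finset.sum_filter, Finset.sum_const, nsmul_eq_mul] at h1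
    rcases mul_eq_zero.1 h1 with h3 | h3
    · exfalso
      have h4 : κ ∈ (Finset.univ.filter (fun γ : Γ => γ ∈ K)).filter
          (fun γ => G ⊔ Subgroup.zpowers γ = K) :=
        Finset.mem_filter.2 ⟨Finset.mem_filter.2 ⟨Finset.mem_univ _, hκK⟩, rfl⟩
      have h5 := Finset.card_pos.2 ⟨κ, h4⟩
      have h6 : (0 : ℚ) < ((Finset.univ.filter (fun γ : Γ => γ ∈ K)).filter
          (fun γ => G ⊔ Subgroup.zpowers γ = K)).card := by exact_mod_cast h5
      rw [h3] at h6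
      exact lt_irrefl _ h6
    · exact h3

end wts

/-- from the single element statements to the blockwise conjecture -/
theorem fing {p : ℕ} [Fact p.Prime] {F : Type} [Field F] [IsAlgClosed F] [CharP F p]
    (red : integralClosure ℤ ℂ →+* F) {Γ : Type} [Group Γ] [Finite Γ] (G : Subgroup Γ) [G.Normal]
    (hG : IsPGroup p (Γ ⧸ G)) (h : ∀ (z : Γ → F), InZ G z → ∀ c : F,
      Lsum (⊤ : Subgroup Γ) ⊤ z c = Wsum p red (⊤ : Subgroup Γ) ⊤ z c) : BAWC p red Γ := by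
  intro B₁ hB₁
  have hInf : Infinite F := inferInstance
  have hfin1 : Finite {φ : (⊤ : Subgroup Γ) → F // IsIrrTrace φ} :=
    (irr_main F (⊤ : Subgroup Γ)).1.to_subtype
  choose hne1 B1 hB1 hact1 using
    fun φ : {φ : (⊤ : Subgroup Γ) → F // IsIrrTrace φ} => schur_main F (⊤ : Subgroup Γ) φ.1 φ.2
  have hfin4 : ∀ Q : Subgroup Γ, Finite {χ : Subgroup.normalizer (Q : Set Γ) → ℂ //
      IsIrreducibleCharacter χ} := by
    intro Q
    have : Fintype (Subgroup.normalizer (Q : Set Γ)) := Fintype.ofFinite _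
    exact (Pool.Agent.Helper884.IC.irr_finite
      (G := Subgroup.normalizer (Q : Set Γ))).to_subtype
  let I : Type := {φ : (⊤ : Subgroup Γ) → F // IsIrrTrace φ} ⊕
    (Σ Q : Subgroup Γ, {χ : Subgroup.normalizer (Q : Set Γ) → ℂ // IsIrreducibleCharacter χ})
  let μ : I → (ZG F G →ₗ[F] F) := fun i =>
    Sum.elim (fun φ => fB G (⊤ : Subgroup Γ).subtype (hB1 φ))
      (fun q => fW G (Subgroup.normalizer (q.1 : Set Γ)).subtype red q.2.1) i
  obtain ⟨z, hz⟩ := exists_sep μ (fB G (MonoidHom.id Γ) hB₁)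
  set c : F := fB G (MonoidHom.id Γ) hB₁ z with hc
  have hfrob : ∀ {B' : (Γ → F) → F}, IsBlock B' →
      (∀ z' : Γ → F, InZ G z' → B' z' = B₁ z') → ∀ f : Γ → F, IsClassFun f →
      B' f = B₁ f := by
    intro B' hB' h f hf
    exact frobg p hB' hB₁ _ G hG le_rfl h f hf
  have hL1 : Lsum (⊤ : Subgroup Γ) ⊤ z.1 c = (Nat.card Γ : ℤ) * numIrrBlock B₁ := by
    refine ltop B₁ z.1 c z.2.conj rfl fun φ hφ hzφ f' hf' x => ?_
    obtain ⟨y, hy⟩ := hne1 ⟨φ, hφ⟩
    have h4 : B1 ⟨φ, hφ⟩ (fun x : (⊤ : Subgroup Γ) => z.1 x) = c := by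
      have h5 := hact1 ⟨φ, hφ⟩ (fun x : (⊤ : Subgroup Γ) => z.1 x) (res_classFun z.2 ⊤) y
      exact mul_right_cancel₀ hy (h5.symm.trans (hzφ y))
    have h5 : fB G (⊤ : Subgroup Γ).subtype (hB1 ⟨φ, hφ⟩) = fB G (MonoidHom.id Γ) hB₁ :=
      hz (Sum.inl ⟨φ, hφ⟩) h4
    have h6 := hfrob (B286.flat_block (hB1 ⟨φ, hφ⟩)) (fun z' hz' =>
      LinearMap.congr_fun h5 (⟨z', hz'⟩ : ZG F G))
    have h7 : B1 ⟨φ, hφ⟩ f' = up B₁ f' :=
      h6 (fun x : Γ => f' ⟨x, trivial⟩) (fun g x => hf' ⟨g, trivial⟩ ⟨x, trivial⟩)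
    rw [← h7]
    exact hact1 ⟨φ, hφ⟩ f' hf' x
  have hW1 := wtop (p := p) red B₁ z.1 c z.2.conj rfl
    (fun Q hQ χ hw hv f' hf' => by
    have h5 : fW G (Subgroup.normalizer (Q : Set Γ)).subtype red χ =
        fB G (MonoidHom.id Γ) hB₁ := hz (Sum.inr ⟨Q, χ, hw.irr⟩) hv
    exact hfrob (wblk' p F red Γ Q χ hQ hw) (fun z' hz' =>
      LinearMap.congr_fun h5 (⟨z', hz'⟩ : ZG F G)) f' hf')
  have h1 := h z.1 z.2 c
  rw [hL1, hW1] at h1
  have hΓ0 : (Nat.card Γ : ℤ) ≠ 0 := by exact_mod_cast Nat.card_pos.ne'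
  exact_mod_cast mul_left_cancel₀ hΓ0 h1

/-- **The weight conjecture and the subgroups `K ⊇ G` with `K/G` cyclic.** -/
theorem bawc_cyclic {p : ℕ} [Fact p.Prime] {F : Type} [Field F] [IsAlgClosed F] [CharP F p]
    (red : integralClosure ℤ ℂ →+* F) {Γ : Type} [Group Γ] [Finite Γ] (G : Subgroup Γ) [G.Normal]
    (hG : IsPGroup p (Γ ⧸ G)) (h : ∀ γ : Γ, BAWC p red ↥(G ⊔ Subgroup.zpowers γ)) :
    BAWC p red Γ := by
  have : Fintype Γ := Fintype.ofFinite Γ
  refine fing red G hG fun z hz c => ?_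
  have h1 : ∀ κ : Γ, Lsum (⊤ : Subgroup ↥(G ⊔ Subgroup.zpowers κ)) ⊤
        (fun x : ↥(G ⊔ Subgroup.zpowers κ) => z x) c =
      Wsum p red (⊤ : Subgroup ↥(G ⊔ Subgroup.zpowers κ)) ⊤
        (fun x : ↥(G ⊔ Subgroup.zpowers κ) => z x) c := fun κ =>
    base' p F red _ ((bawc_iff p red).1 (h κ)) _ (fun g x => hz.conj g x) c
  have h2 := dif_zero red hG hz c h1
  have h3 := sum_dif red hG hz c (le_top : G ≤ ⊤)
  rw [Finset.sum_eq_zero fun γ _ => h2 _ γ le_rfl] at h3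
  have h4 : Lsum (⊤ : Subgroup (⊤ : Subgroup Γ)) ⊤ (fun x : (⊤ : Subgroup Γ) => z x) c =
      Wsum p red (⊤ : Subgroup (⊤ : Subgroup Γ)) ⊤ (fun x : (⊤ : Subgroup Γ) => z x) c := by
    have h5 : ((Lsum (⊤ : Subgroup (⊤ : Subgroup Γ)) ⊤ (fun x : (⊤ : Subgroup Γ) => z x) c -
        Wsum p red (⊤ : Subgroup (⊤ : Subgroup Γ)) ⊤ (fun x : (⊤ : Subgroup Γ) => z x) c : ℤ) :
        ℚ) = 0 := h3.symm
    exact sub_eq_zero.1 (by exact_mod_cast h5)
  rw [parts.trl F Γ ⊤ ⊤ z c (top_sup_eq ⊤),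
    Pool.Agent.Y624.NV.trn p F red Γ ⊤ ⊤ z c (top_sup_eq ⊤) (fun h _ x => hz.conj h x),
    Subgroup.top_subgroupOf]
  exact h4

end Pool.Agent.X282.KRB
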