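import Pool.Agent.X282.KRB.Avg6

/-!
# The local formula for the weights over a block
-/

set_option autoImplicit false
set_option linter.unusedSectionVars false

open scoped Classical

noncomputable section

namespace Pool.Agent.X282.KRB

open Pool.Agent.Y63.NV
open Pool.Agent.Y63.AWC (IsIrreducibleCharacter pSubgroupSetoid)
open Pool.Agent.Y286.NV (ZG blkF exists_sep res_classFun)
open Pool.Agent.Y487.NV (wl)

/-- the subgroups of a finite group -/
local instance fsubF {Γ : Type} [Group Γ] [Finite Γ] : Fintype (Subgroup Γ) := Fintype.ofFinite _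

/-- **The local formula.** -/
theorem localf {p : ℕ} [Fact p.Prime] {F : Type} [Field F] [IsAlgClosed F] [CharP F p]
    (red : integralClosure ℤ ℂ →+* F) {Γ : Type} [Group Γ] [Finite Γ] (G : Subgroup Γ) [G.Normal]
    (hG : IsPGroup p (Γ ⧸ G)) {B : (G → F) → F} (hB : IsBlock B) (hI : IsInvBlock G B)
    {H : Subgroup Γ} (hGH : G ≤ H) (Q : Subgroup H) (hQ : IsPGroup p Q) :
    ((Nat.card (Subgroup.normalizer (Q : Set H)) : ℚ) / Nat.card Q) *
      numDz p red (G.subgroupOf H) Q (dn hGH B) =
    ∑ᶠ R : {R : Subgroup Γ // IsPGroup p R ∧ R.subgroupOf H = Q},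
      ((Nat.card (Subgroup.normalizer (R.1 : Set Γ)) : ℚ) / Nat.card R.1) *
        numDz p red G R.1 B := by
  have hInf : Infinite F := inferInstance
  have hfin4 : ∀ Q : Subgroup Γ, Finite {χ : Subgroup.normalizer (Q : Set Γ) → ℂ //
      IsIrreducibleCharacter χ} := by
    intro Q
    have : Fintype (Subgroup.normalizer (Q : Set Γ)) := Fintype.ofFinite _
    exact (Pool.Agent.Helper884.IC.irr_finite
      (G := Subgroup.normalizer (Q : Set Γ))).to_subtype
  have hfin5 : Finite {χ : Subgroup.normalizer (Q : Set H) → ℂ // IsIrreducibleCharacter χ} := by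
    have : Fintype (Subgroup.normalizer (Q : Set H)) := Fintype.ofFinite _
    exact (Pool.Agent.Helper884.IC.irr_finite
      (G := Subgroup.normalizer (Q : Set H))).to_subtype
  let I : Type :=
    (Σ Q : Subgroup Γ, {χ : Subgroup.normalizer (Q : Set Γ) → ℂ // IsIrreducibleCharacter χ}) ⊕
      {χ : Subgroup.normalizer (Q : Set H) → ℂ // IsIrreducibleCharacter χ}
  let μ : I → (ZG F G →ₗ[F] F) := fun i =>
    Sum.elim (fun q => fW G (Subgroup.normalizer (q.1 : Set Γ)).subtype red q.2.1)
      (fun χ => fW G (H.subtype.comp (Subgroup.normalizer (Q : Set H)).subtype) red χ.1) i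
  obtain ⟨z, hz⟩ := exists_sep μ (fB G G.subtype hB)
  set c : F := fB G G.subtype hB z with hc
  have hzH : InZ (G.subgroupOf H) (fun x : H => z.1 x) :=
    ⟨fun g x => z.2.conj g x, fun x hx => z.2.supp x fun h => hx (Subgroup.mem_subgroupOf.2 h)⟩
  -- the left side
  have h1 : Nw p red (Q.subgroupOf (Subgroup.normalizer (Q : Set H)))
      (fun x => z.1 ((x : H) : Γ)) c = numDz p red (G.subgroupOf H) Q (dn hGH B) := by
    unfold Nw numDz
    refine Nat.card_congr (Equiv.subtypeEquivRight fun χ => ?_)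
    constructor
    · rintro ⟨hw, hv⟩
      refine ⟨hw, fun z' hz' => ?_⟩
      have h5 : fW G (H.subtype.comp (Subgroup.normalizer (Q : Set H)).subtype) red χ =
          fB G G.subtype hB := hz (Sum.inr ⟨χ, hw.irr⟩) hv
      exact rinjK hGH hB hI (wblk' p F red H Q χ hQ hw) (fun z'' hz'' =>
        LinearMap.congr_fun h5 (⟨z'', hz''⟩ : ZG F G)) z' hz'
    · rintro ⟨hw, hv⟩
      exact ⟨hw, hv (fun x : H => z.1 x) hzH⟩
  have h2 : (wH p red z.1 c H (Q.map H.subtype) : ℚ) =
      (Nat.card (Subgroup.normalizer (Q : Set H)) : ℚ) *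
        numDz p red (G.subgroupOf H) Q (dn hGH B) := by
    rw [← wl_inj (p := p) red H.subtype H.subtype_injective (Subgroup.range_subtype H) Q
      (fun h _ x => z.2.conj h x) c, ← h1]
    unfold wl
    rw [Nat.cast_mul]
    rfl
  -- the right side
  have h3 : ∀ R : Subgroup Γ, (wH p red z.1 c ⊤ R : ℚ) =
      (Nat.card (Subgroup.normalizer (R : Set Γ)) : ℚ) * numDz p red G R B := by
    intro R
    unfold wH
    rw [top_inf_eq, Nat.cast_mul]
    congr 2
    unfold Nw numDz
    refine Nat.card_congr (Equiv.subtypeEquivRight fun χ => ?_)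
    constructor
    · rintro ⟨hw, hv⟩
      refine ⟨hw, fun z' hz' => ?_⟩
      have h5 : fW G (Subgroup.normalizer (R : Set Γ)).subtype red χ = fB G G.subtype hB :=
        hz (Sum.inl ⟨R, χ, hw.irr⟩) hv
      exact LinearMap.congr_fun h5 (⟨z', hz'⟩ : ZG F G)
    · rintro ⟨hw, hv⟩
      exact ⟨hw, hv z.1 z.2⟩
  have h4 := nmain red hG z.2 c _ H hGH le_rfl (Q.map H.subtype)
  have h5 : nH p red z.1 c H (Q.map H.subtype) =
      ((Nat.card (Subgroup.normalizer (Q : Set H)) : ℚ) / Nat.card Q) *
        numDz p red (G.subgroupOf H) Q (dn hGH B) := by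
    unfold nH
    rw [if_pos ⟨hQ.map _, Subgroup.map_subtype_le Q⟩, h2,
      Subgroup.card_map_of_injective H.subtype_injective]
    ring
  rw [← h5, h4]
  have : Fintype {R : Subgroup Γ // IsPGroup p R ∧ R.subgroupOf H = Q} := Fintype.ofFinite _
  rw [finsum_eq_sum_of_fintype]
  have h6 : ∀ R : Subgroup Γ, (if R ⊓ H = Q.map H.subtype then nH p red z.1 c ⊤ R else 0) =
      if IsPGroup p R ∧ R.subgroupOf H = Q then
        ((Nat.card (Subgroup.normalizer (R : Set Γ)) : ℚ) / Nat.card R) * numDz p red G R B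
        else 0 := by
    intro R
    have h7 : R ⊓ H = Q.map H.subtype ↔ R.subgroupOf H = Q := by
      constructor
      · intro h
        rw [← Subgroup.inf_subgroupOf_right, h]
        exact Subgroup.comap_map_eq_self_of_injective H.subtype_injective Q
      · intro h
        rw [← h, Subgroup.subgroupOf_map_subtype, inf_comm]
    by_cases h8 : R.subgroupOf H = Q
    · rw [if_pos (h7.2 h8)]
      unfold nH
      by_cases h9 : IsPGroup p R
      · rw [if_pos ⟨h9, le_top⟩, if_pos ⟨h9, h8⟩, h3]
        ring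
      · rw [if_neg (fun h => h9 h.1), if_neg (fun h => h9 h.1)]
    · rw [if_neg (fun h => h8 (h7.1 h)), if_neg (fun h => h8 h.2)]
  rw [Finset.sum_congr rfl fun R _ => h6 R, ← Finset.sum_filter]
  exact Finset.sum_subtype (p := fun R : Subgroup Γ => IsPGroup p R ∧ R.subgroupOf H = Q)
    (Finset.univ.filter fun R : Subgroup Γ => IsPGroup p R ∧ R.subgroupOf H = Q) (by simp)
    (fun R => ((Nat.card (Subgroup.normalizer (R : Set Γ)) : ℚ) / Nat.card R) *
      numDz p red G R B)

end Pool.Agent.X282.KRB
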