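import Pool.Agent.X282.KRB.Avg7

/-!
# One block and the subgroups `K ⊇ G` with `K/G` cyclic
-/

set_option autoImplicit false
set_option linter.unusedSectionVars false

open scoped Classical

noncomputable section

namespace Pool.Agent.X282.KRB

open Pool.Agent.Y63.NV
open Pool.Agent.Y63.AWC (IsIrreducibleCharacter pSubgroupSetoid)
open Pool.Agent.Y286.NV (ZG blkF exists_sep res_classFun)
open Pool.Agent.Y487.NV (wl)

/-- the subgroups of a finite group -/
local instance fsubG {Γ : Type} [Group Γ] [Finite Γ] : Fintype (Subgroup Γ) := Fintype.ofFinite _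

theorem pK {p : ℕ} {Γ : Type} [Group Γ] {G : Subgroup Γ} [G.Normal] (hG : IsPGroup p (Γ ⧸ G))
    (K : Subgroup Γ) : IsPGroup p (K ⧸ G.subgroupOf K) := by
  intro x
  obtain ⟨g, rfl⟩ := QuotientGroup.mk_surjective x
  obtain ⟨k, hk⟩ := hG ((g : Γ) : Γ ⧸ G)
  rw [← QuotientGroup.mk_pow, QuotientGroup.eq_one_iff] at hk
  refine ⟨k, ?_⟩
  rw [← QuotientGroup.mk_pow, QuotientGroup.eq_one_iff, Subgroup.mem_subgroupOf]
  exact hk

/-- **One block and cyclic quotients.** -/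
theorem cyc_block {p : ℕ} [Fact p.Prime] {F : Type} [Field F] [IsAlgClosed F] [CharP F p]
    (red : integralClosure ℤ ℂ →+* F) {Γ : Type} [Group Γ] [Finite Γ] (G : Subgroup Γ) [G.Normal]
    (hG : IsPGroup p (Γ ⧸ G)) {B : (G → F) → F} (hB : IsBlock B) (hI : IsInvBlock G B)
    (b : ∀ K : Subgroup Γ, (K → F) → F) (hb : ∀ K : Subgroup Γ, G ≤ K → IsBlock (b K))
    (hbc : ∀ K : Subgroup Γ, G ≤ K → ∀ z : Γ → F, InZ G z →
      b K (fun x : K => z x) = B (fun x => z x))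
    (heq : ∀ γ : Γ, numIrrBlock (b (G ⊔ Subgroup.zpowers γ)) =
      numWts p red (b (G ⊔ Subgroup.zpowers γ))) :
    (∀ K : Subgroup Γ, G ≤ K → numIrrBlock (b K) = numWts p red (b K)) ∧
      ∀ γ : Γ, numIBr (G.subgroupOf (G ⊔ Subgroup.zpowers γ))
          (dn (le_sup_left : G ≤ G ⊔ Subgroup.zpowers γ) B) =
        numNav p red (G.subgroupOf (G ⊔ Subgroup.zpowers γ))
          (dn (le_sup_left : G ≤ G ⊔ Subgroup.zpowers γ) B) := by
  have : Fintype Γ := Fintype.ofFinite Γ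
  have hInf : Infinite F := inferInstance
  -- the blocks of the irreducible traces
  have hfin1 : ∀ K : Subgroup Γ, Finite {φ : (⊤ : Subgroup K) → F // IsIrrTrace φ} :=
    fun K => (irr_main F (⊤ : Subgroup K)).1.to_subtype
  have hfin2 : Finite {φ : G → F // IsIrrTrace φ} := (irr_main F G).1.to_subtype
  choose hne1 B1 hB1 hact1 using
    fun (q : Σ K : Subgroup Γ, {φ : (⊤ : Subgroup K) → F // IsIrrTrace φ}) =>
      schur_main F (⊤ : Subgroup q.1) q.2.1 q.2.2
  choose hne2 B2 hB2 hact2 using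
    fun φ : {φ : G → F // IsIrrTrace φ} => schur_main F G φ.1 φ.2
  have hfin5 : ∀ (K : Subgroup Γ) (Q : Subgroup K),
      Finite {χ : Subgroup.normalizer (Q : Set K) → ℂ // IsIrreducibleCharacter χ} := by
    intro K Q
    have : Fintype (Subgroup.normalizer (Q : Set K)) := Fintype.ofFinite _
    exact (Pool.Agent.Helper884.IC.irr_finite
      (G := Subgroup.normalizer (Q : Set K))).to_subtype
  -- the labels
  let I : Type := ((Σ K : Subgroup Γ, {φ : (⊤ : Subgroup K) → F // IsIrrTrace φ}) ⊕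
      {φ : G → F // IsIrrTrace φ}) ⊕
    (Σ K : Subgroup Γ, Σ Q : Subgroup K,
      {χ : Subgroup.normalizer (Q : Set K) → ℂ // IsIrreducibleCharacter χ})
  let μ : I → (ZG F G →ₗ[F] F) := fun i =>
    Sum.elim (Sum.elim (fun q => fB G (q.1.subtype.comp (⊤ : Subgroup q.1).subtype) (hB1 q))
      (fun φ => fB G G.subtype (hB2 φ)))
      (fun q => fW G (q.1.subtype.comp (Subgroup.normalizer (q.2.1 : Set q.1)).subtype)
        red q.2.2.1) i
  obtain ⟨z, hz⟩ := exists_sep μ (fB G G.subtype hB)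
  set c : F := fB G G.subtype hB z with hc
  have hzK : ∀ K : Subgroup Γ, InZ (G.subgroupOf K) (fun x : K => z.1 x) := fun K =>
    ⟨fun g x => z.2.conj g x, fun x hx => z.2.supp x fun h =>
      hx (Subgroup.mem_subgroupOf.2 h)⟩
  -- blocks of `K` which agree with `B` on the invariant elements
  have hfrob : ∀ {K : Subgroup Γ}, G ≤ K → ∀ {B' : (K → F) → F}, IsBlock B' →
      (∀ z' : Γ → F, InZ G z' → B' (fun x => z' x) = B (fun x => z' x)) → ∀ f : K → F,
      IsClassFun f → B' f = b K f := by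
    intro K hGK B' hB' h f hf
    refine frobg p hB' (hb K hGK) _ (G.subgroupOf K) (pK hG K) le_rfl (fun z' hz' => ?_) f hf
    rw [rinjK hGK hB hI hB' h z' hz', rinjK hGK hB hI (hb K hGK) (hbc K hGK) z' hz']
  have hrinj : ∀ {B' : (G → F) → F}, IsBlock B' →
      (∀ z' : Γ → F, InZ G z' → B' (fun x => z' x) = B (fun x => z' x)) → ∀ f : G → F,
      IsClassFun f → B' f = B f := by
    intro B' hB' h f hf
    exact rinj' G hB hB' hI (fun z' hz' => (h z' hz').symm) f hf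
  -- the two sides for `K`
  have hLK : ∀ K : Subgroup Γ, G ≤ K → Lsum (⊤ : Subgroup K) ⊤ (fun x : K => z.1 x) c =
      (Nat.card K : ℤ) * numIrrBlock (b K) := by
    intro K hGK
    refine ltop (b K) (fun x : K => z.1 x) c (hzK K).conj (hbc K hGK z.1 z.2)
      fun φ hφ hzφ f' hf' x => ?_
    obtain ⟨y, hy⟩ := hne1 ⟨K, φ, hφ⟩
    have h4 : B1 ⟨K, φ, hφ⟩ (fun x : (⊤ : Subgroup K) => z.1 (x : K)) = c := by
      have h5 := hact1 ⟨K, φ, hφ⟩ (fun x : (⊤ : Subgroup K) => z.1 (x : K))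
        (fun g x => z.2.conj _ _) y
      exact mul_right_cancel₀ hy (h5.symm.trans (hzφ y))
    have h5 : fB G (K.subtype.comp (⊤ : Subgroup K).subtype) (hB1 ⟨K, φ, hφ⟩) =
      fB G G.subtype hB := hz (Sum.inl (Sum.inl ⟨K, φ, hφ⟩)) h4
    have h6 := hfrob hGK (B286.flat_block (hB1 ⟨K, φ, hφ⟩)) (fun z' hz' =>
      LinearMap.congr_fun h5 (⟨z', hz'⟩ : ZG F G))
    have h7 : B1 ⟨K, φ, hφ⟩ f' = up (b K) f' :=
      h6 (fun x : K => f' ⟨x, trivial⟩) (fun g x => hf' ⟨g, trivial⟩ ⟨x, trivial⟩)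
    rw [← h7]
    exact hact1 ⟨K, φ, hφ⟩ f' hf' x
  have hWK : ∀ K : Subgroup Γ, G ≤ K → Wsum p red (⊤ : Subgroup K) ⊤ (fun x : K => z.1 x) c =
      (Nat.card K : ℤ) * numWts p red (b K) := by
    intro K hGK
    refine wtop (p := p) red (b K) (fun x : K => z.1 x) c (hzK K).conj (hbc K hGK z.1 z.2)
      (fun Q hQ χ hw hv f' hf' => ?_)
    have h5 : fW G (K.subtype.comp (Subgroup.normalizer (Q : Set K)).subtype) red χ =
        fB G G.subtype hB := hz (Sum.inr ⟨K, Q, χ, hw.irr⟩) hv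
    exact hfrob hGK (wblk' p F red K Q χ hQ hw) (fun z' hz' =>
      LinearMap.congr_fun h5 (⟨z', hz'⟩ : ZG F G)) f' hf'
  have h1 : ∀ κ : Γ, Lsum (⊤ : Subgroup ↥(G ⊔ Subgroup.zpowers κ)) ⊤
        (fun x : ↥(G ⊔ Subgroup.zpowers κ) => z.1 x) c =
      Wsum p red (⊤ : Subgroup ↥(G ⊔ Subgroup.zpowers κ)) ⊤
        (fun x : ↥(G ⊔ Subgroup.zpowers κ) => z.1 x) c := fun κ => by
    rw [hLK _ le_sup_left, hWK _ le_sup_left, heq]
  have h2 := dif_zero red hG z.2 c h1
  refine ⟨fun K hGK => ?_, fun γ => ?_⟩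
  · have h3 := sum_dif red hG z.2 c hGK
    rw [Finset.sum_eq_zero fun γ _ => h2 _ γ le_rfl, hLK K hGK, hWK K hGK] at h3
    have h4 : (Nat.card K : ℤ) * numIrrBlock (b K) = (Nat.card K : ℤ) * numWts p red (b K) :=
      sub_eq_zero.1 (by exact_mod_cast h3.symm)
    have hK0 : (Nat.card K : ℤ) ≠ 0 := by exact_mod_cast Nat.card_pos.ne'
    exact_mod_cast mul_left_cancel₀ hK0 h4
  · have h3 := h2 _ γ le_rfl
    unfold dif at h3
    set K := G ⊔ Subgroup.zpowers γ with hK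
    have hGK : G ≤ K := le_sup_left
    have hL3 : Lnum G K z.1 c = numIBr (G.subgroupOf K) (dn hGK B) := by
      rw [numIBr_dn]
      unfold Lnum
      refine Nat.card_congr (Equiv.subtypeEquivRight fun φ => ?_)
      constructor
      · rintro ⟨hφ, hinv, hzφ⟩
        refine ⟨hφ, hinv, fun f' hf' x => ?_⟩
        obtain ⟨y, hy⟩ := hne2 ⟨φ, hφ⟩
        have h4 : B2 ⟨φ, hφ⟩ (fun x : G => z.1 x) = c := by
          have h5 := hact2 ⟨φ, hφ⟩ (fun x : G => z.1 x) (res_classFun z.2 G) y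
          exact mul_right_cancel₀ hy (h5.symm.trans (hzφ y))
        have h5 : fB G G.subtype (hB2 ⟨φ, hφ⟩) = fB G G.subtype hB :=
          hz (Sum.inl (Sum.inr ⟨φ, hφ⟩)) h4
        have h6 := hrinj (hB2 ⟨φ, hφ⟩) (fun z' hz' =>
          LinearMap.congr_fun h5 (⟨z', hz'⟩ : ZG F G))
        rw [← h6 f' hf']
        exact hact2 ⟨φ, hφ⟩ f' hf' x
      · rintro ⟨hφ, hinv, hzφ⟩
        refine ⟨hφ, hinv, fun x => ?_⟩
        rw [hzφ _ (res_classFun z.2 G) x]
        rfl
    have hW3 : navW p red z.1 c G K =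
        Nat.card K * numNav p red (G.subgroupOf K) (dn hGK B) := by
      have h1 := wnav (p := p) red (dn hGK B) (fun x : K => z.1 x) c (hzK K) rfl
        (fun Q hQ χ hw hv z' hz' => by
        have h5 : fW G (K.subtype.comp (Subgroup.normalizer (Q : Set K)).subtype) red χ =
            fB G G.subtype hB := hz (Sum.inr ⟨K, Q, χ, hw.irr⟩) hv
        exact rinjK hGK hB hI (wblk' p F red K Q χ hQ hw) (fun z'' hz'' =>
          LinearMap.congr_fun h5 (⟨z'', hz''⟩ : ZG F G)) z' hz')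
      rw [navW_eq red hGK z.2 c, ← numNav_eq red (G.subgroupOf K) (dn_block hGK hB)
        (dn_inv hGK hI)] at h1
      exact_mod_cast h1
    have hK0 : (Nat.card K : ℚ) ≠ 0 := by exact_mod_cast Nat.card_pos.ne'
    rw [hL3, hW3, Nat.cast_mul, mul_div_cancel_left₀ _ hK0, sub_eq_zero] at h3
    exact_mod_cast h3

end Pool.Agent.X282.KRB
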