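import Pool.Agent.X282.KRB.Final
import Pool.Agent.Y405.NV.Rinj

/-!
# Blocks and normal subgroups of index `p`

The numbers of irreducible Brauer characters and of weights of a block `B` of a normal subgroup `G`
of index `p` of `Γ`, of the covering block of `Γ`, and the numbers of Navarro's equality.
-/

set_option autoImplicit false
set_option linter.unusedSectionVars false

open scoped Classical

noncomputable section

namespace Pool.Agent.X282.KRB

open Pool.Agent.Y63.NV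
open Pool.Agent.Y63.AWC (IsIrreducibleCharacter pSubgroupSetoid)
open Pool.Agent.Y286.NV (ZG blkF wtF exists_sep orbit_weights numDz_conj sup_conj res_classFun
  inv_block)
open Pool.Agent.Y405.NV (ofC toRH nrm)

section rinj

variable {F : Type} [Field F] {Γ : Type} [Group Γ] [Finite Γ] (G : Subgroup Γ) [G.Normal]

/-- An invariant block of a normal subgroup is determined by its values at the invariant elements
among all blocks. -/
theorem rinj' {B B' : (G → F) → F} (hB : IsBlock B) (hB' : IsBlock B') (hI : IsInvBlock G B)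
    (hz : ∀ z : Γ → F, InZ G z → B (fun x => z x) = B' (fun x => z x)) (f : G → F)
    (hf : IsClassFun f) : B' f = B f := by
  let w := nrm G (ofC f hf) (B' f)
  let zz : Γ → F := fun x => if hx : x ∈ G then w.1.coeff ⟨x, hx⟩ else 0
  have hzz : ∀ x : G, zz x = w.1.coeff x := fun x => dif_pos x.2
  have hZ : InZ G zz := by
    refine ⟨fun g x => ?_, fun x hx => dif_neg hx⟩
    by_cases hx : x ∈ G
    · have hx' : g * x * g⁻¹ ∈ G := (inferInstance : G.Normal).conj_mem x hx g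
      have h1 := hzz ⟨x, hx⟩
      have h2 := hzz ⟨g * x * g⁻¹, hx'⟩
      simp only at h1 h2
      rw [h1, h2]
      have h3 : (Pool.Agent.Y405.NV.sg G g w).1.coeff ⟨g * x * g⁻¹, hx'⟩ = w.1.coeff ⟨g * x * g⁻¹, hx'⟩ := by
        rw [Pool.Agent.Y405.NV.sg_nrm]
      rw [← h3, Pool.Agent.Y405.NV.coeff_sg, Pool.Agent.Y405.NV.conj_symm_eq G (x := ⟨x, hx⟩)
        (y := ⟨g * x * g⁻¹, hx'⟩) rfl]
    · have hx' : g * x * g⁻¹ ∉ G := by
        intro h
        apply hx
        have := (inferInstance : G.Normal).conj_mem _ h g⁻¹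
        simpa [mul_assoc] using this
      show zz (g * x * g⁻¹) = zz x
      rw [show zz (g * x * g⁻¹) = 0 from dif_neg hx', show zz x = 0 from dif_neg hx]
  have h1 := hz zz hZ
  have h2 : (fun x : G => zz x) = fun x : G => w.1.coeff x := funext hzz
  rw [h2] at h1
  have h3 : toRH hB w = toRH hB' w := h1
  have h5 : toRH hB' w = 0 := by
    let _ := Fintype.ofFinite Γ
    change toRH hB' (nrm G (ofC f hf) (B' f)) = 0
    unfold nrm
    rw [map_prod]
    refine Finset.prod_eq_zero (Finset.mem_univ (1 : Γ)) ?_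
    rw [map_sub, Pool.Agent.Y405.NV.toRH_ofS]
    have h6 : Pool.Agent.Y405.NV.sg G (1 : Γ) (ofC f hf) = ofC f hf := by
      apply Subtype.ext
      ext x
      rw [Pool.Agent.Y405.NV.coeff_sg]
      congr 1
      rw [map_one]
      rfl
    rw [h6, Pool.Agent.Y405.NV.toRH_ofC, sub_self]
  rw [h5, Pool.Agent.Y405.NV.toRH_nrm G hB hI, Pool.Agent.Y405.NV.toRH_ofC] at h3
  have h4 := pow_eq_zero_iff Nat.card_pos.ne' |>.mp h3
  exact (sub_eq_zero.mp h4).symm

end rinj

/-! ### From the sums to the numbers for one block -/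

section top

variable {p : ℕ} {F : Type} [Field F] {J : Type} [Group J] [Finite J]

/-- the weights of `J` -/
theorem wtop (red : integralClosure ℤ ℂ →+* F) (B : (J → F) → F) (f : J → F) (c : F)
    (hf : IsClassFun f) (hc : B f = c)
    (hsep : ∀ Q : Subgroup J, IsPGroup p Q → ∀ χ : Subgroup.normalizer (Q : Set J) → ℂ,
      IsWt p (Q.subgroupOf (Subgroup.normalizer (Q : Set J))) χ →
      centralValue red χ (fun x => f x) = c →
      ∀ f' : J → F, IsClassFun f' → centralValue red χ (fun x => f' x) = B f') :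
    Wsum p red (⊤ : Subgroup J) ⊤ f c = (Nat.card J : ℤ) *
      ((∑ᶠ c : Quotient (pSubgroupSetoid p J), numWtBlock p red c.out.1 B : ℕ) : ℤ) := by
  have hfc : ∀ (g : J) (Q : Subgroup J), numWtBlock p red (Q.map (MulAut.conj g).toMonoidHom) B =
      numWtBlock p red Q B := by
    intro g Q
    have h1 := numDz_conj p red (⊤ : Subgroup J) (up B) g Q
    rw [numDz_eq, numDz_eq] at h1
    exact h1
  rw [← Nat.cast_mul, orbit_weights p (fun Q => numWtBlock p red Q B) hfc]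
  have : Fintype {Q : Subgroup J // IsPGroup p Q} := Fintype.ofFinite _
  have : Fintype (Subgroup J) := Fintype.ofFinite _
  unfold Wsum
  rw [finsum_eq_sum_of_fintype, finsum_eq_sum_of_fintype, Nat.cast_sum]
  have hNw : ∀ Q : Subgroup J, IsPGroup p Q →
      Nw p red (Q.subgroupOf (⊤ ⊓ Subgroup.normalizer (Q : Set J)))
      (fun x => f x) c = numWtBlock p red Q B := by
    intro Q hQ
    rw [top_inf_eq]
    unfold Nw numWtBlock
    refine Nat.card_congr (Equiv.subtypeEquivRight fun χ => ?_)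
    constructor
    · rintro ⟨hw, hv⟩
      exact ⟨hw, hsep Q hQ χ hw hv⟩
    · rintro ⟨hw, hv⟩
      exact ⟨hw, (hv f hf).trans hc⟩
  have h5 : ∀ Q : Subgroup J, (if IsPGroup p Q ∧ Q ≤ (⊤ : Subgroup J) ∧
      (⊤ : Subgroup J) ⊔ Q = ⊤ then
      (Nat.card ↥((⊤ : Subgroup J) ⊓ Subgroup.normalizer (Q : Set J)) : ℤ) *
      Nw p red (Q.subgroupOf (⊤ ⊓ Subgroup.normalizer (Q : Set J))) (fun x => f x) c else 0)
      = if IsPGroup p Q then
        ((Nat.card (Subgroup.normalizer (Q : Set J)) * numWtBlock p red Q B : ℕ) : ℤ)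
        else 0 := by
    intro Q
    have e2 : Nat.card ↥((⊤ : Subgroup J) ⊓ Subgroup.normalizer (Q : Set J)) =
        Nat.card (Subgroup.normalizer (Q : Set J)) := by rw [top_inf_eq]
    rw [e2]
    by_cases hQ : IsPGroup p Q
    · rw [if_pos ⟨hQ, le_top, top_sup_eq Q⟩, if_pos hQ, hNw Q hQ, Nat.cast_mul]
    · rw [if_neg (fun h => hQ h.1), if_neg hQ]
  rw [Finset.sum_congr rfl fun Q _ => h5 Q, ← Finset.sum_filter]
  exact Finset.sum_subtype (p := fun Q : Subgroup J => IsPGroup p Q)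
    (Finset.univ.filter fun Q : Subgroup J => IsPGroup p Q) (by simp)
    (fun Q => ((Nat.card (Subgroup.normalizer (Q : Set J)) * numWtBlock p red Q B : ℕ) : ℤ))

/-- the irreducible traces of `J` -/
theorem ltop (B : (J → F) → F) (f : J → F) (c : F)
    (hf : IsClassFun f) (hc : B f = c)
    (hsep : ∀ φ : (⊤ : Subgroup J) → F, IsIrrTrace φ →
      (∀ x : (⊤ : Subgroup J), ∑ᶠ g : (⊤ : Subgroup J), f g * φ (g * x) = c * φ x) →
      ∀ f' : (⊤ : Subgroup J) → F, IsClassFun f' → ∀ x : (⊤ : Subgroup J),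
        ∑ᶠ g : (⊤ : Subgroup J), f' g * φ (g * x) = up B f' * φ x) :
    Lsum (⊤ : Subgroup J) ⊤ f c = (Nat.card J : ℤ) * numIrrBlock B := by
  have h1 : numIrrBlock B = numIBr (⊤ : Subgroup J) (up B) := by
    rw [numIBr_eq]
    rfl
  rw [h1]
  unfold Lsum
  rw [if_pos (sup_top_eq (⊤ : Subgroup J)), inf_top_eq]
  have e1 : Nat.card (⊤ : Subgroup J) = Nat.card J := Nat.card_congr Subgroup.topEquiv.toEquiv
  rw [e1]
  congr 2
  unfold Lnum numIBr
  refine Nat.card_congr (Equiv.subtypeEquivRight fun φ => ?_)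
  constructor
  · rintro ⟨hφ, hinv, hzφ⟩
    exact ⟨hφ, hinv, hsep φ hφ hzφ⟩
  · rintro ⟨hφ, hinv, hzφ⟩
    refine ⟨hφ, hinv, fun x => ?_⟩
    rw [hzφ _ (fun g x => hf g x) x]
    congr 1

end top

section nav

variable {p : ℕ} {F : Type} [Field F] {Γ : Type} [Group Γ] [Finite Γ]

/-- the invariant irreducible traces of `G` -/
theorem lnav {G : Subgroup Γ} (B : (G → F) → F) (z : Γ → F) (c : F)
    (hz : InZ G z) (hc : B (fun x => z x) = c)
    (hsep : ∀ φ : G → F, IsIrrTrace φ →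
      (∀ x : G, ∑ᶠ g : G, z g * φ (g * x) = c * φ x) →
      ∀ f' : G → F, IsClassFun f' → ∀ x : G, ∑ᶠ g : G, f' g * φ (g * x) = B f' * φ x) :
    Lsum G ⊤ z c = (Nat.card Γ : ℤ) * numIBr G B := by
  unfold Lsum
  rw [if_pos (sup_top_eq G), inf_top_eq]
  have e1 : Nat.card (⊤ : Subgroup Γ) = Nat.card Γ := Nat.card_congr Subgroup.topEquiv.toEquiv
  rw [e1]
  congr 2
  unfold Lnum numIBr
  refine Nat.card_congr (Equiv.subtypeEquivRight fun φ => ?_)
  constructor
  · rintro ⟨hφ, hinv, hzφ⟩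
    exact ⟨hφ, hinv, hsep φ hφ hzφ⟩
  · rintro ⟨hφ, hinv, hzφ⟩
    refine ⟨hφ, hinv, fun x => ?_⟩
    rw [hzφ _ (res_classFun hz G) x, hc]

/-- the weights of `Γ` over `G` -/
theorem wnav (red : integralClosure ℤ ℂ →+* F) {G : Subgroup Γ} [G.Normal] (B : (G → F) → F)
    (z : Γ → F) (c : F) (hz : InZ G z) (hc : B (fun x => z x) = c)
    (hsep : ∀ Q : Subgroup Γ, IsPGroup p Q → ∀ χ : Subgroup.normalizer (Q : Set Γ) → ℂ,
      IsWt p (Q.subgroupOf (Subgroup.normalizer (Q : Set Γ))) χ →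
      centralValue red χ (fun x => z x) = c →
      ∀ z' : Γ → F, InZ G z' → centralValue red χ (fun x => z' x) = B (fun x => z' x)) :
    Wsum p red G ⊤ z c = (Nat.card Γ : ℤ) *
      ((∑ᶠ c : Quotient (pSubgroupSetoid p Γ),
        (if G ⊔ c.out.1 = ⊤ then numDz p red G c.out.1 B else 0) : ℕ) : ℤ) := by
  set f : Subgroup Γ → ℕ := fun Q => if G ⊔ Q = ⊤ then numDz p red G Q B else 0 with hf
  have hfc : ∀ (g : Γ) (Q : Subgroup Γ), f (Q.map (MulAut.conj g).toMonoidHom) = f Q := by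
    intro g Q
    simp only [hf]
    rw [numDz_conj, propext (sup_conj G g Q)]
  have hNw : ∀ Q : Subgroup Γ, IsPGroup p Q →
      Nw p red (Q.subgroupOf (⊤ ⊓ Subgroup.normalizer (Q : Set Γ)))
      (fun x => z x) c = numDz p red G Q B := by
    intro Q hQ
    rw [top_inf_eq]
    unfold Nw numDz
    refine Nat.card_congr (Equiv.subtypeEquivRight fun χ => ?_)
    constructor
    · rintro ⟨hw, hv⟩
      exact ⟨hw, hsep Q hQ χ hw hv⟩
    · rintro ⟨hw, hv⟩
      exact ⟨hw, (hv z hz).trans hc⟩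
  change Wsum p red G ⊤ z c = (Nat.card Γ : ℤ) *
    ((∑ᶠ c : Quotient (pSubgroupSetoid p Γ), f c.out.1 : ℕ) : ℤ)
  rw [← Nat.cast_mul, orbit_weights p f hfc]
  have : Fintype {Q : Subgroup Γ // IsPGroup p Q} := Fintype.ofFinite _
  have : Fintype (Subgroup Γ) := Fintype.ofFinite _
  unfold Wsum
  rw [finsum_eq_sum_of_fintype, finsum_eq_sum_of_fintype, Nat.cast_sum]
  have h5 : ∀ Q : Subgroup Γ, (if IsPGroup p Q ∧ Q ≤ (⊤ : Subgroup Γ) ∧ G ⊔ Q = ⊤ then
      (Nat.card ↥((⊤ : Subgroup Γ) ⊓ Subgroup.normalizer (Q : Set Γ)) : ℤ) *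
      Nw p red (Q.subgroupOf (⊤ ⊓ Subgroup.normalizer (Q : Set Γ))) (fun x => z x) c else 0)
      = if IsPGroup p Q then ((Nat.card (Subgroup.normalizer (Q : Set Γ)) * f Q : ℕ) : ℤ)
        else 0 := by
    intro Q
    have e2 : Nat.card ↥((⊤ : Subgroup Γ) ⊓ Subgroup.normalizer (Q : Set Γ)) =
        Nat.card (Subgroup.normalizer (Q : Set Γ)) := by rw [top_inf_eq]
    rw [e2]
    by_cases hQ : IsPGroup p Q
    · by_cases hGQ : G ⊔ Q = ⊤
      · rw [if_pos ⟨hQ, le_top, hGQ⟩, if_pos hQ, hNw Q hQ]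
        simp only [hf]
        rw [if_pos hGQ, Nat.cast_mul]
      · rw [if_neg (fun h => hGQ h.2.2), if_pos hQ]
        simp only [hf]
        rw [if_neg hGQ, mul_zero, Nat.cast_zero]
    · rw [if_neg (fun h => hQ h.1), if_neg hQ]
  rw [Finset.sum_congr rfl fun Q _ => h5 Q, ← Finset.sum_filter]
  exact Finset.sum_subtype (p := fun Q : Subgroup Γ => IsPGroup p Q)
    (Finset.univ.filter fun Q : Subgroup Γ => IsPGroup p Q) (by simp)
    (fun Q => ((Nat.card (Subgroup.normalizer (Q : Set Γ)) * f Q : ℕ) : ℤ))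

/-- the functional of a character of a subgroup of `G` -/
def wtG {G : Subgroup Γ} (red : integralClosure ℤ ℂ →+* F) (N : Subgroup G)
    (χ : N → ℂ) : ZG F G →ₗ[F] F where
  toFun z := centralValue red χ (fun x => z.1 (x : G))
  map_add' a b := by
    unfold centralValue
    rw [← finsum_add_distrib (Set.toFinite _) (Set.toFinite _)]
    refine finsum_congr fun C => ?_
    rw [← add_mul]
    rfl
  map_smul' c a := by
    unfold centralValue
    rw [RingHom.id_apply, smul_finsum' c (Set.toFinite _)]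
    refine finsum_congr fun C => ?_
    rw [smul_eq_mul, ← mul_assoc]
    rfl

end nav

/-- the functional of a block of the subgroup `⊤` of `G` -/
def blkG {F : Type} [Field F] {Γ : Type} [Group Γ] {G : Subgroup Γ}
    {B : ((⊤ : Subgroup G) → F) → F} (hB : IsBlock B) : ZG F G →ₗ[F] F where
  toFun z := B (fun x : (⊤ : Subgroup G) => z.1 (x : G))
  map_add' a b := hB.add _ _ (fun g x => a.2.conj g x) (fun g x => b.2.conj g x)
  map_smul' c a := hB.smul c _ (fun g x => a.2.conj g x)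

theorem schur_main : S_SCHUR := schur'

theorem irr_main : S_IRR := Pool.Agent.Y914.NV.irr

/-- **Normal subgroups of index `p`.** -/
theorem index_main {p : ℕ} [Fact p.Prime] {F : Type} [Field F] [IsAlgClosed F] [CharP F p]
    (red : integralClosure ℤ ℂ →+* F) {Γ : Type} [Group Γ] [Finite Γ] (G : Subgroup Γ) [G.Normal]
    (hG : Nat.card (Γ ⧸ G) = p) {B : (G → F) → F} (hB : IsBlock B) (hI : IsInvBlock G B)
    {B₁ : (Γ → F) → F} (hB₁ : IsBlock B₁)
    (hcov : ∀ z : Γ → F, InZ G z → B₁ z = B (fun x => z x)) :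
    p * numIrrBlock B₁ = numIrrBlock B + (p - 1) * numIBr G B ∧
    p * (∑ᶠ c : Quotient (pSubgroupSetoid p Γ), numWtBlock p red c.out.1 B₁) =
      (∑ᶠ c : Quotient (pSubgroupSetoid p G), numWtBlock p red c.out.1 B) +
      (p - 1) * ∑ᶠ c : Quotient (pSubgroupSetoid p Γ),
        (if G ⊔ c.out.1 = ⊤ then numDz p red G c.out.1 B else 0) := by
  have : Fintype Γ := Fintype.ofFinite Γ
  have hInf : Infinite F := inferInstance
  -- the blocks of the irreducible traces
  have hfin1 : Finite {φ : (⊤ : Subgroup Γ) → F // IsIrrTrace φ} :=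
    (irr_main F (⊤ : Subgroup Γ)).1.to_subtype
  have hfin2 : Finite {φ : G → F // IsIrrTrace φ} := (irr_main F G).1.to_subtype
  have hfin3 : Finite {φ : (⊤ : Subgroup G) → F // IsIrrTrace φ} :=
    (irr_main F (⊤ : Subgroup G)).1.to_subtype
  choose hne1 B1 hB1 hact1 using
    fun φ : {φ : (⊤ : Subgroup Γ) → F // IsIrrTrace φ} => schur_main F (⊤ : Subgroup Γ) φ.1 φ.2
  choose hne2 B2 hB2 hact2 using
    fun φ : {φ : G → F // IsIrrTrace φ} => schur_main F G φ.1 φ.2
  choose hne3 B3 hB3 hact3 using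
    fun φ : {φ : (⊤ : Subgroup G) → F // IsIrrTrace φ} => schur_main F (⊤ : Subgroup G) φ.1 φ.2
  have hfin4 : ∀ Q : Subgroup Γ, Finite {χ : Subgroup.normalizer (Q : Set Γ) → ℂ //
      IsIrreducibleCharacter χ} := by
    intro Q
    have : Fintype (Subgroup.normalizer (Q : Set Γ)) := Fintype.ofFinite _
    exact (Pool.Agent.Helper884.IC.irr_finite
      (G := Subgroup.normalizer (Q : Set Γ))).to_subtype
  have hfin5 : ∀ Q : Subgroup G, Finite {χ : Subgroup.normalizer (Q : Set G) → ℂ //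
      IsIrreducibleCharacter χ} := by
    intro Q
    have : Fintype (Subgroup.normalizer (Q : Set G)) := Fintype.ofFinite _
    exact (Pool.Agent.Helper884.IC.irr_finite
      (G := Subgroup.normalizer (Q : Set G))).to_subtype
  -- the labels
  let I : Type := ({φ : (⊤ : Subgroup Γ) → F // IsIrrTrace φ} ⊕ {φ : G → F // IsIrrTrace φ} ⊕
      {φ : (⊤ : Subgroup G) → F // IsIrrTrace φ}) ⊕
    ((Σ Q : Subgroup Γ, {χ : Subgroup.normalizer (Q : Set Γ) → ℂ // IsIrreducibleCharacter χ}) ⊕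
    (Σ Q : Subgroup G, {χ : Subgroup.normalizer (Q : Set G) → ℂ // IsIrreducibleCharacter χ}))
  let μ : I → (ZG F G →ₗ[F] F) := fun i =>
    Sum.elim (Sum.elim (fun φ => B286.blkN (hB1 φ))
      (Sum.elim (fun φ => blkF (hB2 φ)) (fun φ => blkG (hB3 φ))))
      (Sum.elim (fun q => wtF G red _ q.2.1) (fun q => wtG red _ q.2.1)) i
  obtain ⟨z, hz⟩ := exists_sep μ (blkF hB)
  set c : F := blkF hB z with hc
  have hfrob : ∀ {B' : (Γ → F) → F}, IsBlock B' →
      (∀ z' : Γ → F, InZ G z' → B' z' = B (fun x => z' x)) → ∀ f : Γ → F, IsClassFun f →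
      B' f = B₁ f := by
    intro B' hB' h f hf
    exact B286.frob p hG hB' hB₁ (fun z' hz' => (h z' hz').trans (hcov z' hz').symm) f hf
  have hrinj : ∀ {B' : (G → F) → F}, IsBlock B' →
      (∀ z' : Γ → F, InZ G z' → B' (fun x => z' x) = B (fun x => z' x)) → ∀ f : G → F,
      IsClassFun f → B' f = B f := by
    intro B' hB' h f hf
    exact rinj' G hB hB' hI (fun z' hz' => (h z' hz').symm) f hf
  -- the characters
  have hL1 : Lsum (⊤ : Subgroup Γ) ⊤ z.1 c = (Nat.card Γ : ℤ) * numIrrBlock B₁ := by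
    refine ltop B₁ z.1 c z.2.conj (hcov z.1 z.2) fun φ hφ hzφ f' hf' x => ?_
    obtain ⟨y, hy⟩ := hne1 ⟨φ, hφ⟩
    have h4 : B1 ⟨φ, hφ⟩ (fun x : (⊤ : Subgroup Γ) => z.1 x) = c := by
      have h5 := hact1 ⟨φ, hφ⟩ (fun x : (⊤ : Subgroup Γ) => z.1 x) (res_classFun z.2 ⊤) y
      exact mul_right_cancel₀ hy (h5.symm.trans (hzφ y))
    have h5 : B286.blkN (G := G) (hB1 ⟨φ, hφ⟩) = blkF hB := hz (Sum.inl (Sum.inl ⟨φ, hφ⟩)) h4
    have h6 := hfrob (B286.flat_block (hB1 ⟨φ, hφ⟩)) (fun z' hz' =>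
      LinearMap.congr_fun h5 (⟨z', hz'⟩ : ZG F G))
    have h7 : B1 ⟨φ, hφ⟩ f' = up B₁ f' :=
      h6 (fun x : Γ => f' ⟨x, trivial⟩) (fun g x => hf' ⟨g, trivial⟩ ⟨x, trivial⟩)
    rw [← h7]
    exact hact1 ⟨φ, hφ⟩ f' hf' x
  have hL2 : Lsum G ⊤ z.1 c = (Nat.card Γ : ℤ) * numIBr G B := by
    refine lnav B z.1 c z.2 rfl fun φ hφ hzφ f' hf' x => ?_
    obtain ⟨y, hy⟩ := hne2 ⟨φ, hφ⟩
    have h4 : B2 ⟨φ, hφ⟩ (fun x : G => z.1 x) = c := by
      have h5 := hact2 ⟨φ, hφ⟩ (fun x : G => z.1 x) (res_classFun z.2 G) y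
      exact mul_right_cancel₀ hy (h5.symm.trans (hzφ y))
    have h5 : blkF (hB2 ⟨φ, hφ⟩) = blkF hB := hz (Sum.inl (Sum.inr (Sum.inl ⟨φ, hφ⟩))) h4
    have h6 := hrinj (hB2 ⟨φ, hφ⟩) (fun z' hz' => LinearMap.congr_fun h5 (⟨z', hz'⟩ : ZG F G))
    rw [← h6 f' hf']
    exact hact2 ⟨φ, hφ⟩ f' hf' x
  have hL3 : Lsum (⊤ : Subgroup G) ⊤ (fun x : G => z.1 x) c =
      (Nat.card G : ℤ) * numIrrBlock B := by
    refine ltop B (fun x : G => z.1 x) c (res_classFun z.2 G) rfl fun φ hφ hzφ f' hf' x => ?_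
    obtain ⟨y, hy⟩ := hne3 ⟨φ, hφ⟩
    have h4 : B3 ⟨φ, hφ⟩ (fun x : (⊤ : Subgroup G) => z.1 (x : G)) = c := by
      have h5 := hact3 ⟨φ, hφ⟩ (fun x : (⊤ : Subgroup G) => z.1 (x : G))
        (fun g x => z.2.conj g x) y
      exact mul_right_cancel₀ hy (h5.symm.trans (hzφ y))
    have h5 : blkG (hB3 ⟨φ, hφ⟩) = blkF hB := hz (Sum.inl (Sum.inr (Sum.inr ⟨φ, hφ⟩))) h4
    have h6 := hrinj (B286.flat_block (hB3 ⟨φ, hφ⟩)) (fun z' hz' =>
      LinearMap.congr_fun h5 (⟨z', hz'⟩ : ZG F G))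
    have h7 : B3 ⟨φ, hφ⟩ f' = up B f' :=
      h6 (fun x : G => f' ⟨x, trivial⟩) (fun g x => hf' ⟨g, trivial⟩ ⟨x, trivial⟩)
    rw [← h7]
    exact hact3 ⟨φ, hφ⟩ f' hf' x
  -- the weights
  have hW1 := wtop (p := p) red B₁ z.1 c z.2.conj (hcov z.1 z.2) (fun Q hQ χ hw hv f' hf' => by
    have h5 : wtF G red _ χ = blkF hB := hz (Sum.inr (Sum.inl ⟨Q, χ, hw.irr⟩)) hv
    exact hfrob (wblk' p F red Γ Q χ hQ hw) (fun z' hz' =>
      LinearMap.congr_fun h5 (⟨z', hz'⟩ : ZG F G)) f' hf')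
  have hW2 := wnav (p := p) red B z.1 c z.2 rfl (fun Q hQ χ hw hv z' hz' => by
    have h5 : wtF G red _ χ = blkF hB := hz (Sum.inr (Sum.inl ⟨Q, χ, hw.irr⟩)) hv
    exact LinearMap.congr_fun h5 (⟨z', hz'⟩ : ZG F G))
  have hW3 := wtop (p := p) red B (fun x : G => z.1 x) c (res_classFun z.2 G) rfl
    (fun Q hQ χ hw hv f' hf' => by
    have h5 : wtG red _ χ = blkF hB := hz (Sum.inr (Sum.inr ⟨Q, χ, hw.irr⟩)) hv
    exact hrinj (wblk' p F red G Q χ hQ hw) (fun z' hz' =>
      LinearMap.congr_fun h5 (⟨z', hz'⟩ : ZG F G)) f' hf')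
  -- the numbers
  have hcard : (Nat.card Γ : ℤ) = p * Nat.card G := by
    rw [Subgroup.card_eq_card_quotient_mul_card_subgroup G, hG, Nat.cast_mul]
  have hp1 : 1 ≤ p := (Fact.out : p.Prime).one_le
  have hp0 : (p : ℤ) ≠ 0 := by exact_mod_cast (Fact.out : p.Prime).ne_zero
  have hG0 : (Nat.card G : ℤ) ≠ 0 := by exact_mod_cast Nat.card_pos.ne'
  have k1 := pell' p F Γ G z.1 c hG z.2
  have k2 := pewL' p F red Γ G z.1 c hG z.2
  rw [hL1, hL2, hL3, hcard] at k1
  rw [hW1, hW2, hW3, hcard] at k2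
  have hpG : (p : ℤ) * Nat.card G ≠ 0 := mul_ne_zero hp0 hG0
  constructor
  · have h1 : (p : ℤ) * numIrrBlock B₁ = numIrrBlock B + ((p : ℤ) - 1) * numIBr G B := by
      refine mul_left_cancel₀ hpG ?_
      linear_combination k1
    zify [hp1]
    exact h1
  · refine Nat.cast_injective (R := ℤ) ?_
    push_cast [hp1]
    refine mul_left_cancel₀ hpG ?_
    push_cast at k2
    linear_combination k2

/-- the number of `Γ`-classes of pairs `(Q, χ)`, `χ` a weight of `Γ` for the `p`-subgroup `Q` with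
`GQ = Γ` and `Q ∩ G` contained in a defect group of `B`, whose block covers `B`; the right side of
Navarro's equality -/
def numNav (p : ℕ) {F : Type} [Field F] (red : integralClosure ℤ ℂ →+* F) {Γ : Type} [Group Γ]
    (G : Subgroup Γ) (B : (G → F) → F) : ℕ :=
  ∑ᶠ c : Quotient (pSubgroupSetoid p Γ),
    if G ⊔ c.out.1 = ⊤ ∧ InDefect p G B c.out.1 then numDz p red G c.out.1 B else 0

/-- the number of classes of weights in the block `B` of `G` -/
def numWts (p : ℕ) {F : Type} [Field F] (red : integralClosure ℤ ℂ →+* F) {G : Type} [Group G]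
    (B : (G → F) → F) : ℕ :=
  ∑ᶠ c : Quotient (pSubgroupSetoid p G), numWtBlock p red c.out.1 B

theorem numNav_eq {p : ℕ} [Fact p.Prime] {F : Type} [Field F] [IsAlgClosed F] [CharP F p]
    (red : integralClosure ℤ ℂ →+* F) {Γ : Type} [Group Γ] [Finite Γ] (G : Subgroup Γ) [G.Normal]
    {B : (G → F) → F} (hB : IsBlock B) (hI : IsInvBlock G B) :
    numNav p red G B = ∑ᶠ c : Quotient (pSubgroupSetoid p Γ),
        (if G ⊔ c.out.1 = ⊤ then numDz p red G c.out.1 B else 0) := by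
  refine finsum_congr fun c => ?_
  by_cases h1 : G ⊔ c.out.1 = ⊤
  · by_cases h2 : InDefect p G B c.out.1
    · rw [if_pos ⟨h1, h2⟩, if_pos h1]
    · rw [if_neg (fun h => h2 h.2), if_pos h1]
      by_contra h3
      exact h2 (wdef' p F red Γ G B hB hI c.out.1 c.out.2 (fun h => h3 h.symm))
  · rw [if_neg (fun h => h1 h.1), if_neg h1]

/-- **Normal subgroups of index `p`**, second form. -/
theorem index_theta {p : ℕ} [Fact p.Prime] {F : Type} [Field F] [IsAlgClosed F] [CharP F p]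
    (red : integralClosure ℤ ℂ →+* F) {Γ : Type} [Group Γ] [Finite Γ] (G : Subgroup Γ) [G.Normal]
    (hG : Nat.card (Γ ⧸ G) = p) {B : (G → F) → F} (hB : IsBlock B) (hI : IsInvBlock G B)
    {B₁ : (Γ → F) → F} (hB₁ : IsBlock B₁)
    (hcov : ∀ z : Γ → F, InZ G z → B₁ z = B (fun x => z x)) :
    p * numIrrBlock B₁ = numIrrBlock B + (p - 1) * numIBr G B ∧
    p * numWts p red B₁ = numWts p red B + (p - 1) * numNav p red G B := by
  have h := index_main red G hG hB hI hB₁ hcov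
  rw [numNav_eq red G hB hI]
  exact h

end Pool.Agent.X282.KRB
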