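import Pool.Agent.X282.KRB.KDim
import Pool.Agent.Y63.NV.Wblk930

/-!
# Brauer induction from the stabilisers of chains of `p`-subgroups

Proof of S_KBLK (file Y63.NV.Stm5): for an irreducible character `χ` of the stabiliser of a chain
of nontrivial `p`-subgroups the induced block `bl(χ)^G` is defined.
-/

set_option autoImplicit false
set_option linter.unusedSectionVars false

open scoped Classical

noncomputable section

namespace Pool.Agent.X282.KRB

open Pool.Agent.Y63.NV
open Pool.Agent.Y63.NV.B930 (fx mem_fx sum_fixed)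
open Pool.Agent.Y63.AWC (IsIrreducibleCharacter)
open Pool.Agent.Y63.KR (IsPChain chainStabilizer)
open Pool.Agent.Y930.NV (cvh Cf cv cv_eq_conv Cf_cv)

section
variable {F : Type} [Field F] {J : Type} [Group J]

/-- the space of the class functions -/
def CF (F : Type) [Field F] (J : Type) [Group J] : Submodule F (J → F) where
  carrier := {f | IsClassFun f}
  zero_mem' := fun _ _ => rfl
  add_mem' := fun {a b} ha hb g x => by
    change a (g * x * g⁻¹) + b (g * x * g⁻¹) = a x + b x
    rw [ha g x, hb g x]
  smul_mem' := fun c a ha g x => by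
    change c • a (g * x * g⁻¹) = c • a x
    rw [ha g x]

/-- convolution with `d` -/
def Mc [Fintype J] (d : J → F) : Module.End F (J → F) where
  toFun := fun v x => ∑ y : J, d y * v (y⁻¹ * x)
  map_add' := fun v w => by
    funext x
    simp only [Pi.add_apply, mul_add]
    exact Finset.sum_add_distrib
  map_smul' := fun c v => by
    funext x
    simp only [Pi.smul_apply, smul_eq_mul, RingHom.id_apply, Finset.mul_sum]
    refine Finset.sum_congr rfl fun y _ => ?_
    ring

theorem Mc_apply [Fintype J] (d v : J → F) (x : J) : Mc d v x = ∑ y : J, d y * v (y⁻¹ * x) := rfl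

theorem Mc_conv [Fintype J] (d v : J → F) : Mc d v = conv d v := by
  rw [cv_eq_conv]
  rfl

theorem cf_single : IsClassFun (Pi.single (1 : J) (1 : F)) := by
  intro g x
  by_cases hx : x = 1
  · subst hx
    rw [mul_one, mul_inv_cancel]
  · rw [Pi.single_eq_of_ne hx, Pi.single_eq_of_ne]
    intro h
    apply hx
    rw [mul_inv_eq_one] at h
    exact mul_eq_left.1 h

/-- Blocks vanish on the class functions which vanish on the centraliser of a normal
`p`-subgroup. -/
theorem blk_vanish {p : ℕ} [Fact p.Prime] [CharP F p] [Finite J] {B : (J → F) → F}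
    (hB : IsBlock B) {R : Subgroup J} (hR : R.Normal) (hp : IsPGroup p R) {d : J → F}
    (hd : IsClassFun d) (h0 : ∀ x ∈ Subgroup.centralizer (R : Set J), d x = 0) : B d = 0 := by
  have : Fintype J := Fintype.ofFinite J
  by_contra hc
  set c := B d with hcdef
  set δ : J → F := Pi.single 1 1 with hδ
  have hδc : IsClassFun δ := cf_single
  have hcδ : IsClassFun (c • δ) := (CF F J).smul_mem c hδc
  have he : IsClassFun (d - c • δ) := (CF F J).sub_mem hd hcδ
  have hBe : B (d - c • δ) = 0 := by
    have h1 := hB.add (d - c • δ) (c • δ) he hcδ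
    rw [sub_add_cancel, hB.smul c δ hδc, hB.one, mul_one] at h1
    have h2 : B d = c := rfl
    rw [h2] at h1
    exact right_eq_add.1 h1
  have hδv : ∀ v : J → F, Mc δ v = v := by
    intro v
    funext x
    rw [Mc_apply, Finset.sum_eq_single (1 : J)]
    · rw [hδ, Pi.single_eq_same, one_mul, inv_one, one_mul]
    · intro y _ hy
      rw [hδ, Pi.single_eq_of_ne hy, zero_mul]
    · intro h
      exact absurd (Finset.mem_univ _) h
  have hMe : ∀ v : J → F, Mc (d - c • δ) v = Mc d v - c • v := by
    intro v
    have h1 : Mc (d - c • δ) v = Mc d v - c • Mc δ v := by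
      funext x
      rw [Pi.sub_apply, Pi.smul_apply, Mc_apply, Mc_apply, Mc_apply, smul_eq_mul, Finset.mul_sum,
        ← Finset.sum_sub_distrib]
      refine Finset.sum_congr rfl fun y _ => ?_
      rw [Pi.sub_apply, Pi.smul_apply, smul_eq_mul]
      ring
    rw [h1, hδv]
  -- an eigenvector
  have h2 : ∃ v : J → F, v ≠ 0 ∧ Mc d v = c • v := by
    by_contra hno
    push Not at hno
    let T : CF F J →ₗ[F] CF F J := (Mc (d - c • δ)).restrict (fun v hv => by
      rw [Mc_conv, cv_eq_conv]
      exact Cf_cv he hv)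
    have hinj : Function.Injective T := by
      rw [← LinearMap.ker_eq_bot, LinearMap.ker_eq_bot']
      intro v hv
      by_contra hv0
      have h3 : Mc (d - c • δ) v.1 = 0 := congrArg Subtype.val hv
      rw [hMe, sub_eq_zero] at h3
      exact hno v.1 (fun h => hv0 (Subtype.ext h)) h3
    obtain ⟨w, hw⟩ := LinearMap.injective_iff_surjective.1 hinj ⟨δ, hδc⟩
    have h3 : conv (d - c • δ) w.1 = δ := by
      rw [← Mc_conv]
      exact congrArg Subtype.val hw
    have h4 := hB.mul _ w.1 he w.2
    rw [h3, hBe, zero_mul, hB.one] at h4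
    exact one_ne_zero h4
  set K := Mc d with hK
  -- left translations by `R` on the eigenspace
  have hE : ∀ v : J → F, v ∈ K.eigenspace c ↔ K v = c • v := fun v =>
    Module.End.mem_eigenspace_iff
  have hst : ∀ (r : R) (v : J → F), v ∈ K.eigenspace c →
      (fun x => v ((r : J)⁻¹ * x)) ∈ K.eigenspace c := by
    intro r v hv
    rw [hE] at hv ⊢
    funext x
    rw [hK, Mc_apply]
    have h3 := congrFun hv ((r : J)⁻¹ * x)
    rw [hK, Mc_apply] at h3
    refine Eq.trans ?_ h3
    refine Fintype.sum_equiv (MulAut.conj (r : J)⁻¹).toEquiv _ _ fun g => ?_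
    have e1 : (MulAut.conj (r : J)⁻¹).toEquiv g = (r : J)⁻¹ * g * (r : J)⁻¹⁻¹ := rfl
    rw [e1, hd]
    congr 2
    group
  let ρ : Representation F R (K.eigenspace c) :=
    { toFun := fun r =>
        { toFun := fun v => ⟨fun x => v.1 ((r : J)⁻¹ * x), hst r v.1 v.2⟩
          map_add' := fun v w => rfl
          map_smul' := fun a v => rfl }
      map_one' := by
        ext v x
        change v.1 (((1 : R) : J)⁻¹ * x) = v.1 x
        rw [Subgroup.coe_one, inv_one, one_mul]
      map_mul' := fun r s => by
        ext v x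
        change v.1 (((r * s : R) : J)⁻¹ * x) = v.1 ((s : J)⁻¹ * ((r : J)⁻¹ * x))
        rw [Subgroup.coe_mul, mul_inv_rev, mul_assoc] }
  have : Nontrivial (K.eigenspace c) := by
    obtain ⟨v, hv, hv'⟩ := h2
    refine ⟨⟨⟨v, (hE v).2 hv'⟩, 0, fun h => hv (congrArg Subtype.val h)⟩⟩
  obtain ⟨v, hv0, hv⟩ := Pool.Agent.Y824.NV.fixed_vector hp ρ
  have hinv : ∀ r ∈ R, ∀ x : J, v.1 (r * x) = v.1 x := by
    intro r hr x
    have h3 := congrFun (congrArg Subtype.val (hv ⟨r⁻¹, R.inv_mem hr⟩)) x
    change v.1 ((r⁻¹)⁻¹ * x) = v.1 x at h3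
    rwa [inv_inv] at h3
  -- the sum
  have hzero : ∀ x : J, K v.1 x = 0 := by
    intro x
    have hKx : K v.1 x = ∑ y : J, d y * v.1 (y⁻¹ * x) := rfl
    rw [hKx]
    let _ : MulAction R J := MulAction.compHom J (MulAut.conj.comp R.subtype)
    have hact : ∀ (q : R) (y : J), q • y = (q : J) * y * (q : J)⁻¹ := fun q y => rfl
    rw [sum_fixed (p := p) (Q := R) (Y := J) hp (fun g => d g * v.1 (g⁻¹ * x)) (by
      intro q y
      rw [hact]
      have e1 : v.1 (((q : J) * y * (q : J)⁻¹)⁻¹ * x) = v.1 (y⁻¹ * x) := by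
        have e2 : ((q : J) * y * (q : J)⁻¹)⁻¹ * x =
            q * ((y⁻¹ * (q : J)⁻¹ * y⁻¹⁻¹) * (y⁻¹ * x)) := by group
        rw [e2, hinv q q.2, hinv _ (hR.conj_mem _ (R.inv_mem q.2) y⁻¹)]
      rw [hd, e1])]
    refine Finset.sum_eq_zero fun g hg => ?_
    rw [h0 g ?_, zero_mul]
    rw [Subgroup.mem_centralizer_iff]
    intro q hq
    have h3 := (mem_fx _).1 hg ⟨q, hq⟩
    rw [hact] at h3
    exact mul_inv_eq_iff_eq_mul.1 h3
  apply hv0
  apply Subtype.ext
  funext x
  have h3 := congrFun ((hE _).1 v.2) x
  rw [hzero] at h3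
  have h4 : c * v.1 x = 0 := h3.symm
  exact (mul_eq_zero.1 h4).resolve_left hc

/-- The value of a block only depends on the restriction to the centraliser of a normal
`p`-subgroup. -/
theorem blk_cut {p : ℕ} [Fact p.Prime] [CharP F p] [Finite J] {B : (J → F) → F}
    (hB : IsBlock B) {R : Subgroup J} (hR : R.Normal) (hp : IsPGroup p R) {f : J → F}
    (hf : IsClassFun f) (hcut : IsClassFun (cut f (Subgroup.centralizer (R : Set J)))) :
    B f = B (cut f (Subgroup.centralizer (R : Set J))) := by
  set g := cut f (Subgroup.centralizer (R : Set J)) with hg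
  have hd : IsClassFun (f - g) := (CF F J).sub_mem hf hcut
  have h1 := hB.add g (f - g) hcut hd
  rw [add_sub_cancel] at h1
  rw [h1, blk_vanish hB hR hp hd ?_, add_zero]
  intro x hx
  rw [Pi.sub_apply, hg]
  unfold cut
  rw [if_pos hx, sub_self]

end

/-- Brauer induction from a subgroup `N` with `C_G(Q) ≤ N ≤ N_G(Q)`. -/
theorem ind_blk {p : ℕ} [Fact p.Prime] {F : Type} [Field F] [CharP F p]
    {G : Type} [Group G] [Finite G] {Q N : Subgroup G}
    (hQ : IsPGroup p Q) (hQN : Q ≤ N) (hCN : Subgroup.centralizer (Q : Set G) ≤ N)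
    (hNN : N ≤ Subgroup.normalizer (Q : Set G)) {B : (N → F) → F} (hblk : IsBlock B) :
    IsBlock (fun f : G → F => B (fun x => f x)) := by
  have : Fintype G := Fintype.ofFinite G
  set QJ := Q.subgroupOf N with hQJ
  have hnorm : QJ.Normal := by
    refine ⟨fun q hq g => ?_⟩
    rw [hQJ, Subgroup.mem_subgroupOf] at hq ⊢
    exact (Subgroup.mem_normalizer_iff.1 (hNN g.2) q).1 hq
  have hpg : IsPGroup p QJ := by
    rw [hQJ]
    exact hQ.comap_subtype
  have hres : ∀ f : G → F, IsClassFun f → IsClassFun (fun x : N => f x) := by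
    intro f hf g x
    exact hf g x
  have hcut : ∀ f : G → F, IsClassFun f →
      IsClassFun (cut (fun x : N => f x) (Subgroup.centralizer (QJ : Set N))) := by
    intro f hf g x
    unfold cut
    have e : g * x * g⁻¹ ∈ Subgroup.centralizer (QJ : Set N) ↔
        x ∈ Subgroup.centralizer (QJ : Set N) := by
      rw [Subgroup.mem_centralizer_iff, Subgroup.mem_centralizer_iff]
      constructor
      · intro h q hq
        have h3 := h (g * q * g⁻¹) (hnorm.conj_mem q hq g)
        have h4 : g * (q * x) * g⁻¹ = g * (x * q) * g⁻¹ := by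
          have e1 : g * q * g⁻¹ * (g * x * g⁻¹) = g * (q * x) * g⁻¹ := by group
          have e2 : g * x * g⁻¹ * (g * q * g⁻¹) = g * (x * q) * g⁻¹ := by group
          rw [← e1, ← e2]
          exact h3
        exact mul_left_cancel (mul_right_cancel h4)
      · intro h q hq
        have h3 := h (g⁻¹ * q * g) (by
          have := hnorm.conj_mem q hq g⁻¹
          rwa [inv_inv] at this)
        have e1 : q * (g * x * g⁻¹) = g * (g⁻¹ * q * g * x) * g⁻¹ := by group
        have e2 : g * x * g⁻¹ * q = g * (x * (g⁻¹ * q * g)) * g⁻¹ := by group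
        rw [e1, e2, h3]
    simp only [e]
    split_ifs
    · exact hres f hf g x
    · rfl
  have hval : ∀ f : G → F, IsClassFun f → B (fun x => f x) =
      B (cut (fun x : N => f x) (Subgroup.centralizer (QJ : Set N))) := by
    intro f hf
    exact blk_cut hblk hnorm hpg (hres f hf) (hcut f hf)
  refine ⟨?_, ?_, ?_, ?_⟩
  · intro f g hf hg
    exact hblk.add (fun x : N => f x) (fun x : N => g x) (hres f hf) (hres g hg)
  · intro a f hf
    exact hblk.smul a (fun x : N => f x) (hres f hf)
  · have e : (fun x : N => (Pi.single (1 : G) (1 : F) : G → F) x) = Pi.single (1 : N) (1 : F) := by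
      funext x
      by_cases hx : x = 1
      · subst hx
        simp
      · rw [Pi.single_eq_of_ne hx, Pi.single_eq_of_ne]
        intro h
        exact hx (Subtype.ext h)
    show B (fun x : N => (Pi.single (1 : G) (1 : F) : G → F) x) = 1
    rw [e]
    refine Eq.trans (congrArg (B) ?_) hblk.one
    funext x
    unfold Pi.single Function.update
    by_cases hx : x = 1
    · rw [dif_pos hx, dif_pos hx]
    · rw [dif_neg hx, dif_neg hx]
  · intro f g hf hg
    have hconv : IsClassFun (conv f g) := by
      intro h x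
      unfold conv
      rw [finsum_eq_sum_of_fintype, finsum_eq_sum_of_fintype]
      refine Fintype.sum_equiv (MulAut.conj h⁻¹).toEquiv _ _ fun y => ?_
      have e1 : (MulAut.conj h⁻¹).toEquiv y = h⁻¹ * y * h := by simp
      rw [e1]
      have e2 : f (h⁻¹ * y * h) = f y := by
        have := hf h⁻¹ y
        simpa using this
      have e3 : g ((h⁻¹ * y * h)⁻¹ * x) = g (y⁻¹ * (h * x * h⁻¹)) := by
        have := hg h ((h⁻¹ * y * h)⁻¹ * x)
        rw [← this]
        congr 1
        group
      rw [e2, e3]
    show B (fun x : N => conv f g x) =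
      B (fun x : N => f x) * B (fun x : N => g x)
    rw [hval _ hconv, hval f hf, hval g hg, ← hblk.mul _ _ (hcut f hf) (hcut g hg)]
    congr 1
    funext x
    unfold conv
    rw [finsum_eq_sum_of_fintype]
    by_cases hx : x ∈ Subgroup.centralizer (QJ : Set N)
    · unfold cut
      rw [if_pos hx]
      show ∑ᶠ y : G, f y * g (y⁻¹ * x) = ∑ y : N,
        (if y ∈ Subgroup.centralizer (QJ : Set N) then f y else 0) *
          if y⁻¹ * x ∈ Subgroup.centralizer (QJ : Set N) then g ((y⁻¹ * x : N) : G) else 0
      rw [finsum_eq_sum_of_fintype]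
      let _ : MulAction Q G := MulAction.compHom G (MulAut.conj.comp Q.subtype)
      have hact : ∀ (q : Q) (y : G), q • y = (q : G) * y * (q : G)⁻¹ := fun q y => rfl
      have hxq : ∀ q ∈ Q, q * (x : G) = x * q := by
        intro q hq
        have h3 := Subgroup.mem_centralizer_iff.1 hx ⟨q, hQN hq⟩
          (Subgroup.mem_subgroupOf.2 hq)
        exact congrArg Subtype.val h3
      rw [sum_fixed (p := p) (Q := Q) (Y := G) hQ (fun y => f y * g (y⁻¹ * x)) (by
        intro q y
        rw [hact]
        have e1 : g (((q : G) * y * (q : G)⁻¹)⁻¹ * x) = g (y⁻¹ * x) := by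
          have e2 : ((q : G) * y * (q : G)⁻¹)⁻¹ * x = (q : G) * (y⁻¹ * x) * (q : G)⁻¹ := by
            have e3 : (q : G)⁻¹ * (x : G) = x * (q : G)⁻¹ := by
              have := hxq (q : G)⁻¹ (Q.inv_mem q.2)
              exact this
            rw [mul_inv_rev, mul_inv_rev, inv_inv, mul_assoc, mul_assoc, mul_assoc, mul_assoc, e3]
          rw [e2, hg]
        rw [e1, hf])]
      -- the sum over `J`
      symm
      have key : ∀ y : N, ((if y ∈ Subgroup.centralizer (QJ : Set N) then f y else 0) *
          if y⁻¹ * x ∈ Subgroup.centralizer (QJ : Set N) then g ((y⁻¹ * x : N) : G) else 0) =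
          if y ∈ Subgroup.centralizer (QJ : Set N) then f y * g ((y : G)⁻¹ * x) else 0 := by
        intro y
        by_cases hy : y ∈ Subgroup.centralizer (QJ : Set N)
        · have hyx : y⁻¹ * x ∈ Subgroup.centralizer (QJ : Set N) :=
            Subgroup.mul_mem _ (Subgroup.inv_mem _ hy) hx
          rw [if_pos hy, if_pos hy, if_pos hyx]
          rfl
        · rw [if_neg hy, if_neg hy, zero_mul]
      rw [Finset.sum_congr rfl (fun y _ => key y), ← Finset.sum_filter]
      refine Finset.sum_bij (fun y _ => (y : G)) ?_ ?_ ?_ ?_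
      · intro y hy
        have hy2 := (Finset.mem_filter.1 hy).2
        refine (mem_fx _).2 fun q => ?_
        rw [hact]
        have h3 := Subgroup.mem_centralizer_iff.1 hy2 ⟨q.1, hQN q.2⟩
          (Subgroup.mem_subgroupOf.2 q.2)
        have h4 : (q : G) * (y : G) = y * q := congrArg Subtype.val h3
        rw [h4, mul_inv_cancel_right]
      · intro a _ b _ hab
        exact Subtype.ext hab
      · intro b hb
        have hb2 := (mem_fx _).1 hb
        have hbq : ∀ q ∈ Q, q * b = b * q := by
          intro q hq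
          have := hb2 ⟨q, hq⟩
          rw [hact] at this
          exact mul_inv_eq_iff_eq_mul.1 this
        have hbN : b ∈ N := hCN (by
          rw [Subgroup.mem_centralizer_iff]
          exact hbq)
        refine ⟨⟨b, hbN⟩, ?_, rfl⟩
        refine Finset.mem_filter.2 ⟨Finset.mem_univ _, ?_⟩
        rw [Subgroup.mem_centralizer_iff]
        intro q hq
        exact Subtype.ext (hbq q.1 (Subgroup.mem_subgroupOf.1 hq))
      · intro a _
        rfl
    · unfold cut
      rw [if_neg hx]
      symm
      apply Finset.sum_eq_zero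
      intro y _
      by_cases hy : y ∈ Subgroup.centralizer (QJ : Set N)
      · by_cases hyx : y⁻¹ * x ∈ Subgroup.centralizer (QJ : Set N)
        · exfalso
          apply hx
          have := Subgroup.mul_mem _ hy hyx
          rwa [mul_inv_cancel_left] at this
        · rw [if_neg hyx, mul_zero]
      · rw [if_neg hy, zero_mul]


/-- Blocks of isomorphic groups. -/
theorem blk_iso {F : Type} [Field F] {G H : Type} [Group G] [Group H] [Finite G] (e : H ≃* G)
    {B : (H → F) → F} (hB : IsBlock B) : IsBlock (fun f : G → F => B (fun x => f (e x))) := by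
  have hcl : ∀ f : G → F, IsClassFun f → IsClassFun (fun x => f (e x)) := by
    intro f hf g x
    change f (e (g * x * g⁻¹)) = f (e x)
    rw [map_mul, map_mul, map_inv, hf]
  refine ⟨?_, ?_, ?_, ?_⟩
  · intro f g hf hg
    exact hB.add _ _ (hcl f hf) (hcl g hg)
  · intro a f hf
    exact hB.smul a _ (hcl f hf)
  · refine Eq.trans (congrArg B ?_) hB.one
    funext x
    by_cases hx : x = 1
    · subst hx
      rw [map_one, Pi.single_eq_same, Pi.single_eq_same]
    · rw [Pi.single_eq_of_ne hx, Pi.single_eq_of_ne]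
      intro h
      exact hx (e.injective (by rw [h, map_one]))
  · intro f g hf hg
    refine Eq.trans (congrArg B ?_) (hB.mul _ _ (hcl f hf) (hcl g hg))
    funext x
    unfold conv
    rw [← finsum_comp_equiv e.toEquiv]
    refine finsum_congr fun y => ?_
    change f (e y) * g ((e y)⁻¹ * e x) = f (e y) * g (e (y⁻¹ * x))
    rw [map_mul, map_inv]

theorem mem_stab {G : Type} [Group G] {σ : Set (Subgroup G)} {x : G} :
    x ∈ chainStabilizer σ ↔ ∀ P ∈ σ, x ∈ Subgroup.normalizer (P : Set G) := by
  unfold chainStabilizer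
  simp only [Subgroup.mem_iInf]

/-- Brauer induction from the stabiliser of a chain of `p`-subgroups is defined for all blocks. -/
theorem chain_blk {p : ℕ} [Fact p.Prime] {F : Type} [Field F] [CharP F p] :
    ∀ (n : ℕ) (G : Type) [Group G] [Finite G] (σ : Set (Subgroup G)), IsPChain p σ →
      σ.ncard ≤ n → ∀ (H : Type) [Group H] (ι : H →* G), Function.Injective ι →
      ι.range = chainStabilizer σ → ∀ B : (H → F) → F, IsBlock B →
      IsBlock (fun f : G → F => B (fun x => f (ι x))) := by
  intro n
  induction n with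
  | zero =>
    intro G _ _ σ hσ hn H _ ι hι hr B hB
    have h0 : σ = ∅ := (Set.ncard_eq_zero (Set.toFinite _)).1 (Nat.le_zero.1 hn)
    subst h0
    have h1 : Function.Surjective ι := by
      rw [← MonoidHom.range_eq_top, hr]
      rw [eq_top_iff]
      intro x _
      exact mem_stab.2 fun P hP => absurd hP (Set.notMem_empty P)
    exact blk_iso (MulEquiv.ofBijective ι ⟨hι, h1⟩) hB
  | succ n ih =>
    intro G _ _ σ hσ hn H _ ι hι hr B hB
    rcases Set.eq_empty_or_nonempty σ with h0 | hne
    · exact ih G σ hσ (by rw [h0, Set.ncard_empty]; exact Nat.zero_le _) H ι hι hr B hB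
    obtain ⟨Q, hQ, hmax⟩ : ∃ Q ∈ σ, ∀ P ∈ σ, P ≤ Q := by
      obtain ⟨Q, hQ⟩ := (Set.toFinite σ).exists_maximal hne
      refine ⟨Q, hQ.1, fun P hP => ?_⟩
      rcases eq_or_ne P Q with h | h
      · rw [h]
      · rcases hσ.chain hP hQ.1 h with h1 | h1
        · exact h1
        · exact hQ.2 hP h1
    set A := Subgroup.normalizer (Q : Set G) with hA
    have hQA : Q ≤ A := Subgroup.le_normalizer
    have hmem : ∀ x : H, ι x ∈ chainStabilizer σ := fun x => by
      rw [← hr]
      exact ⟨x, rfl⟩
    let ι' : H →* A := ι.codRestrict A (fun x => mem_stab.1 (hmem x) Q hQ)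
    set σ' : Set (Subgroup A) := (fun P : Subgroup G => P.subgroupOf A) '' (σ \ {Q}) with hσ'
    have hch : IsPChain p σ' := by
      refine ⟨?_, ?_, ?_⟩
      · rintro _ ⟨P, hP, rfl⟩ _ ⟨P', hP', rfl⟩ hPP
        have h1 : P ≠ P' := fun h => hPP (by rw [h])
        rcases hσ.chain hP.1 hP'.1 h1 with h2 | h2
        · exact Or.inl (fun x hx => h2 hx)
        · exact Or.inr (fun x hx => h2 hx)
      · rintro _ ⟨P, hP, rfl⟩
        exact (hσ.isPGroup P hP.1).comap_subtype
      · rintro _ ⟨P, hP, rfl⟩ h
        apply hσ.ne_bot P hP.1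
        rw [Subgroup.subgroupOf_eq_bot] at h
        rw [eq_bot_iff]
        exact h le_rfl ((hmax P hP.1).trans hQA)
    have hcard : σ'.ncard ≤ n := by
      have h1 : σ'.ncard ≤ (σ \ {Q}).ncard := Set.ncard_image_le (Set.toFinite _)
      have h2 : (σ \ {Q}).ncard + 1 = σ.ncard :=
        Set.ncard_sdiff_singleton_add_one hQ (Set.toFinite _)
      omega
    have hr' : ι'.range = chainStabilizer σ' := by
      ext a
      have h1 : a ∈ ι'.range ↔ (a : G) ∈ ι.range := by
        constructor
        · rintro ⟨x, rfl⟩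
          exact ⟨x, rfl⟩
        · rintro ⟨x, hx⟩
          exact ⟨x, Subtype.ext hx⟩
      rw [h1, hr, mem_stab, mem_stab]
      constructor
      · rintro h _ ⟨P, hP, rfl⟩
        have h2 := h P hP.1
        have h3 := Subgroup.subgroupOf_normalizer_eq ((hmax P hP.1).trans hQA)
        rw [← h3]
        exact Subgroup.mem_subgroupOf.2 h2
      · intro h P hP
        rcases eq_or_ne P Q with h4 | h4
        · rw [h4]
          exact a.2
        · have h2 := h _ ⟨P, ⟨hP, h4⟩, rfl⟩
          have h3 := Subgroup.subgroupOf_normalizer_eq ((hmax P hP).trans hQA)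
          rw [← h3] at h2
          exact Subgroup.mem_subgroupOf.1 h2
    have hinj : Function.Injective ι' := fun x y h => hι (congrArg Subtype.val h)
    have hBA := ih A σ' hch hcard H ι' hinj hr' B hB
    exact ind_blk (hσ.isPGroup Q hQ) hQA (Subgroup.centralizer_le_normalizer _) le_rfl hBA

theorem kblk : S_KBLK := by
  intro p _ F _ _ _ red G _ _ σ χ hσ hχ
  exact chain_blk σ.ncard G σ hσ le_rfl (chainStabilizer σ) (chainStabilizer σ).subtype
    Subtype.val_injective (Subgroup.range_subtype _) _ (cvh F red _ χ hχ)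

end Pool.Agent.X282.KRB
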