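import Pool.Agent.X282.KRB.KFilt
import Pool.Agent.Y930.NV.Cen
import Pool.Agent.Helper884.IC.Compl
import Pool.Agent.Y824.NV.LQ

/-!
# The central characters and the multiplicities of eigenvalues

Proof of S_KDIM and S_KDIMH (file Y63.NV.Stm5): the number of the irreducible characters whose
reduced central character takes the value `c` at `z` is the multiplicity of the eigenvalue `c` of
the operator `K` on the class functions in characteristic `p`.
-/

set_option autoImplicit false

open scoped Classical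
open Polynomial

noncomputable section

namespace Pool.Agent.X282.KRB

open Pool.Agent.Y63.NV
open Pool.Agent.Y63.AWC (IsIrreducibleCharacter)
open Pool.Agent.Y930.NV
open Pool.Agent.Helper884.IC (IsIrrChar Irr mem_Irr expand B_irr B_sum_left B_smul_left)

/-! ### Linear algebra -/

theorem finrank_push {F E E₂ : Type} [Field F] [AddCommGroup E] [Module F E] [AddCommGroup E₂]
    [Module F E₂] (ι : E₂ →ₗ[F] E) (hι : Function.Injective ι) (T : Module.End F E)
    (T₂ : Module.End F E₂) (V : Submodule F E) (V₂ : Submodule F E₂) (hV : V = V₂.map ι)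
    (hT₂ : ∀ v ∈ V₂, T₂ v ∈ V₂) (hT : ∀ v ∈ V₂, T (ι v) = ι (T₂ v)) (c : F) :
    Module.finrank F ↥(V ⊓ T.maxGenEigenspace c) =
      Module.finrank F ↥(V₂ ⊓ T₂.maxGenEigenspace c) := by
  have hit : ∀ (k : ℕ) (v : E₂), v ∈ V₂ → ((T₂ - c • (1 : Module.End F E₂)) ^ k) v ∈ V₂ ∧
      ((T - c • (1 : Module.End F E)) ^ k) (ι v) = ι (((T₂ - c • (1 : Module.End F E₂)) ^ k) v) := by
    intro k
    induction k with
    | zero => intro v hv; simpa using hv
    | succ k ih =>
      intro v hv
      have h1 : (T₂ - c • (1 : Module.End F E₂)) v ∈ V₂ := by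
        rw [LinearMap.sub_apply, LinearMap.smul_apply, Module.End.one_apply]
        exact V₂.sub_mem (hT₂ v hv) (V₂.smul_mem c hv)
      have h2 : (T - c • (1 : Module.End F E)) (ι v) =
          ι ((T₂ - c • (1 : Module.End F E₂)) v) := by
        rw [LinearMap.sub_apply, LinearMap.smul_apply, Module.End.one_apply, LinearMap.sub_apply,
          LinearMap.smul_apply, Module.End.one_apply, map_sub, map_smul, hT v hv]
      rw [pow_succ, pow_succ, Module.End.mul_apply, Module.End.mul_apply, h2]
      exact ih _ h1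
  have hmap : V ⊓ T.maxGenEigenspace c = (V₂ ⊓ T₂.maxGenEigenspace c).map ι := by
    rw [hV]
    apply le_antisymm
    · rintro _ ⟨⟨v, hv, rfl⟩, hv2⟩
      refine ⟨v, ⟨hv, ?_⟩, rfl⟩
      rw [SetLike.mem_coe, Module.End.mem_maxGenEigenspace] at hv2 ⊢
      obtain ⟨k, hk⟩ := hv2
      refine ⟨k, hι ?_⟩
      rw [map_zero, ← (hit k v hv).2, hk]
    · rintro _ ⟨v, ⟨hv, hv2⟩, rfl⟩
      refine ⟨⟨v, hv, rfl⟩, ?_⟩
      rw [SetLike.mem_coe, Module.End.mem_maxGenEigenspace] at hv2 ⊢
      obtain ⟨k, hk⟩ := hv2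
      exact ⟨k, by rw [(hit k v hv).2, hk, map_zero]⟩
  rw [hmap]
  exact (LinearEquiv.finrank_eq (Submodule.equivMapOfInjective ι hι _)).symm

/-! ### The class algebra -/

section

variable {J : Type} [Group J] [Fintype J]

/-- the structure constants -/
def MM (C E D : ConjClasses J) : ℤ := ∑ g : J, ind ℤ C g * ind ℤ D (g * E.out)

theorem ind_cast' (A : Type) [CommRing A] (C : ConjClasses J) (g : J) :
    ((ind ℤ C g : ℤ) : A) = ind A C g := by
  unfold ind
  split_ifs <;> simp

theorem MM_apply {A : Type} [CommRing A] {θ : J → A} (hθ : Cf θ) (C E : ConjClasses J) :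
    ∑ g : J, ind A C g * θ (g * E.out) =
      ∑ D : ConjClasses J, ((MM C E D : ℤ) : A) * θ D.out := by
  have h1 : ∀ g : J, ind A C g * θ (g * E.out) =
      ∑ D : ConjClasses J, (ind A C g * ind A D (g * E.out)) * θ D.out := by
    intro g
    rw [Cf_expand hθ (g * E.out), Finset.mul_sum]
    exact Finset.sum_congr rfl fun D _ => by ring
  rw [Finset.sum_congr rfl fun g _ => h1 g, Finset.sum_comm]
  refine Finset.sum_congr rfl fun D _ => ?_
  rw [← Finset.sum_mul]
  congr 1
  unfold MM
  push_cast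
  exact Finset.sum_congr rfl fun g _ => by rw [ind_cast', ind_cast']

theorem om_act {χ : J → ℂ} (h : IsIrreducibleCharacter χ) {f : J → ℂ} (hf : Cf f) (x : J) :
    ∑ g : J, f g * χ (g * x) = om χ f * χ x := by
  obtain ⟨V, _, _, _, ρ, hr, rfl⟩ := h
  have h1 := Tp_eq ρ hr f hf
  have h2 : LinearMap.trace ℂ V (Tp ρ f * ρ x) = ∑ g : J, f g * ρ.character (g * x) := by
    unfold Tp
    rw [Finset.sum_mul, map_sum]
    refine Finset.sum_congr rfl fun g _ => ?_
    rw [smul_mul_assoc, map_smul, smul_eq_mul, ← map_mul]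
    rfl
  rw [← h2, h1, smul_mul_assoc, one_mul, map_smul, smul_eq_mul]
  rfl

/-- the matrix of the generic element of the class algebra -/
def PM (R : Type) [CommRing R] :
    Matrix (ConjClasses J) (ConjClasses J) (MvPolynomial (ConjClasses J) R) :=
  Matrix.of fun E D => ∑ C : ConjClasses J,
    MvPolynomial.X C * ((MM C E D : ℤ) : MvPolynomial (ConjClasses J) R)

theorem PM_map {R S : Type} [CommRing R] [CommRing S] (φ : R →+* S) :
    (PM (J := J) R).map (MvPolynomial.map φ) = PM S := by
  ext1 E D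
  simp [PM]

theorem PM_eval {R S : Type} [CommRing R] [CommRing S] (φ : R →+* S) (f : ConjClasses J → S) :
    (PM (J := J) R).map (MvPolynomial.eval₂Hom φ f) =
      Matrix.of fun E D => ∑ C : ConjClasses J, f C * ((MM C E D : ℤ) : S) := by
  refine Matrix.ext fun E D => ?_
  change MvPolynomial.eval₂Hom φ f (∑ C : ConjClasses J,
    MvPolynomial.X C * ((MM C E D : ℤ) : MvPolynomial (ConjClasses J) R)) =
      ∑ C : ConjClasses J, f C * ((MM C E D : ℤ) : S)
  rw [map_sum]
  refine Finset.sum_congr rfl fun C _ => ?_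
  rw [map_mul, map_intCast, MvPolynomial.eval₂Hom_X']

/-- the character table -/
def Pm : Matrix (ConjClasses J) {χ // χ ∈ Irr J} ℂ := Matrix.of fun D χ => χ.1 D.out

/-- the inverse of the character table -/
def Qm : Matrix {χ // χ ∈ Irr J} (ConjClasses J) ℂ :=
  Matrix.of fun χ D => Pool.Agent.Helper884.IC.B (ind ℂ D) χ.1

theorem PQ : Pm (J := J) * Qm (J := J) = 1 := by
  ext E D
  have h := congrFun (expand (ind ℂ D) (fun g y => Cf_ind ℂ D y g)) E.out
  rw [ind_out, Finset.sum_apply] at h
  rw [Matrix.mul_apply, Matrix.one_apply, h, ← Finset.sum_coe_sort (Irr J)]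
  refine Finset.sum_congr rfl fun χ _ => ?_
  simp only [Pm, Qm, Matrix.of_apply, Pi.smul_apply, smul_eq_mul]
  ring

theorem QP : Qm (J := J) * Pm (J := J) = 1 := by
  ext χ ψ
  have h1 : ψ.1 = ∑ D : ConjClasses J, ψ.1 D.out • ind ℂ D := by
    funext x
    rw [Finset.sum_apply]
    have := Cf_expand (f := ψ.1) (irr_Cf (mem_Irr.1 ψ.2)) x
    rw [this]
    rfl
  have h2 := B_irr (mem_Irr.1 ψ.2) (mem_Irr.1 χ.2)
  rw [Matrix.mul_apply, Matrix.one_apply]
  have h3 : ∑ D : ConjClasses J, Qm χ D * Pm D ψ = Pool.Agent.Helper884.IC.B ψ.1 χ.1 := by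
    conv_rhs => rw [h1]
    rw [B_sum_left]
    refine Finset.sum_congr rfl fun D _ => ?_
    rw [B_smul_left]
    simp only [Pm, Qm, Matrix.of_apply]
    ring
  rw [h3, h2]
  by_cases h : χ = ψ
  · rw [if_pos h, if_pos (by rw [h])]
  · rw [if_neg h, if_neg (fun h' => h (Subtype.ext h'.symm))]

theorem card_eq : Fintype.card (ConjClasses J) = Fintype.card {χ // χ ∈ Irr J} :=
  Matrix.square_of_invertible Pm Qm PQ QP

/-- a numbering of the irreducible characters -/
def sg (J : Type) [Group J] [Fintype J] : ConjClasses J ≃ {χ // χ ∈ Irr J} :=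
  Fintype.equivOfCardEq card_eq

/-- the irreducible characters -/
def ch (i : ConjClasses J) : J → ℂ := (sg J i).1

theorem ch_irr (i : ConjClasses J) : IsIrreducibleCharacter (ch i) := mem_Irr.1 (sg J i).2

/-- the eigenvalues -/
def dg (i : ConjClasses J) : MvPolynomial (ConjClasses J) ℂ :=
  ∑ C : ConjClasses J, MvPolynomial.X C * MvPolynomial.C (om (ch i) (ind ℂ C))

theorem conj_diag :
    ∃ U : (Matrix (ConjClasses J) (ConjClasses J) (MvPolynomial (ConjClasses J) ℂ))ˣ,
      PM ℂ = U.val * Matrix.diagonal dg * U⁻¹.val := by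
  set P' : Matrix (ConjClasses J) (ConjClasses J) ℂ := Pm.submatrix id (sg J) with hP'
  set Q' : Matrix (ConjClasses J) (ConjClasses J) ℂ := Qm.submatrix (sg J) id with hQ'
  have h1 : P' * Q' = 1 := by
    rw [hP', hQ', Matrix.submatrix_mul_equiv, PQ, Matrix.submatrix_one _ Function.injective_id]
  have h2 : Q' * P' = 1 := by
    have := Matrix.submatrix_mul_equiv (Qm (J := J)) Pm (sg J) (Equiv.refl _) (sg J)
    rw [QP, Matrix.submatrix_one _ (sg J).injective] at this
    exact this
  let cc : ℂ →+* MvPolynomial (ConjClasses J) ℂ := MvPolynomial.C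
  let U : (Matrix (ConjClasses J) (ConjClasses J) (MvPolynomial (ConjClasses J) ℂ))ˣ :=
    ⟨P'.map cc, Q'.map cc, by rw [← Matrix.map_mul, h1, Matrix.map_one _ (map_zero _) (map_one _)],
      by rw [← Matrix.map_mul, h2, Matrix.map_one _ (map_zero _) (map_one _)]⟩
  refine ⟨U, ?_⟩
  have h3 : PM ℂ * U.val = U.val * Matrix.diagonal dg := by
    refine Matrix.ext fun E i => ?_
    rw [Matrix.mul_apply, Matrix.mul_diagonal]
    have h4 : ∀ D : ConjClasses J, PM ℂ E D * U.val D i = ∑ C : ConjClasses J,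
        MvPolynomial.X C * MvPolynomial.C (((MM C E D : ℤ) : ℂ) * ch i D.out) := by
      intro D
      change (∑ C : ConjClasses J, MvPolynomial.X C *
        ((MM C E D : ℤ) : MvPolynomial (ConjClasses J) ℂ)) * MvPolynomial.C (ch i D.out) = _
      rw [Finset.sum_mul]
      refine Finset.sum_congr rfl fun C _ => ?_
      rw [MvPolynomial.C_mul, map_intCast, mul_assoc]
    rw [Finset.sum_congr rfl fun D _ => h4 D, Finset.sum_comm]
    change _ = MvPolynomial.C (ch i E.out) * ∑ C : ConjClasses J, _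
    rw [Finset.mul_sum]
    refine Finset.sum_congr rfl fun C _ => ?_
    rw [← Finset.mul_sum, ← map_sum, ← MM_apply (irr_Cf (ch_irr i)) C E,
      om_act (ch_irr i) (Cf_ind ℂ C), MvPolynomial.C_mul]
    ring
  rw [← h3, mul_assoc, Units.mul_inv, mul_one]

theorem charpoly_complex :
    (PM (J := J) ℂ).charpoly = ∏ i : ConjClasses J, (X - C (dg i)) := by
  obtain ⟨U, hU⟩ := conj_diag (J := J)
  rw [hU, Matrix.coe_units_inv, Matrix.charpoly_units_conj, Matrix.charpoly_diagonal]

theorem om_int' {χ : J → ℂ} (h : IsIrreducibleCharacter χ) (C : ConjClasses J) :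
    IsIntegral ℤ (om χ (ind ℂ C)) := by
  have := om_int h (Cf_ind ℤ C)
  rwa [ind_cast] at this

/-- the eigenvalues, integral form -/
def hw (i C : ConjClasses J) : integralClosure ℤ ℂ := ⟨om (ch i) (ind ℂ C), om_int' (ch_irr i) C⟩

theorem charpoly_int :
    (PM (J := J) (integralClosure ℤ ℂ)).charpoly = ∏ i : ConjClasses J,
      (X - C (∑ C : ConjClasses J, MvPolynomial.X C * MvPolynomial.C (hw i C))) := by
  let φ : integralClosure ℤ ℂ →+* ℂ := algebraMap (integralClosure ℤ ℂ) ℂ
  have hφ : Function.Injective φ := fun a b h => Subtype.ext h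
  apply Polynomial.map_injective (MvPolynomial.map φ) (MvPolynomial.map_injective φ hφ)
  rw [← Matrix.charpoly_map, PM_map, charpoly_complex, Polynomial.map_prod]
  refine Finset.prod_congr rfl fun i _ => ?_
  rw [Polynomial.map_sub, Polynomial.map_X, Polynomial.map_C, map_sum]
  congr 2
  refine Finset.sum_congr rfl fun C _ => ?_
  rw [map_mul, MvPolynomial.map_X, MvPolynomial.map_C]
  rfl

/-- the matrix of the operator `K` -/
def Af {F : Type} [Field F] (f : J → F) : Matrix (ConjClasses J) (ConjClasses J) F :=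
  Matrix.of fun E D => ∑ C : ConjClasses J, f C.out * ((MM C E D : ℤ) : F)

theorem charpoly_Af {F : Type} [Field F] (red : integralClosure ℤ ℂ →+* F) (f : J → F) :
    (Af f).charpoly = ∏ i : ConjClasses J, (X - C (centralValue red (ch i) f)) := by
  have h1 := congrArg (Polynomial.map (MvPolynomial.eval₂Hom red (fun C : ConjClasses J => f C.out)))
    (charpoly_int (J := J))
  rw [← Matrix.charpoly_map, PM_eval, Polynomial.map_prod] at h1
  change (Af f).charpoly = _ at h1
  rw [h1]
  refine Finset.prod_congr rfl fun i _ => ?_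
  rw [Polynomial.map_sub, Polynomial.map_X, Polynomial.map_C, map_sum]
  congr 2
  rw [centralValue_eq red (ch_irr i)]
  refine Finset.sum_congr rfl fun C _ => ?_
  rw [map_mul, MvPolynomial.coe_eval₂Hom, MvPolynomial.eval₂_X, MvPolynomial.eval₂_C]
  congr 1
  unfold R
  rw [redC_of red (om_int (ch_irr i) (Cf_ind ℤ C))]
  congr 1
  apply Subtype.ext
  change om (ch i) (ind ℂ C) = om (ch i) _
  rw [ind_cast]

theorem mult_eq {F : Type} [Field F] (red : integralClosure ℤ ℂ →+* F) (f : J → F) (c : F) :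
    (Af f).charpoly.rootMultiplicity c = Knum red f c := by
  rw [charpoly_Af red f, ← Polynomial.count_roots]
  have h1 : (∏ i : ConjClasses J, (X - C (centralValue red (ch i) f))).roots =
      (Finset.univ : Finset (ConjClasses J)).val.map (fun i => centralValue red (ch i) f) := by
    have := Polynomial.roots_multiset_prod_X_sub_C
      ((Finset.univ : Finset (ConjClasses J)).val.map (fun i => centralValue red (ch i) f))
    rw [Multiset.map_map] at this
    exact this
  rw [h1, Multiset.count_map]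
  unfold Knum
  have h2 : Nat.card {χ : J → ℂ // IsIrreducibleCharacter χ ∧ centralValue red χ f = c} =
      Nat.card {i : ConjClasses J // c = centralValue red (ch i) f} := by
    symm
    refine Nat.card_congr (Equiv.ofBijective (fun i => ⟨ch i.1, ch_irr i.1, i.2.symm⟩) ⟨?_, ?_⟩)
    · intro i j hij
      have h3 : ch i.1 = ch j.1 := by
        have h0 := congrArg (fun t => t.1) hij
        exact h0
      exact Subtype.ext ((sg J).injective (Subtype.ext h3))
    · rintro ⟨χ, h3, h4⟩
      have h5 : ch ((sg J).symm ⟨χ, mem_Irr.2 h3⟩) = χ := by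
        unfold ch
        rw [Equiv.apply_symm_apply]
      exact ⟨⟨(sg J).symm ⟨χ, mem_Irr.2 h3⟩, by rw [h5, h4]⟩, Subtype.ext h5⟩
  rw [h2, Nat.card_eq_fintype_card, Fintype.card_subtype]
  rfl

/-- functions of the class as functions -/
def eM (F : Type) [Field F] : (ConjClasses J → F) →ₗ[F] (J → F) where
  toFun w x := w (ConjClasses.mk x)
  map_add' _ _ := rfl
  map_smul' _ _ := rfl

theorem eM_apply {F : Type} [Field F] (w : ConjClasses J → F) (x : J) :
    eM F w x = w (ConjClasses.mk x) := rfl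

theorem eM_cf {F : Type} [Field F] (w : ConjClasses J → F) : Cf (eM F w : J → F) := by
  intro g x
  rw [eM_apply, eM_apply, mk_conj]

theorem eM_inj (F : Type) [Field F] : Function.Injective (eM (J := J) F) := by
  intro v w h
  funext C
  have := congrFun h C.out
  rwa [eM_apply, eM_apply, mk_out] at this

theorem eM_range {F : Type} [Field F] :
    (VS Set.univ (⊤ : Subgroup J) : Submodule F (J → F)) = (⊤ : Submodule F _).map (eM F) := by
  ext v
  constructor
  · intro hv
    refine ⟨fun C => v C.out, trivial, ?_⟩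
    funext x
    rw [eM_apply]
    exact Cf_out (f := v) (fun g x => hv.2 g trivial x) rfl
  · rintro ⟨w, _, rfl⟩
    exact ⟨fun x hx => absurd (Set.mem_univ x) hx, fun g _ x => eM_cf w g x⟩

theorem kop_eM {F : Type} [Field F] {f : J → F} (hf : Cf f) (w : ConjClasses J → F) :
    Kop f Set.univ (eM F w) = eM F ((Af f).mulVec w) := by
  have hc : Kop f Set.univ (eM F w) ∈ VS Set.univ (⊤ : Subgroup J) :=
    kop_mem (fun h _ x => hf h x) (fun _ _ _ _ => Set.mem_univ _)
      (show (eM F w : J → F) ∈ VS Set.univ (⊤ : Subgroup J) from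
        ⟨fun x hx => absurd (Set.mem_univ x) hx, fun g _ x => eM_cf w g x⟩)
  funext x
  rw [eM_apply, ← Cf_out (f := Kop f Set.univ (eM F w)) (fun g x => hc.2 g trivial x)
    (rfl : ConjClasses.mk x = ConjClasses.mk x)]
  set E := ConjClasses.mk x
  rw [kop_apply, if_pos (Set.mem_univ _), finsum_eq_sum_of_fintype]
  have h1 : ∀ g : J, f g * eM F w (g * E.out) =
      ∑ C : ConjClasses J, f C.out * (ind F C g * eM F w (g * E.out)) := by
    intro g
    rw [Cf_expand hf g, Finset.sum_mul]
    exact Finset.sum_congr rfl fun C _ => by ring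
  rw [Finset.sum_congr rfl fun g _ => h1 g, Finset.sum_comm]
  have h2 : ∀ C : ConjClasses J, ∑ g : J, f C.out * (ind F C g * eM F w (g * E.out)) =
      ∑ D : ConjClasses J, f C.out * ((MM C E D : ℤ) : F) * w D := by
    intro C
    rw [← Finset.mul_sum, MM_apply (eM_cf w) C E, Finset.mul_sum]
    refine Finset.sum_congr rfl fun D _ => ?_
    rw [eM_apply, mk_out]
    ring
  rw [Finset.sum_congr rfl fun C _ => h2 C, Finset.sum_comm]
  unfold Matrix.mulVec dotProduct
  refine Finset.sum_congr rfl fun D _ => ?_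
  rw [← Finset.sum_mul]
  rfl

end

theorem kdim : S_KDIM := by
  intro p _ F _ _ _ red J _ _ f c hf
  have : Fintype J := Fintype.ofFinite J
  have hf' : Cf f := hf
  have h1 := finrank_push (eM (J := J) F) (eM_inj F) (Kop f Set.univ) (Matrix.toLin' (Af f))
    (VS Set.univ (⊤ : Subgroup J)) ⊤ eM_range (fun _ _ => trivial)
    (fun v _ => by rw [Matrix.toLin'_apply]; exact kop_eM hf' v) c
  rw [top_inf_eq, LinearMap.finrank_maxGenEigenspace_eq, Matrix.charpoly_toLin', mult_eq red] at h1
  exact h1.symm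

/-- extension by zero -/
def ez (F : Type) [Field F] {Γ : Type} [Group Γ] (H : Subgroup Γ) : (H → F) →ₗ[F] (Γ → F) where
  toFun v x := if hx : x ∈ H then v ⟨x, hx⟩ else 0
  map_add' v w := by
    funext x
    by_cases hx : x ∈ H <;> simp [hx]
  map_smul' c v := by
    funext x
    by_cases hx : x ∈ H <;> simp [hx]

theorem ez_mem {F : Type} [Field F] {Γ : Type} [Group Γ] {H : Subgroup Γ} (v : H → F) (x : H) :
    ez F H v x = v x := dif_pos x.2

theorem ez_notMem {F : Type} [Field F] {Γ : Type} [Group Γ] {H : Subgroup Γ} (v : H → F) {x : Γ}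
    (hx : x ∉ H) : ez F H v x = 0 := dif_neg hx

theorem ez_conj {F : Type} [Field F] {Γ : Type} [Group Γ] {H : Subgroup Γ} {v : H → F}
    (hv : ∀ j x : H, v (j * x * j⁻¹) = v x) {h : Γ} (hh : h ∈ H) (x : Γ) :
    ez F H v (h * x * h⁻¹) = ez F H v x := by
  by_cases hx : x ∈ H
  · have e1 := ez_mem v ⟨x, hx⟩
    have e2 := ez_mem v (⟨h, hh⟩ * ⟨x, hx⟩ * ⟨h, hh⟩⁻¹)
    have e3 : ((⟨h, hh⟩ * ⟨x, hx⟩ * ⟨h, hh⟩⁻¹ : H) : Γ) = h * x * h⁻¹ := rfl
    rw [e3] at e2
    rw [e2, hv]
    exact e1.symm
  · rw [ez_notMem v hx, ez_notMem]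
    intro h1
    apply hx
    have h2 := H.mul_mem (H.mul_mem (H.inv_mem hh) h1) hh
    have e : h⁻¹ * (h * x * h⁻¹) * h = x := by group
    rwa [e] at h2

theorem kdimh : S_KDIMH := by
  intro p _ F _ _ _ red Γ _ _ H z c hinv hsupp
  have : Fintype Γ := Fintype.ofFinite Γ
  rw [kdim p F red H (fun x : H => z x) c (fun g x => hinv g g.2 x)]
  symm
  refine finrank_push (ez F H) ?_ (Kop z (H : Set Γ)) (Kop (fun x : H => z x) Set.univ)
    (VS (H : Set Γ) H) (VS Set.univ (⊤ : Subgroup H)) ?_ ?_ ?_ c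
  · intro v w h
    funext x
    have := congrFun h x
    rwa [ez_mem, ez_mem] at this
  · ext v
    constructor
    · intro hv
      refine ⟨fun x => v x, ⟨fun x hx => absurd (Set.mem_univ x) hx, fun j _ x => hv.2 j j.2 x⟩, ?_⟩
      funext x
      by_cases hx : x ∈ H
      · exact ez_mem (fun x : H => v x) ⟨x, hx⟩
      · rw [ez_notMem _ hx, hv.1 x hx]
    · rintro ⟨w, hw, rfl⟩
      exact ⟨fun x hx => ez_notMem w hx,
        fun j hj x => ez_conj (fun j x => hw.2 j trivial x) hj x⟩
  · intro v hv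
    exact kop_mem (Γ := H) (z := fun x : H => z x) (fun h _ x => hinv h h.2 x)
      (fun _ _ _ _ => Set.mem_univ _) hv
  · intro v hv
    funext x
    by_cases hx : x ∈ H
    · rw [kop_apply, if_pos (show x ∈ (H : Set Γ) from hx)]
      have e1 := ez_mem (Kop (fun x : H => z x) Set.univ v) ⟨x, hx⟩
      have e2 : ez F H (Kop (fun x : H => z x) Set.univ v) x =
        Kop (fun x : H => z x) Set.univ v ⟨x, hx⟩ := e1
      rw [e2, kop_apply, if_pos (Set.mem_univ _),
        Pool.Agent.Y824.NV.finsum_supp H (fun g => z g * ez F H v (g * x)) (fun g hg => by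
          rw [hsupp g hg, zero_mul])]
      refine finsum_congr fun g => ?_
      exact congrArg (fun t => z g * t) (ez_mem v (g * ⟨x, hx⟩))
    · rw [kop_apply, if_neg (by exact hx), ez_notMem _ hx]

end Pool.Agent.X282.KRB
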