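import Pool.Agent.Y85.NV.Filt
import Pool.Agent.Y177.NV.Filta
import Pool.Agent.Y63.NV.Stm5
import Pool.Agent.Y487.NV.La

/-!
# The filtration of the functions on a group by the Sylow subgroups of the centralisers

Proof of S_KFILT (file Y63.NV.Stm5), along the lines of Y85.NV.Filt and Y177.NV.Filta.
-/

set_option autoImplicit false

open scoped Classical Pointwise

noncomputable section

namespace Pool.Agent.X282.KRB

open Pool.Agent.Y63.NV
open Pool.Agent.Y85.NV (cj mem_cj cj_one cj_mul cj_inv_cj cj_mono cj_le cj_pgroup card_cj SYL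
  exists_syl orb Stb stb_orb orb_symm self_orb orb_eq sum_zero rst rst_apply rst_mem VS_mono gen_eq
  card_orb)
open Pool.Agent.Y177.NV (mem_cent card_cent conj_of_conj finrank_eq conj_mem_iff res res_apply
  res_conj sum_conj_eq_zero card_conj)

section

variable {F : Type} [Field F] {Γ : Type} [Group Γ] [Finite Γ]

/-- the elements of `H` whose centraliser in `H` has a Sylow subgroup in `X` -/
def KX (p : ℕ) (H : Subgroup Γ) (X : Set (Subgroup Γ)) : Set Γ :=
  {x | x ∈ H ∧ ∃ R ∈ X, SYL p H x R}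

theorem sa_iff {p : ℕ} [Fact p.Prime] {H R : Subgroup Γ} (hR : R ≤ H) (hp : IsPGroup p R)
    {x : Γ} : x ∈ SA p (H ⊓ Subgroup.normalizer (R : Set Γ)) R ↔ x ∈ H ∧ SYL p H x R := by
  constructor
  · rintro ⟨h1, h3, h4⟩
    exact ⟨(Subgroup.mem_inf.1 h1).1, hR, hp, h3, card_cent hp hR h3 h4⟩
  · rintro ⟨h1, h3⟩
    refine ⟨Subgroup.mem_inf.2 ⟨h1, ?_⟩, h3.cent, ?_⟩
    · apply Subgroup.centralizer_le_normalizer
      rw [Subgroup.mem_centralizer_iff]
      exact h3.cent
    apply le_antisymm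
    · rw [← h3.card]
      refine (Nat.factorization_le_iff_dvd Nat.card_pos.ne' Nat.card_pos.ne').2
        (Subgroup.card_dvd_of_le ?_) p
      exact inf_le_inf_right _ inf_le_left
    · refine (Nat.factorization_le_iff_dvd Nat.card_pos.ne' Nat.card_pos.ne').2
        (Subgroup.card_dvd_of_le ?_) p
      exact le_inf (le_inf hR Subgroup.le_normalizer) (h3.le_cent.trans inf_le_right)

theorem KX_conj {p : ℕ} {H : Subgroup Γ} {X : Set (Subgroup Γ)} (hX : Stb H X)
    {h x : Γ} (hh : h ∈ H) (hx : x ∈ KX p H X) : h * x * h⁻¹ ∈ KX p H X := by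
  obtain ⟨h1, R, hR, h3⟩ := hx
  exact ⟨H.mul_mem (H.mul_mem hh h1) (H.inv_mem hh), cj h R, hX h hh R hR, h3.conj hh⟩

theorem KX_mono {p : ℕ} {H : Subgroup Γ} {X Y : Set (Subgroup Γ)} (h : X ⊆ Y) :
    KX p H X ⊆ KX p H Y := by
  rintro x ⟨h1, R, hR, h3⟩
  exact ⟨h1, R, h hR, h3⟩

theorem KX_union {p : ℕ} {H : Subgroup Γ} (X Y : Set (Subgroup Γ)) :
    KX p H (X ∪ Y) = KX p H X ∪ KX p H Y := by
  ext x
  constructor
  · rintro ⟨h1, R, hR | hR, h3⟩
    · exact Or.inl ⟨h1, R, hR, h3⟩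
    · exact Or.inr ⟨h1, R, hR, h3⟩
  · rintro (hx | hx)
    · exact KX_mono Set.subset_union_left hx
    · exact KX_mono Set.subset_union_right hx

theorem KX_disj {p : ℕ} [Fact p.Prime] {H : Subgroup Γ} {X Y : Set (Subgroup Γ)}
    (hX : Stb H X) (hd : ∀ R ∈ X, R ∉ Y) {x : Γ} (hx : x ∈ KX p H X) : x ∉ KX p H Y := by
  rintro ⟨_, S, hS, h4⟩
  obtain ⟨_, R, hR, h3⟩ := hx
  obtain ⟨h, hh, rfl⟩ := h3.conj_of h4
  exact hd _ (hX h hh R hR) hS

theorem sca_eq {p : ℕ} [Fact p.Prime] {H R : Subgroup Γ} (hR : R ≤ H) (hp : IsPGroup p R) :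
    SCA p H R = KX p H (orb H R) := by
  ext x
  constructor
  · rintro ⟨h, hh, hx⟩
    rw [sa_iff hR hp] at hx
    have h1 : h * x * h⁻¹ ∈ KX p H (orb H R) := ⟨hx.1, R, self_orb H R, hx.2⟩
    have h2 := KX_conj (stb_orb H R) (H.inv_mem hh) h1
    simpa [mul_assoc] using h2
  · rintro ⟨h1, S, ⟨k, hk, rfl⟩, h3⟩
    refine ⟨k⁻¹, H.inv_mem hk, ?_⟩
    rw [sa_iff hR hp]
    refine ⟨H.mul_mem (H.mul_mem (H.inv_mem hk) h1) (H.inv_mem (H.inv_mem hk)), ?_⟩
    have h4 := h3.conj (H.inv_mem hk)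
    rwa [cj_inv_cj] at h4

/-- all `p`-subgroups of `H` -/
def AllP (p : ℕ) (H R : Subgroup Γ) : Prop := IsPGroup p R ∧ R ≤ H

theorem stb_allP {p : ℕ} {H : Subgroup Γ} : Stb H {R | AllP p H R} := by
  rintro h hh R ⟨h1, h2⟩
  exact ⟨cj_pgroup h1, cj_le hh h2⟩

theorem all_eq {p : ℕ} [Fact p.Prime] {H : Subgroup Γ} :
    (H : Set Γ) = KX p H {R | AllP p H R} := by
  ext x
  constructor
  · intro hx
    obtain ⟨R, _, hR⟩ := exists_syl (p := p) (H := H) (x := x) (Q := ⊥) bot_le IsPGroup.of_bot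
      (by rintro r hr; rw [Subgroup.mem_bot.1 hr]; simp)
    exact ⟨hx, R, ⟨hR.pg, hR.le⟩, hR⟩
  · exact fun h => h.1

/-- The key lemma. -/
theorem kkey {p : ℕ} [Fact p.Prime] [CharP F p] {H : Subgroup Γ} {z : Γ → F}
    (hz : ∀ h ∈ H, ∀ x : Γ, z (h * x * h⁻¹) = z x) {X Y : Set (Subgroup Γ)} (hX : Stb H X)
    (hup : ∀ R ∈ Y, ∀ P ∈ X, R ≤ P → P ∈ Y) {w : Γ → F}
    (hw : w ∈ VS (KX p H X \ KX p H Y) H) {x : Γ} (hx : x ∈ KX p H Y) :
    ∑ᶠ g : Γ, z g * w (g * x) = 0 := by
  obtain ⟨_, R, hR, hs⟩ := hx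
  refine sum_zero p R hs.pg _ ?_ ?_
  · intro r hr g
    have h1 : r * g * r⁻¹ * x = r * (g * x) * r⁻¹ := by
      have h2 : r⁻¹ * x = x * r⁻¹ := hs.cent _ (R.inv_mem hr)
      rw [mul_assoc, h2]
      simp [mul_assoc]
    rw [hz r (hs.le hr), h1, hw.2 r (hs.le hr)]
  · intro g hg
    by_contra hcon
    have h1 : w (g * x) ≠ 0 := right_ne_zero_of_mul hcon
    have h2 : g * x ∈ KX p H X \ KX p H Y := by
      by_contra h3
      exact h1 (hw.1 _ h3)
    obtain ⟨⟨h3, R1, hR1, hs1⟩, h5⟩ := h2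
    apply h5
    have h6 : ∀ r ∈ R, r * (g * x) = g * x * r := by
      intro r hr
      rw [← mul_assoc, hg r hr, mul_assoc, hs.cent r hr, mul_assoc]
    obtain ⟨P, hP, hsP⟩ := exists_syl hs.le hs.pg h6
    obtain ⟨h, hh, rfl⟩ := hs1.conj_of hsP
    exact ⟨h3, _, hup R hR _ (hX h hh R1 hR1) hP, hsP⟩

theorem kop_apply (z : Γ → F) (S : Set Γ) (v : Γ → F) (x : Γ) :
    Kop z S v x = if x ∈ S then ∑ᶠ g : Γ, z g * v (g * x) else 0 := rfl

theorem kop_mem {H : Subgroup Γ} {z : Γ → F}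
    (hz : ∀ h ∈ H, ∀ x : Γ, z (h * x * h⁻¹) = z x) {S S' : Set Γ}
    (hS : ∀ h ∈ H, ∀ x ∈ S, h * x * h⁻¹ ∈ S) {v : Γ → F} (hv : v ∈ VS S' H) :
    Kop z S v ∈ VS S H := by
  refine ⟨?_, ?_⟩
  · intro x hx
    rw [kop_apply, if_neg hx]
  · intro h hh x
    rw [kop_apply, kop_apply]
    by_cases hx : x ∈ S
    · rw [if_pos hx, if_pos (hS h hh x hx), ← finsum_comp_equiv (MulAut.conj h).toEquiv]
      refine finsum_congr fun g => ?_
      change z (h * g * h⁻¹) * v (h * g * h⁻¹ * (h * x * h⁻¹)) = _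
      have h1 : h * g * h⁻¹ * (h * x * h⁻¹) = h * (g * x) * h⁻¹ := by group
      rw [hz h hh, h1, hv.2 h hh]
    · have hx' : h * x * h⁻¹ ∉ S := by
        intro hx'
        apply hx
        have h1 := hS _ (H.inv_mem hh) _ hx'
        simpa [mul_assoc] using h1
      rw [if_neg hx, if_neg hx']

/-- One step. -/
theorem gk_step (hLA : S_LA) {p : ℕ} [Fact p.Prime] [IsAlgClosed F] [CharP F p]
    {H : Subgroup Γ} {z : Γ → F}
    (hz : ∀ h ∈ H, ∀ x : Γ, z (h * x * h⁻¹) = z x) {X Y O : Set (Subgroup Γ)}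
    (hY : Stb H Y) (hO : Stb H O) (hX : X = O ∪ Y) (hd : ∀ R ∈ O, R ∉ Y)
    (hup : ∀ R ∈ Y, ∀ P ∈ X, R ≤ P → P ∈ Y) (c : F) :
    gk z (KX p H X) H c = gk z (KX p H O) H c + gk z (KX p H Y) H c := by
  have hXs : Stb H X := by
    rw [hX]
    rintro h hh R (hR | hR)
    · exact Or.inl (hO h hh R hR)
    · exact Or.inr (hY h hh R hR)
  have hOX : KX p H O ⊆ KX p H X := KX_mono (by rw [hX]; exact Set.subset_union_left)
  have hYX : KX p H Y ⊆ KX p H X := KX_mono (by rw [hX]; exact Set.subset_union_right)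
  have hXu : KX p H X = KX p H O ∪ KX p H Y := by rw [hX, KX_union]
  have hOY : KX p H O ⊆ KX p H X \ KX p H Y := fun x hx => ⟨hOX hx, KX_disj hO hd hx⟩
  have cX : ∀ h ∈ H, ∀ x ∈ KX p H X, h * x * h⁻¹ ∈ KX p H X :=
    fun h hh x hx => KX_conj hXs hh hx
  have cY : ∀ h ∈ H, ∀ x ∈ KX p H Y, h * x * h⁻¹ ∈ KX p H Y :=
    fun h hh x hx => KX_conj hY hh hx
  have cO : ∀ h ∈ H, ∀ x ∈ KX p H O, h * x * h⁻¹ ∈ KX p H O :=
    fun h hh x hx => KX_conj hO hh hx
  have h1 := hLA F (Γ → F) (Kop z (KX p H X)) (Kop z (KX p H Y)) (rst (KX p H Y))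
    (VS (KX p H X) H) (VS (KX p H O) H) (VS (KX p H Y) H)
    (fun v hv => kop_mem hz cX hv) (fun v hv => kop_mem hz cY hv) (VS_mono hOX H)
    (fun v hv => rst_mem cY hv)
    (by
      intro w hw
      refine ⟨w, VS_mono hYX H hw, ?_⟩
      funext x
      rw [rst_apply]
      by_cases hx : x ∈ KX p H Y
      · rw [if_pos hx]
      · rw [if_neg hx, hw.1 x hx])
    (by
      intro v hv
      constructor
      · intro h
        refine ⟨?_, hv.2⟩
        intro x hx
        by_cases hx' : x ∈ KX p H Y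
        · have h2 := congrFun h x
          rw [rst_apply, if_pos hx'] at h2
          exact h2
        · apply hv.1
          rw [hXu]
          rintro (h3 | h3)
          · exact hx h3
          · exact hx' h3
      · intro h
        funext x
        rw [rst_apply]
        by_cases hx : x ∈ KX p H Y
        · rw [if_pos hx]
          apply h.1
          intro h3
          exact KX_disj hO hd h3 hx
        · rw [if_neg hx]
          rfl)
    (by
      intro v hv
      funext x
      rw [rst_apply, kop_apply, kop_apply]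
      by_cases hx : x ∈ KX p H Y
      · rw [if_pos hx, if_pos hx, if_pos (hYX hx)]
        have h2 : v - rst (KX p H Y) v ∈ VS (KX p H X \ KX p H Y) H := by
          have h3 : v - rst (KX p H Y) v ∈ VS (KX p H X) H :=
            Submodule.sub_mem _ hv (VS_mono hYX H (rst_mem cY hv))
          refine ⟨?_, h3.2⟩
          intro y hy
          by_cases hy' : y ∈ KX p H Y
          · rw [Pi.sub_apply, rst_apply, if_pos hy', sub_self]
          · exact h3.1 y fun hy2 => hy ⟨hy2, hy'⟩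
        have h3 := kkey hz hXs hup h2 hx
        have h4 : ∑ᶠ g : Γ, z g * v (g * x) =
            ∑ᶠ g : Γ, z g * (v - rst (KX p H Y) v) (g * x) +
              ∑ᶠ g : Γ, z g * rst (KX p H Y) v (g * x) := by
          rw [← finsum_add_distrib (Set.toFinite _) (Set.toFinite _)]
          refine finsum_congr fun g => ?_
          rw [Pi.sub_apply]
          ring
        rw [h4, h3, zero_add]
      · rw [if_neg hx, if_neg hx])
    c
  have h2 : VS (KX p H O) H ⊓ (Kop z (KX p H X)).maxGenEigenspace c =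
      VS (KX p H O) H ⊓ (Kop z (KX p H O)).maxGenEigenspace c := by
    apply gen_eq
    · intro v hv
      funext x
      rw [kop_apply, kop_apply]
      by_cases hx : x ∈ KX p H O
      · rw [if_pos hx, if_pos (hOX hx)]
      · rw [if_neg hx]
        by_cases hx' : x ∈ KX p H X
        · rw [if_pos hx']
          have hx2 : x ∈ KX p H Y := by
            rw [hXu] at hx'
            exact hx'.resolve_left hx
          exact kkey hz hXs hup (VS_mono hOY H hv) hx2
        · rw [if_neg hx']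
    · intro v hv
      exact kop_mem hz cO hv
  rw [h2] at h1
  exact h1

theorem kmain_ind (hLA : S_LA) {p : ℕ} [Fact p.Prime] [IsAlgClosed F] [CharP F p]
    {H : Subgroup Γ} {z : Γ → F}
    (hz : ∀ h ∈ H, ∀ x : Γ, z (h * x * h⁻¹) = z x) (c : F) (X : Finset (Subgroup Γ))
    (hg : ∀ R ∈ X, AllP p H R) (hX : Stb H (X : Set (Subgroup Γ)))
    (hup : ∀ R ∈ X, ∀ P, AllP p H P → R ≤ P → P ∈ X) :
    Nat.card H * gk z (KX p H (X : Set (Subgroup Γ))) H c =
      ∑ R ∈ X, Nat.card ↥(H ⊓ Subgroup.normalizer (R : Set Γ)) *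
        gk z (KX p H (orb H R)) H c := by
  induction X using Finset.strongInduction with
  | H X ih =>
    by_cases hne : X.Nonempty
    · obtain ⟨R0, hR0, hmin⟩ := X.exists_min_image (fun R => Nat.card R) hne
      have hOX : orb H R0 ⊆ (X : Set (Subgroup Γ)) := by
        rintro _ ⟨h, hh, rfl⟩
        exact hX h hh R0 hR0
      let O : Finset (Subgroup Γ) := X.filter (fun R => R ∈ orb H R0)
      let Y : Finset (Subgroup Γ) := X.filter (fun R => R ∉ orb H R0)
      have hO : (O : Set (Subgroup Γ)) = orb H R0 := by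
        ext R
        simp only [O, Finset.coe_filter, Set.mem_ofPred_eq]
        exact ⟨fun h => h.2, fun h => ⟨hOX h, h⟩⟩
      have hYX : Y ⊂ X := by
        refine Finset.filter_ssubset.2 ⟨R0, hR0, ?_⟩
        exact fun h => h (self_orb H R0)
      have hYs : Stb H (Y : Set (Subgroup Γ)) := by
        intro h hh R hR
        have hR' := Finset.mem_filter.1 (Finset.mem_coe.1 hR)
        refine Finset.mem_coe.2 (Finset.mem_filter.2 ⟨hX h hh R hR'.1, ?_⟩)
        intro h3
        apply hR'.2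
        have h4 := stb_orb H R0 _ (H.inv_mem hh) _ h3
        rwa [cj_inv_cj] at h4
      have hYup : ∀ R ∈ Y, ∀ P, AllP p H P → R ≤ P → P ∈ Y := by
        intro R hR P hP hRP
        have hR' := Finset.mem_filter.1 hR
        refine Finset.mem_filter.2 ⟨hup R hR'.1 P hP hRP, ?_⟩
        rintro ⟨k, hk, rfl⟩
        apply hR'.2
        have h3 := hmin R hR'.1
        rw [← card_cj k R0] at h3
        have h4 : R = cj k R0 := Subgroup.eq_of_le_of_card_ge hRP h3
        rw [h4]
        exact ⟨k, hk, rfl⟩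
      have hXu : (X : Set (Subgroup Γ)) = orb H R0 ∪ (Y : Set (Subgroup Γ)) := by
        ext R
        constructor
        · intro hR
          by_cases h : R ∈ orb H R0
          · exact Or.inl h
          · exact Or.inr (Finset.mem_coe.2 (Finset.mem_filter.2 ⟨hR, h⟩))
        · rintro (hR | hR)
          · exact hOX hR
          · exact Finset.mem_coe.2 (Finset.mem_filter.1 (Finset.mem_coe.1 hR)).1
      have h1 := gk_step hLA hz hYs (stb_orb H R0) hXu
        (fun R hR hR' => (Finset.mem_filter.1 (Finset.mem_coe.1 hR')).2 hR)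
        (fun R hR P hP hRP => Finset.mem_coe.2
          (hYup R (Finset.mem_coe.1 hR) P (hg P (Finset.mem_coe.1 hP)) hRP)) c
      have h2 := ih Y hYX (fun R hR => hg R (Finset.mem_filter.1 hR).1) hYs hYup
      have h3 : ∑ R ∈ O, Nat.card ↥(H ⊓ Subgroup.normalizer (R : Set Γ)) *
          gk z (KX p H (orb H R)) H c = Nat.card H * gk z (KX p H (orb H R0)) H c := by
        have h4 : ∀ R ∈ O, Nat.card ↥(H ⊓ Subgroup.normalizer (R : Set Γ)) *
            gk z (KX p H (orb H R)) H c =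
            Nat.card ↥(H ⊓ Subgroup.normalizer (R0 : Set Γ)) *
            gk z (KX p H (orb H R0)) H c := by
          intro R hR
          have h5 : R ∈ orb H R0 := (Finset.mem_filter.1 hR).2
          have h6 := card_orb H R
          rw [orb_eq h5] at h6 ⊢
          have h7 := card_orb H R0
          have h8 : 0 < Nat.card (orb H R0) := by
            have : Nonempty (orb H R0) := ⟨⟨R0, self_orb H R0⟩⟩
            exact Nat.card_pos
          rw [← h7] at h6
          rw [Nat.eq_of_mul_eq_mul_left h8 h6]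
        rw [Finset.sum_congr rfl h4, Finset.sum_const, smul_eq_mul, ← mul_assoc]
        congr 1
        have h5 : O.card = Nat.card (orb H R0) := by
          rw [← hO]
          simp
        rw [h5]
        exact card_orb H R0
      rw [h1, mul_add, h2, ← h3]
      exact Finset.sum_filter_add_sum_filter_not X (fun R => R ∈ orb H R0) _
    · rw [Finset.not_nonempty_iff_eq_empty] at hne
      subst hne
      rw [Finset.sum_empty]
      have h1 : KX p H ((∅ : Finset (Subgroup Γ)) : Set (Subgroup Γ)) = ∅ := by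
        ext x
        simp [KX]
      have h2 : (VS (∅ : Set Γ) H : Submodule F (Γ → F)) = ⊥ := by
        rw [eq_bot_iff]
        intro v hv
        rw [Submodule.mem_bot]
        funext x
        exact hv.1 x (by simp)
      rw [h1, gk, h2, bot_inf_eq, finrank_bot, mul_zero]

end

theorem kfilt (h1 : S_LA) (h2 : S_KFILTA) : S_KFILT := by
  intro p hp F _ _ _ Γ _ _ H z c hinv hsupp
  have : Fintype (Subgroup Γ) := Fintype.ofFinite _
  have h3 := kmain_ind h1 hinv c (Finset.univ.filter (fun R => AllP p H R))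
    (fun R hR => (Finset.mem_filter.1 hR).2)
    (by
      intro h hh R hR
      rw [Finset.coe_filter] at hR ⊢
      exact ⟨Finset.mem_univ _, stb_allP h hh R hR.2⟩)
    (fun R _ P hP _ => Finset.mem_filter.2 ⟨Finset.mem_univ _, hP⟩)
  have h4 : ((Finset.univ.filter (fun R => AllP p H R) : Finset (Subgroup Γ)) :
      Set (Subgroup Γ)) = {R | AllP p H R} := by
    ext R
    simp
  rw [h4, ← all_eq] at h3
  rw [h3, finsum_eq_sum_of_fintype, Finset.sum_filter]
  refine Finset.sum_congr rfl fun R _ => ?_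
  by_cases hR : IsPGroup p R ∧ R ≤ H
  · rw [if_pos hR, if_pos (show AllP p H R from hR),
      ← h2 p F Γ H z c hinv hsupp R hR.1 hR.2, sca_eq hR.2 hR.1]
  · rw [if_neg hR, if_neg (show ¬ AllP p H R from hR)]

/-- one step of the filtration by the Sylow `p`-subgroups of the centralisers -/
theorem kfilta : S_KFILTA := by
  intro p _ F _ _ _ Γ _ _ H z c hinv hsupp R hR hRH
  set J := H ⊓ Subgroup.normalizer (R : Set Γ) with hJ
  set S := SA p J R with hS
  have hJH : J ≤ H := inf_le_left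
  have hRJ : R ≤ J := le_inf hRH Subgroup.le_normalizer
  -- membership
  have hSJ : ∀ j ∈ J, ∀ x ∈ S, j * x * j⁻¹ ∈ S := by
    rintro j hj x ⟨h1, h3, h4⟩
    refine ⟨J.mul_mem (J.mul_mem hj h1) (J.inv_mem hj), fun r hr => ?_, ?_⟩
    · have h5 : j⁻¹ * r * j ∈ R := by
        have := (Subgroup.mem_normalizer_iff''.1 (Subgroup.mem_inf.1 hj).2 r).1 hr
        exact this
      have h6 := h3 _ h5
      calc r * (j * x * j⁻¹) = j * (j⁻¹ * r * j * x) * j⁻¹ := by group
        _ = j * (x * (j⁻¹ * r * j)) * j⁻¹ := by rw [h6]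
        _ = j * x * j⁻¹ * r := by group
    · rw [card_conj hj]; exact h4
  have hSC : ∀ h ∈ H, ∀ x ∈ SCA p H R, h * x * h⁻¹ ∈ SCA p H R := by
    rintro h hh x ⟨k, hk, hkx⟩
    refine ⟨k * h⁻¹, H.mul_mem hk (H.inv_mem hh), ?_⟩
    have h1 : k * h⁻¹ * (h * x * h⁻¹) * (k * h⁻¹)⁻¹ = k * x * k⁻¹ := by group
    rw [h1]
    exact hkx
  have hSSC : S ⊆ SCA p H R := fun x hx => ⟨1, H.one_mem, by simpa using hx⟩
  have hcard : ∀ x ∈ S, (Nat.card ↥(H ⊓ Subgroup.centralizer ({x} : Set Γ))).factorization p =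
      (Nat.card R).factorization p := fun x hx => card_cent hR hRH hx.2.1 hx.2.2
  have hfus : ∀ x ∈ S, ∀ h ∈ H, h * x * h⁻¹ ∈ S → ∃ j ∈ J, h * x * h⁻¹ = j * x * j⁻¹ :=
    fun x hx h hh hx' => conj_of_conj hR hRH hh rfl hx.2.1 hx'.2.1 (hcard _ hx')
  -- the elements of `SCA` which centralise `R` are in `S`
  have hback : ∀ y ∈ H, (∀ r ∈ R, r * y = y * r) → y ∈ SCA p H R → y ∈ S := by
    rintro y hyN hyR ⟨h, hh, hy⟩
    refine ⟨Subgroup.mem_inf.2 ⟨hyN, ?_⟩, hyR, ?_⟩
    · apply Subgroup.centralizer_le_normalizer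
      rw [Subgroup.mem_centralizer_iff]
      exact hyR
    · refine le_antisymm ?_ ?_
      · have h1 := hcard _ hy
        rw [card_conj hh] at h1
        rw [← h1]
        exact (Nat.factorization_le_iff_dvd Nat.card_pos.ne' Nat.card_pos.ne').2
          (Subgroup.card_dvd_of_le (inf_le_inf_right _ hJH)) p
      · exact (Nat.factorization_le_iff_dvd Nat.card_pos.ne' Nat.card_pos.ne').2
          (Subgroup.card_dvd_of_le (le_inf hRJ fun r hr => mem_cent.2 (hyR r hr))) p
  have hcent : ∀ j ∈ J, ∀ x, j * x * j⁻¹ ∈ Subgroup.centralizer (R : Set Γ) ↔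
      x ∈ Subgroup.centralizer (R : Set Γ) := by
    have h1 : ∀ j ∈ J, ∀ x ∈ (Subgroup.centralizer (R : Set Γ) : Set Γ),
        j * x * j⁻¹ ∈ (Subgroup.centralizer (R : Set Γ) : Set Γ) := by
      intro j hj x hx
      rw [SetLike.mem_coe, Subgroup.mem_centralizer_iff] at hx ⊢
      intro r hr
      have h5 : j⁻¹ * r * j ∈ R :=
        (Subgroup.mem_normalizer_iff''.1 (Subgroup.mem_inf.1 hj).2 r).1 hr
      have h6 := hx _ h5
      calc r * (j * x * j⁻¹) = j * (j⁻¹ * r * j * x) * j⁻¹ := by group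
        _ = j * (x * (j⁻¹ * r * j)) * j⁻¹ := by rw [h6]
        _ = j * x * j⁻¹ * r := by group
    intro j hj x
    exact conj_mem_iff h1 hj x
  have hcutJ : ∀ j ∈ J, ∀ x, cut z (Subgroup.centralizer (R : Set Γ)) (j * x * j⁻¹) =
      cut z (Subgroup.centralizer (R : Set Γ)) x := by
    intro j hj x
    simp only [cut, hcent j hj x, hinv j (hJH hj) x]
  refine finrank_eq (Kop z (SCA p H R)) (Kop (cut z (Subgroup.centralizer (R : Set Γ))) S)
    (res S) (VS (SCA p H R) H) (VS S J) ?_ ?_ ?_ ?_ ?_ c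
  · intro θ hθ
    exact kop_mem hinv hSC hθ
  · intro θ hθ
    refine ⟨fun x hx => by rw [res_apply, if_neg hx], fun j hj x => ?_⟩
    exact res_conj hSJ (fun j hj => hθ.2 j (hJH hj)) hj x
  · -- extension
    intro η hη
    have hval : ∀ x h₁ h₂, h₁ ∈ H → h₂ ∈ H → h₁ * x * h₁⁻¹ ∈ S → h₂ * x * h₂⁻¹ ∈ S →
        η (h₁ * x * h₁⁻¹) = η (h₂ * x * h₂⁻¹) := by
      intro x h₁ h₂ hh₁ hh₂ hx₁ hx₂
      have h1 : h₂ * x * h₂⁻¹ = (h₂ * h₁⁻¹) * (h₁ * x * h₁⁻¹) * (h₂ * h₁⁻¹)⁻¹ := by group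
      rw [h1] at hx₂ ⊢
      obtain ⟨j, hj, hj'⟩ := hfus _ hx₁ _ (H.mul_mem hh₂ (H.inv_mem hh₁)) hx₂
      rw [hj', hη.2 j hj]
    have hch : ∀ x ∈ SCA p H R, ∃ h, h ∈ H ∧ h * x * h⁻¹ ∈ S := fun x hx => hx
    choose! κ hκ using hch
    refine ⟨fun x => if x ∈ SCA p H R then η (κ x * x * (κ x)⁻¹) else 0,
      ⟨fun x hx => if_neg hx, fun h hh x => ?_⟩, ?_⟩
    · by_cases hx : x ∈ SCA p H R
      · have hx' := hSC h hh x hx
        simp only [hx, hx', if_true]
        have h1 := hκ _ hx'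
        have h2 := hκ _ hx
        have h3 : κ (h * x * h⁻¹) * (h * x * h⁻¹) * (κ (h * x * h⁻¹))⁻¹ =
            (κ (h * x * h⁻¹) * h) * x * (κ (h * x * h⁻¹) * h)⁻¹ := by group
        have h4 := h1.2
        rw [h3] at h4 ⊢
        exact hval x _ _ (H.mul_mem h1.1 hh) h2.1 h4 h2.2
      · have hx' : h * x * h⁻¹ ∉ SCA p H R := fun h' => hx ((conj_mem_iff hSC hh x).1 h')
        simp only [hx, hx', if_false]
    · funext x
      rw [res_apply]
      by_cases hx : x ∈ S
      · simp only [hx, hSSC hx, if_true]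
        have h2 := hκ _ (hSSC hx)
        have h3 := hval x _ 1 h2.1 H.one_mem h2.2 (by simpa using hx)
        rw [h3, one_mul, inv_one, mul_one]
      · rw [if_neg hx, hη.1 x hx]
  · -- injectivity
    intro θ hθ h0
    funext x
    by_cases hx : x ∈ SCA p H R
    · obtain ⟨h, hh, hx'⟩ := hx
      have h1 := congrFun h0 (h * x * h⁻¹)
      rw [res_apply, if_pos hx', hθ.2 h hh] at h1
      exact h1
    · exact hθ.1 x hx
  · -- the two operators
    intro θ hθ
    funext x
    rw [res_apply, kop_apply, kop_apply]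
    by_cases hx : x ∈ S
    · rw [if_pos hx, if_pos hx, if_pos (hSSC hx)]
      rw [← sub_eq_zero, ← finsum_sub_distrib (Set.toFinite _) (Set.toFinite _)]
      have hrx : ∀ r ∈ R, ∀ g, r * g * r⁻¹ * x = r * (g * x) * r⁻¹ := by
        intro r hr g
        calc r * g * r⁻¹ * x = r * g * (r⁻¹ * (x * r)) * r⁻¹ := by group
          _ = r * g * (r⁻¹ * (r * x)) * r⁻¹ := by rw [hx.2.1 r hr]
          _ = r * (g * x) * r⁻¹ := by group
      refine sum_conj_eq_zero hR _ (fun r hr g => ?_) fun g hg => ?_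
      · rw [hrx r hr, hinv r (hRH hr), hθ.2 r (hRH hr), hcutJ r (hRJ hr),
          res_conj hSJ (fun j hj => hθ.2 j (hJH hj)) (hRJ hr)]
      · have hgC : g ∈ Subgroup.centralizer (R : Set Γ) := by
          rw [Subgroup.mem_centralizer_iff]
          exact hg
        rw [res_apply, cut, if_pos hgC, ← mul_sub]
        by_cases hz : z g = 0
        · rw [hz, zero_mul]
        · have hgN : g ∈ H := by
            by_contra h'
            exact hz (hsupp g h')
          by_cases hy : g * x ∈ S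
          · rw [if_pos hy, sub_self, mul_zero]
          · rw [if_neg hy]
            have h1 : g * x ∉ SCA p H R := by
              intro h'
              refine hy (hback _ (H.mul_mem hgN (hJH hx.1)) ?_ h')
              intro r hr
              have h2 : Commute r (g * x) := Commute.mul_right (hg r hr) (hx.2.1 r hr)
              exact h2
            rw [hθ.1 _ h1, sub_self, mul_zero]
    · rw [if_neg hx, if_neg hx]

theorem kfilt_main : S_KFILT := kfilt Pool.Agent.Y487.NV.la kfilta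

end Pool.Agent.X282.KRB
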